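import Pool.Agent.K9h88.IC.KL

/-! Inequalities at the leaves. -/

namespace Pool.Agent.K9h88.IC

open Finset

lemma kl_shift {y c w : ℝ} (hc : 0 < c) (hw : 0 < w) (hy : 0 ≤ y) :
    kl y c = kl y (w * c) + y * Real.log w := by
  rcases hy.eq_or_lt with rfl | hy'
  · simp
  · unfold kl
    rw [Real.log_div hy'.ne' hc.ne', Real.log_div hy'.ne' (mul_pos hw hc).ne',
      Real.log_mul hw.ne' hc.ne']
    ring

lemma kl_change {y c d : ℝ} (hc : 0 < c) (hd : 0 < d) (hy : 0 ≤ y) :
    kl y c = kl y d + y * Real.log (d / c) := by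
  rcases hy.eq_or_lt with rfl | hy'
  · simp
  · unfold kl
    rw [Real.log_div hy'.ne' hc.ne', Real.log_div hy'.ne' hd.ne', Real.log_div hd.ne' hc.ne']
    ring

lemma two_point {A B l P τ2 : ℝ} (hA : 0 ≤ A) (hB : 0 ≤ B) (hl : 0 < l) (hl1 : l < 1)
    (hP : 0 < P) (hτ : τ2 * (1 - l) = l) :
    l * kl B (A + τ2 * B) + l * (1 - l) * (A - B) + kl ((1 - l) * A + l * B) P ≤
      (1 - l) * kl A P + l * kl B P := by
  have h1l : 0 < 1 - l := by linarith
  have hτ2 : 0 < τ2 := by
    by_contra h
    push Not at h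
    nlinarith
  rcases hA.eq_or_lt with hA0 | hA'
  · rcases hB.eq_or_lt with hB0 | hB'
    · rw [← hA0, ← hB0]; simp
    · -- A = 0, B > 0
      subst hA0
      have e1 : kl ((1 - l) * 0 + l * B) P = l * B * Real.log l + l * kl B P := by
        unfold kl
        rw [mul_zero, zero_add, Real.log_div (mul_pos hl hB').ne' hP.ne',
          Real.log_mul hl.ne' hB'.ne', Real.log_div hB'.ne' hP.ne']
        ring
      have e2 : kl B (0 + τ2 * B) = - (B * Real.log τ2) := by
        unfold kl
        rw [zero_add, Real.log_div hB'.ne' (mul_pos hτ2 hB').ne', Real.log_mul hτ2.ne' hB'.ne']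
        ring
      have e3 : Real.log l = Real.log τ2 + Real.log (1 - l) := by
        rw [← Real.log_mul hτ2.ne' h1l.ne', hτ]
      have e4 : Real.log (1 - l) ≤ -l := by
        have := Real.log_le_sub_one_of_pos h1l
        linarith
      rw [e1, e2, e3, kl_zero]
      have : l * B * Real.log (1 - l) ≤ l * B * (-l) :=
        mul_le_mul_of_nonneg_left e4 (by positivity)
      nlinarith
  · have hPd : 0 < (1 - l) * A + l * B := by positivity
    have hq : 0 < A + τ2 * B := by positivity
    have e0 : (1 - l) * A + l * B = (1 - l) * (A + τ2 * B) := by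
      rw [mul_add, ← mul_assoc, mul_comm (1 - l) τ2, hτ]
    have e1 : kl A P = kl A ((1 - l) * A + l * B) + A * Real.log (((1 - l) * A + l * B) / P) :=
      kl_change hP hPd hA
    have e2 : kl B P = kl B ((1 - l) * A + l * B) + B * Real.log (((1 - l) * A + l * B) / P) :=
      kl_change hP hPd hB
    have e3 : kl ((1 - l) * A + l * B) P =
        ((1 - l) * A + l * B) * Real.log (((1 - l) * A + l * B) / P) := rfl
    have e4 := kl_shift hq h1l hA
    have e5 := kl_shift hq h1l hB
    rw [← e0] at e4 e5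
    have e6 : A - (A + τ2 * B) ≤ kl A (A + τ2 * B) :=
      kl_ge hA hq.le (fun h => absurd h hq.ne')
    have e7 : Real.log (1 - l) ≤ -l := by
      have := Real.log_le_sub_one_of_pos h1l
      linarith
    rw [e1, e2, e3]
    have e8 : ((1 - l) * A + l * B) * Real.log (1 - l) ≤ ((1 - l) * A + l * B) * (-l) :=
      mul_le_mul_of_nonneg_left e7 hPd.le
    have e9 : (1 - l) * (A - (A + τ2 * B)) ≤ (1 - l) * kl A (A + τ2 * B) :=
      mul_le_mul_of_nonneg_left e6 h1l.le
    have e10 : (1 - l) * (A - (A + τ2 * B)) = - (l * B) := by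
      have : (1 - l) * (A - (A + τ2 * B)) = - ((τ2 * (1 - l)) * B) := by ring
      rw [this, hτ]
    rw [e10] at e9
    have e11 : kl A ((1 - l) * A + l * B) = kl A (A + τ2 * B) - A * Real.log (1 - l) := by
      linarith
    have e12 : kl B ((1 - l) * A + l * B) = kl B (A + τ2 * B) - B * Real.log (1 - l) := by
      linarith
    rw [e11, e12]
    nlinarith

/-- the support has the star-or-pair shape -/
def Shape (R : Fin 4 → Fin 4 → Prop) : Prop :=
  (∃ i, ∀ k l, R k l → k = i ∧ l ≠ i) ∨
    (∃ i k, i ≠ k ∧ ∀ m n, R m n → (m = i ∧ n = k) ∨ (m = k ∧ n = i))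

lemma shape_of_swap {R : Fin 4 → Fin 4 → Prop} (hd : ∀ i, ¬ R i i)
    (h : ∀ i j k l, R i j → R k l → i ≠ k → k = j ∧ l = i) : Shape R := by
  classical
  by_cases h0 : ∃ i j, R i j
  · obtain ⟨i, j, hij⟩ := h0
    by_cases h1 : ∀ k l, R k l → k = i
    · left
      refine ⟨i, fun k l hkl => ⟨h1 k l hkl, ?_⟩⟩
      rintro rfl
      have := h1 k l hkl
      subst this
      exact hd _ hkl
    · push Not at h1
      obtain ⟨k, l, hkl, hki⟩ := h1
      obtain ⟨rfl, rfl⟩ := h i j k l hij hkl (Ne.symm hki)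
      right
      refine ⟨l, k, Ne.symm hki, fun m n hmn => ?_⟩
      by_cases hm : m = l
      · subst hm
        left
        obtain ⟨h2, h3⟩ := h k m m n hkl hmn hki
        exact ⟨rfl, h3⟩
      · right
        obtain ⟨h2, h3⟩ := h l k m n hij hmn (Ne.symm hm)
        exact ⟨h2, h3⟩
  · left
    push Not at h0
    exact ⟨0, fun k l hkl => absurd hkl (h0 k l)⟩

lemma supp_ge {P : Fin 4 → Fin 4 → ℝ} (hP : ∀ i j, 0 ≤ P i j)
    (hs : Shape fun i j => P i j ≠ 0) {m : ℝ} (hm : 12 * m = ∑ i, ∑ j, P i j) (hm0 : 0 < m) :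
    12 * m * Real.log 4 ≤ ∑ i, ∑ j, kl (P i j) m := by
  classical
  obtain ⟨T, hT, hT0⟩ : ∃ T : Finset (Fin 4 × Fin 4), T.card ≤ 3 ∧
      ∀ d, d ∉ T → P d.1 d.2 = 0 := by
    rcases hs with ⟨i, h⟩ | ⟨i, k, _, h⟩
    · refine ⟨(univ.erase i).image fun j => (i, j), ?_, ?_⟩
      · refine card_image_le.trans ?_
        rw [card_erase_of_mem (mem_univ _)]; simp
      · rintro ⟨k, l⟩ hd
        by_contra h0
        obtain ⟨rfl, hl⟩ := h k l h0
        exact hd (mem_image.2 ⟨l, mem_erase.2 ⟨hl, mem_univ _⟩, rfl⟩)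
    · refine ⟨{(i, k), (k, i)}, card_le_two.trans (by norm_num), ?_⟩
      rintro ⟨m', n⟩ hd
      by_contra h0
      rcases h m' n h0 with ⟨rfl, rfl⟩ | ⟨rfl, rfl⟩ <;> simp at hd
  have hsum : ∀ f : Fin 4 → Fin 4 → ℝ, (∀ d : Fin 4 × Fin 4, d ∉ T → f d.1 d.2 = 0) →
      ∑ i, ∑ j, f i j = ∑ d ∈ T, f d.1 d.2 := by
    intro f hf
    rw [← Fintype.sum_prod_type' (f := f)]
    exact (sum_subset (subset_univ T) fun d _ hd => hf d hd).symm
  have h4 : (0 : ℝ) < 4 := by norm_num
  have hk : ∀ i j, kl (P i j) m = kl (P i j) (4 * m) + P i j * Real.log 4 := fun i j =>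
    kl_shift hm0 h4 (hP i j)
  have e1 : ∑ i, ∑ j, kl (P i j) m =
      ∑ i, ∑ j, kl (P i j) (4 * m) + 12 * m * Real.log 4 := by
    simp_rw [hk, sum_add_distrib, ← sum_mul]
    rw [hm]
  have e2 : 0 ≤ ∑ i, ∑ j, kl (P i j) (4 * m) := by
    rw [hsum _ (fun d hd => by rw [hT0 d hd, kl_zero])]
    have e3 : ∑ d ∈ T, (P d.1 d.2 - 4 * m) ≤ ∑ d ∈ T, kl (P d.1 d.2) (4 * m) :=
      sum_le_sum fun d _ => kl_ge (hP _ _) (by positivity) (fun h => by
        exfalso; linarith)
    refine le_trans ?_ e3
    rw [sum_sub_distrib, ← hsum P hT0, ← hm, sum_const, nsmul_eq_mul]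
    have : (T.card : ℝ) ≤ 3 := by exact_mod_cast hT
    nlinarith
  linarith

/-- entropy-type term -/
noncomputable def h2 (x y : ℝ) : ℝ := kl x ((x + y) / 2) + kl y ((y + x) / 2)

lemma h2_le {x y : ℝ} (hx : 0 ≤ x) (hy : 0 ≤ y) : h2 x y ≤ (x + y) * Real.log 2 := by
  have key : ∀ x y : ℝ, 0 ≤ x → 0 ≤ y → kl x ((x + y) / 2) ≤ x * Real.log 2 := by
    intro x y hx hy
    rcases hx.eq_or_lt with rfl | hx'
    · simp
    · unfold kl
      refine mul_le_mul_of_nonneg_left (Real.log_le_log (by positivity) ?_) hx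
      rw [div_le_iff₀ (by positivity)]
      linarith
  have h1 := key x y hx hy
  have h2' := key y x hy hx
  unfold h2
  linarith

lemma h2_nonneg {x y : ℝ} (hx : 0 ≤ x) (hy : 0 ≤ y) : 0 ≤ h2 x y := by
  have k1 := kl_ge hx (by positivity : 0 ≤ (x + y) / 2) (fun h => by linarith)
  have k2 := kl_ge hy (by positivity : 0 ≤ (y + x) / 2) (fun h => by linarith)
  unfold h2
  linarith

@[simp] lemma h2_zero : h2 0 0 = 0 := by simp [h2]

lemma star_ge {u v w m : ℝ} (hu : 0 ≤ u) (hv : 0 ≤ v) (hw : 0 ≤ w) (hm : 12 * m = u + v + w)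
    (hm0 : 0 < m) :
    12 * m * Real.log 4 + h2 u v ≤ kl u m + kl v m + kl w m := by
  have h4 : (0 : ℝ) < 4 := by norm_num
  have e1 := kl_shift hm0 h4 hu
  have e2 := kl_shift hm0 h4 hv
  have e3 := kl_shift hm0 h4 hw
  have e4 : 12 * m * Real.log 4 = u * Real.log 4 + v * Real.log 4 + w * Real.log 4 := by
    rw [hm]; ring
  have e5 : w - 4 * m ≤ kl w (4 * m) := kl_ge hw (by positivity) (fun h => by exfalso; linarith)
  have e6 : h2 u v + (u + v - 8 * m) ≤ kl u (4 * m) + kl v (4 * m) := by
    rcases (add_nonneg hu hv).eq_or_lt with h0 | hpos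
    · have : u = 0 := by linarith
      have : v = 0 := by linarith
      subst u; subst v
      simp
      linarith
    · have k1 := kl_change (y := u) (c := 4 * m) (d := (u + v) / 2) (by positivity)
        (by positivity) hu
      have k2 := kl_change (y := v) (c := 4 * m) (d := (u + v) / 2) (by positivity)
        (by positivity) hv
      have k3 : u + v - 8 * m ≤ (u + v) * Real.log ((u + v) / 2 / (4 * m)) := by
        have := kl_ge (y := u + v) (c := 8 * m) hpos.le (by positivity)
          (fun h => by exfalso; linarith)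
        have e : (u + v) / 2 / (4 * m) = (u + v) / (8 * m) := by
          field_simp; ring
        rw [e]; exact this
      rw [k1, k2]
      unfold h2
      rw [add_comm v u]
      linarith
  linarith

lemma pair_ge {u v m : ℝ} (hu : 0 ≤ u) (hv : 0 ≤ v) (hm : 12 * m = u + v) (hm0 : 0 < m) :
    12 * m * Real.log 4 + (u + v) * Real.log 2 / 2 ≤ kl u m + kl v m := by
  have h1 : kl (u + v) (m + m) ≤ kl u m + kl v m :=
    kl_superadd hu hv hm0.le hm0.le (fun h => absurd h hm0.ne') (fun h => absurd h hm0.ne')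
  have h2' : kl (u + v) (m + m) = 12 * m * Real.log 6 := by
    unfold kl
    have : (u + v) / (m + m) = 6 := by
      rw [← hm]; field_simp; ring
    rw [this, ← hm]
  have h3 : Real.log 6 = Real.log 4 + Real.log (3 / 2) := by
    rw [← Real.log_mul (by norm_num) (by norm_num)]; norm_num
  have h4 : Real.log 2 / 2 ≤ Real.log (3 / 2) := by
    have : Real.log 2 ≤ 2 * Real.log (3 / 2) := by
      have e : 2 * Real.log (3 / 2) = Real.log ((3 / 2) ^ 2) := by
        rw [Real.log_pow]; norm_num
      rw [e]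
      exact Real.log_le_log (by norm_num) (by norm_num)
    linarith
  rw [h2', h3] at h1
  have : (u + v) * Real.log 2 / 2 ≤ 12 * m * Real.log (3 / 2) := by
    rw [hm]
    have := mul_le_mul_of_nonneg_left h4 (add_nonneg hu hv)
    linarith
  linarith

/-- penalty in terms of the products -/
noncomputable def penA (A : Fin 4 → Fin 4 → ℝ) : ℝ :=
  h2 (A 0 1) (A 0 2) + h2 (A 1 0) (A 1 2) + h2 (A 2 0) (A 2 1)

lemma penA_ge {A : Fin 4 → Fin 4 → ℝ} (hA : ∀ i j, 0 ≤ A i j)
    (hs : Shape fun i j => A i j ≠ 0) {m : ℝ} (hm : 12 * m = ∑ i, ∑ j, A i j) (hm0 : 0 < m) :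
    12 * m * Real.log 4 + penA A / 2 ≤ ∑ i, ∑ j, kl (A i j) m := by
  classical
  rcases hs with ⟨i, h⟩ | ⟨i, k, hik, h⟩
  · have z : ∀ k l, (k ≠ i ∨ l = i) → A k l = 0 := by
      intro k l hkl
      by_contra h0
      obtain ⟨h1, h2⟩ := h k l h0
      rcases hkl with h3 | h3
      · exact h3 h1
      · exact h2 h3
    fin_cases i
    · have a00 := z 0 0 (by decide)
      have a10 := z 1 0 (by decide)
      have a11 := z 1 1 (by decide)
      have a12 := z 1 2 (by decide)
      have a13 := z 1 3 (by decide)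
      have a20 := z 2 0 (by decide)
      have a21 := z 2 1 (by decide)
      have a22 := z 2 2 (by decide)
      have a23 := z 2 3 (by decide)
      have a30 := z 3 0 (by decide)
      have a31 := z 3 1 (by decide)
      have a32 := z 3 2 (by decide)
      have a33 := z 3 3 (by decide)
      simp only [Fin.sum_univ_four, a00, a10, a11, a12, a13, a20, a21, a22, a23, a30, a31, a32,
        a33, add_zero, zero_add, kl_zero] at hm ⊢
      have := star_ge (hA 0 1) (hA 0 2) (hA 0 3) hm hm0
      have hn := h2_nonneg (hA 0 1) (hA 0 2)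
      simp only [penA, a10, a12, a20, a21, h2_zero, add_zero]
      linarith
    · have a00 := z 0 0 (by decide)
      have a01 := z 0 1 (by decide)
      have a02 := z 0 2 (by decide)
      have a03 := z 0 3 (by decide)
      have a11 := z 1 1 (by decide)
      have a20 := z 2 0 (by decide)
      have a21 := z 2 1 (by decide)
      have a22 := z 2 2 (by decide)
      have a23 := z 2 3 (by decide)
      have a30 := z 3 0 (by decide)
      have a31 := z 3 1 (by decide)
      have a32 := z 3 2 (by decide)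
      have a33 := z 3 3 (by decide)
      simp only [Fin.sum_univ_four, a00, a01, a02, a03, a11, a20, a21, a22, a23, a30, a31, a32,
        a33, add_zero, zero_add, kl_zero] at hm ⊢
      have := star_ge (hA 1 0) (hA 1 2) (hA 1 3) hm hm0
      have hn := h2_nonneg (hA 1 0) (hA 1 2)
      simp only [penA, a01, a02, a20, a21, h2_zero, add_zero, zero_add]
      linarith
    · have a00 := z 0 0 (by decide)
      have a01 := z 0 1 (by decide)
      have a02 := z 0 2 (by decide)
      have a03 := z 0 3 (by decide)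
      have a10 := z 1 0 (by decide)
      have a11 := z 1 1 (by decide)
      have a12 := z 1 2 (by decide)
      have a13 := z 1 3 (by decide)
      have a22 := z 2 2 (by decide)
      have a30 := z 3 0 (by decide)
      have a31 := z 3 1 (by decide)
      have a32 := z 3 2 (by decide)
      have a33 := z 3 3 (by decide)
      simp only [Fin.sum_univ_four, a00, a01, a02, a03, a10, a11, a12, a13, a22, a30, a31, a32,
        a33, add_zero, zero_add, kl_zero] at hm ⊢
      have := star_ge (hA 2 0) (hA 2 1) (hA 2 3) hm hm0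
      have hn := h2_nonneg (hA 2 0) (hA 2 1)
      simp only [penA, a01, a02, a10, a12, h2_zero, zero_add]
      linarith
    · have a00 := z 0 0 (by decide)
      have a01 := z 0 1 (by decide)
      have a02 := z 0 2 (by decide)
      have a03 := z 0 3 (by decide)
      have a10 := z 1 0 (by decide)
      have a11 := z 1 1 (by decide)
      have a12 := z 1 2 (by decide)
      have a13 := z 1 3 (by decide)
      have a20 := z 2 0 (by decide)
      have a21 := z 2 1 (by decide)
      have a22 := z 2 2 (by decide)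
      have a23 := z 2 3 (by decide)
      have a33 := z 3 3 (by decide)
      simp only [Fin.sum_univ_four, a00, a01, a02, a03, a10, a11, a12, a13, a20, a21, a22, a23,
        a33, add_zero, zero_add, kl_zero] at hm ⊢
      have := star_ge (hA 3 0) (hA 3 1) (hA 3 2) hm hm0
      have hn := h2_nonneg (hA 3 0) (hA 3 1)
      simp only [penA, a01, a02, a10, a12, a20, a21, h2_zero, zero_add, zero_div, add_zero]
      linarith
  · -- the pair case
    have z : ∀ d : Fin 4 × Fin 4, d ∉ ({(i, k), (k, i)} : Finset (Fin 4 × Fin 4)) →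
        A d.1 d.2 = 0 := by
      rintro ⟨m', n⟩ hd
      by_contra h0
      rcases h m' n h0 with ⟨rfl, rfl⟩ | ⟨rfl, rfl⟩ <;> simp at hd
    have hne : (i, k) ≠ (k, i) := by
      intro h; exact hik (Prod.mk.inj h).1
    have hsum : ∀ f : Fin 4 → Fin 4 → ℝ,
        (∀ d : Fin 4 × Fin 4, d ∉ ({(i, k), (k, i)} : Finset (Fin 4 × Fin 4)) → f d.1 d.2 = 0) →
        ∑ i, ∑ j, f i j = f i k + f k i := by
      intro f hf
      rw [← Fintype.sum_prod_type' (f := f),
        ← sum_subset (subset_univ ({(i, k), (k, i)} : Finset (Fin 4 × Fin 4)))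
          fun d _ hd => hf d hd, sum_pair hne]
    have hpen : penA A ≤ (∑ i, ∑ j, A i j) * Real.log 2 := by
      have l2 : 0 ≤ Real.log 2 := Real.log_nonneg (by norm_num)
      have k0 := h2_le (hA 0 1) (hA 0 2)
      have k1 := h2_le (hA 1 0) (hA 1 2)
      have k2 := h2_le (hA 2 0) (hA 2 1)
      have : (A 0 1 + A 0 2) + (A 1 0 + A 1 2) + (A 2 0 + A 2 1) ≤ ∑ i, ∑ j, A i j := by
        simp only [Fin.sum_univ_four]
        linarith [hA 0 0, hA 0 3, hA 1 1, hA 1 3, hA 2 2, hA 2 3, hA 3 0, hA 3 1, hA 3 2, hA 3 3]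
      have := mul_le_mul_of_nonneg_right this l2
      unfold penA
      linarith
    rw [hsum A z] at hm hpen
    rw [hsum (fun i j => kl (A i j) m) (fun d hd => by
      show kl (A d.1 d.2) m = 0
      rw [z d hd, kl_zero])]
    have := pair_ge (hA i k) (hA k i) hm hm0
    linarith

/-- The combined inequality at a leaf. -/
lemma leaf_lower {A B : Fin 4 → Fin 4 → ℝ} (hA : ∀ i j, 0 ≤ A i j) (hB : ∀ i j, 0 ≤ B i j)
    (hs : Shape fun i j => A i j ≠ 0 ∨ B i j ≠ 0) {l τ2 P : ℝ} (hl : 0 < l) (hl1 : l < 1)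
    (hτ : τ2 * (1 - l) = l) (hP : 12 * P = ∑ i, ∑ j, ((1 - l) * A i j + l * B i j)) :
    12 * P * Real.log 4 + l / (1 + 40 * τ2) * ((∑ i, ∑ j, kl (B i j) (A i j + τ2 * B i j)) +
        20 * penA A + (1 - l) * ∑ i, ∑ j, (A i j - B i j)) ≤
      ∑ i, ∑ j, ((1 - l) * kl (A i j) P + l * kl (B i j) P) := by
  classical
  have h1l : 0 < 1 - l := by linarith
  have hτ2 : 0 < τ2 := by
    by_contra h
    push Not at h
    nlinarith
  have hAB : ∀ i j, 0 ≤ (1 - l) * A i j + l * B i j := fun i j => by
    have := hA i j; have := hB i j; positivity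
  have hP0 : 0 ≤ P := by
    have : 0 ≤ ∑ i, ∑ j, ((1 - l) * A i j + l * B i j) :=
      sum_nonneg fun i _ => sum_nonneg fun j _ => hAB i j
    linarith
  rcases hP0.eq_or_lt with h0 | hPpos
  · -- everything vanishes
    have hz : ∀ i j, (1 - l) * A i j + l * B i j = 0 := by
      have e : ∑ i, ∑ j, ((1 - l) * A i j + l * B i j) = 0 := by rw [← hP, ← h0]; ring
      intro i j
      have := (sum_eq_zero_iff_of_nonneg (fun i _ => sum_nonneg fun j _ => hAB i j)).1 e i
        (mem_univ i)
      exact (sum_eq_zero_iff_of_nonneg (fun j _ => hAB i j)).1 this j (mem_univ j)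
    have hA0 : ∀ i j, A i j = 0 := by
      intro i j
      have := hz i j
      have e1 : 0 ≤ l * B i j := mul_nonneg hl.le (hB i j)
      have e2 : 0 ≤ (1 - l) * A i j := mul_nonneg h1l.le (hA i j)
      have e3 : (1 - l) * A i j = 0 := by linarith
      rcases mul_eq_zero.1 e3 with h | h
      · exact absurd h h1l.ne'
      · exact h
    have hB0 : ∀ i j, B i j = 0 := by
      intro i j
      have := hz i j
      rw [hA0 i j] at this
      have e3 : l * B i j = 0 := by linarith
      rcases mul_eq_zero.1 e3 with h | h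
      · exact absurd h hl.ne'
      · exact h
    simp [hA0, hB0, penA, ← h0]
  · have hsA : Shape fun i j => A i j ≠ 0 := by
      rcases hs with ⟨i, h⟩ | ⟨i, k, hik, h⟩
      · exact Or.inl ⟨i, fun k l hkl => h k l (Or.inl hkl)⟩
      · exact Or.inr ⟨i, k, hik, fun m n hmn => h m n (Or.inl hmn)⟩
    have hsB : Shape fun i j => B i j ≠ 0 := by
      rcases hs with ⟨i, h⟩ | ⟨i, k, hik, h⟩
      · exact Or.inl ⟨i, fun k l hkl => h k l (Or.inr hkl)⟩
      · exact Or.inr ⟨i, k, hik, fun m n hmn => h m n (Or.inr hmn)⟩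
    have hsP : Shape fun i j => (1 - l) * A i j + l * B i j ≠ 0 := by
      have key : ∀ i j, (1 - l) * A i j + l * B i j ≠ 0 → A i j ≠ 0 ∨ B i j ≠ 0 := by
        intro i j h
        by_contra hc
        push Not at hc
        apply h
        rw [hc.1, hc.2]; ring
      rcases hs with ⟨i, h⟩ | ⟨i, k, hik, h⟩
      · exact Or.inl ⟨i, fun k l hkl => h k l (key _ _ hkl)⟩
      · exact Or.inr ⟨i, k, hik, fun m n hmn => h m n (key _ _ hmn)⟩
    set I := ∑ i, ∑ j, ((1 - l) * kl (A i j) P + l * kl (B i j) P) with hI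
    -- first bound
    have b1 : 12 * P * Real.log 4 + l * ((∑ i, ∑ j, kl (B i j) (A i j + τ2 * B i j)) +
        (1 - l) * ∑ i, ∑ j, (A i j - B i j)) ≤ I := by
      have e1 : ∑ i, ∑ j, (l * kl (B i j) (A i j + τ2 * B i j) + l * (1 - l) * (A i j - B i j) +
          kl ((1 - l) * A i j + l * B i j) P) ≤ I :=
        sum_le_sum fun i _ => sum_le_sum fun j _ =>
          two_point (hA i j) (hB i j) hl hl1 hPpos hτ
      have e2 := supp_ge hAB hsP hP hPpos
      simp only [sum_add_distrib, ← mul_sum] at e1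
      linarith
    -- second bound
    have b2 : 12 * P * Real.log 4 + (1 - l) * (penA A / 2) ≤ I := by
      set a0 := (∑ i, ∑ j, A i j) / 12 with ha0
      set b0 := (∑ i, ∑ j, B i j) / 12 with hb0
      have hPab : P = (1 - l) * a0 + l * b0 := by
        have : ∑ i, ∑ j, ((1 - l) * A i j + l * B i j) =
            (1 - l) * ∑ i, ∑ j, A i j + l * ∑ i, ∑ j, B i j := by
          simp only [sum_add_distrib, ← mul_sum]
        rw [ha0, hb0]
        linarith
      have ha0' : 0 ≤ a0 := by
        have : 0 ≤ ∑ i, ∑ j, A i j := sum_nonneg fun i _ => sum_nonneg fun j _ => hA i j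
        positivity
      have hb0' : 0 ≤ b0 := by
        have : 0 ≤ ∑ i, ∑ j, B i j := sum_nonneg fun i _ => sum_nonneg fun j _ => hB i j
        positivity
      have chain : ∀ (C : Fin 4 → Fin 4 → ℝ), (∀ i j, 0 ≤ C i j) →
          (Shape fun i j => C i j ≠ 0) → ∀ c0, c0 = (∑ i, ∑ j, C i j) / 12 → 0 < c0 →
          ∑ i, ∑ j, kl (C i j) P = (∑ i, ∑ j, kl (C i j) c0) + 12 * kl c0 P := by
        intro C hC _ c0 hc0 hpos
        have e : ∀ i j, kl (C i j) P = kl (C i j) c0 + C i j * Real.log (c0 / P) := fun i j =>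
          kl_change hPpos hpos (hC i j)
        simp_rw [e, sum_add_distrib, ← sum_mul]
        have : ∑ i, ∑ j, C i j = 12 * c0 := by rw [hc0]; ring
        rw [this]; unfold kl; ring
      have hApart : 12 * a0 * Real.log 4 + penA A / 2 + 12 * (a0 - P) ≤
          ∑ i, ∑ j, kl (A i j) P := by
        rcases ha0'.eq_or_lt with h0 | hpos
        · have hz : ∀ i j, A i j = 0 := by
            have e : ∑ i, ∑ j, A i j = 0 := by rw [ha0] at h0; linarith
            intro i j
            have := (sum_eq_zero_iff_of_nonneg (fun i _ => sum_nonneg fun j _ => hA i j)).1 e i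
              (mem_univ i)
            exact (sum_eq_zero_iff_of_nonneg (fun j _ => hA i j)).1 this j (mem_univ j)
          rw [← h0]
          simp [hz, penA]
          linarith
        · rw [chain A hA hsA a0 ha0 hpos]
          have k1 := penA_ge hA hsA (m := a0) (by rw [ha0]; ring) hpos
          have k2 : a0 - P ≤ kl a0 P := kl_ge ha0' hPpos.le (fun h => absurd h hPpos.ne')
          linarith
      have hBpart : 12 * b0 * Real.log 4 + 12 * (b0 - P) ≤ ∑ i, ∑ j, kl (B i j) P := by
        rcases hb0'.eq_or_lt with h0 | hpos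
        · have hz : ∀ i j, B i j = 0 := by
            have e : ∑ i, ∑ j, B i j = 0 := by rw [hb0] at h0; linarith
            intro i j
            have := (sum_eq_zero_iff_of_nonneg (fun i _ => sum_nonneg fun j _ => hB i j)).1 e i
              (mem_univ i)
            exact (sum_eq_zero_iff_of_nonneg (fun j _ => hB i j)).1 this j (mem_univ j)
          rw [← h0]
          simp [hz]
          linarith
        · rw [chain B hB hsB b0 hb0 hpos]
          have k1 := supp_ge hB hsB (m := b0) (by rw [hb0]; ring) hpos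
          have k2 : b0 - P ≤ kl b0 P := kl_ge hb0' hPpos.le (fun h => absurd h hPpos.ne')
          linarith
      have e3 : I = (1 - l) * ∑ i, ∑ j, kl (A i j) P + l * ∑ i, ∑ j, kl (B i j) P := by
        rw [hI]; simp only [sum_add_distrib, ← mul_sum]
      rw [e3]
      have m1 := mul_le_mul_of_nonneg_left hApart h1l.le
      have m2 := mul_le_mul_of_nonneg_left hBpart hl.le
      have e4 : 12 * P * Real.log 4 = (1 - l) * (12 * a0 * Real.log 4) +
          l * (12 * b0 * Real.log 4) := by
        rw [hPab]; ring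
      have e5 : (1 - l) * (12 * (a0 - P)) + l * (12 * (b0 - P)) = 0 := by
        rw [hPab]; ring
      rw [e4]
      linarith
    -- combination
    have hpos : 0 < 1 + 40 * τ2 := by positivity
    rw [div_mul_eq_mul_div]
    have goal' : l * ((∑ i, ∑ j, kl (B i j) (A i j + τ2 * B i j)) +
        20 * penA A + (1 - l) * ∑ i, ∑ j, (A i j - B i j)) ≤
        (I - 12 * P * Real.log 4) * (1 + 40 * τ2) := by
      have c1 := mul_le_mul_of_nonneg_left b2 (by positivity : 0 ≤ 40 * τ2)
      have c2 : 40 * τ2 * ((1 - l) * (penA A / 2)) = l * (20 * penA A) := by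
        have : 40 * τ2 * ((1 - l) * (penA A / 2)) = (τ2 * (1 - l)) * (20 * penA A) := by ring
        rw [this, hτ]
      have c3 : 40 * τ2 * (12 * P * Real.log 4 + (1 - l) * (penA A / 2)) =
          40 * τ2 * (12 * P * Real.log 4) + l * (20 * penA A) := by
        rw [mul_add, c2]
      rw [c3] at c1
      nlinarith [b1, c1]
    have := (div_le_iff₀ hpos).2 goal'
    linarith

end Pool.Agent.K9h88.IC
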