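import Pool.Agent.K9h88.IC.Psi

/-! Separate superadditivity-type inequality for the corrected potential on a triple of labels. -/

namespace Pool.Agent.K9h88.IC

open Finset

/-- potential of one pair of labels -/
noncomputable def TT (τ si sj p ti tj r : ℝ) : ℝ :=
  p * kl (ti + tj) (r + τ * (ti + tj)) + ti * kl p (si + τ * p) + tj * kl p (sj + τ * p)

/-- penalty -/
noncomputable def pn (s0 s1 s2 x y z : ℝ) : ℝ :=
  s0 * (kl x ((x + y) / 2) + kl y ((y + x) / 2)) +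
  s1 * (kl x ((x + z) / 2) + kl z ((z + x) / 2)) +
  s2 * (kl y ((y + z) / 2) + kl z ((z + y) / 2))

/-- corrected potential on three labels -/
noncomputable def G3 (τ : ℝ) (a b : Fin 6 → ℝ) : ℝ :=
  TT τ (a 0) (a 1) (a 3) (b 0) (b 1) (b 3) + TT τ (a 0) (a 2) (a 4) (b 0) (b 2) (b 4) +
    TT τ (a 1) (a 2) (a 5) (b 1) (b 2) (b 5) +
    20 * pn (a 0) (a 1) (a 2) (b 3) (b 4) (b 5) + 1 / 10 ^ 6 * psi a b

lemma TT_split_a (τ s1 s2 u1 u2 p1 p2 ti tj r : ℝ) :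
    TT τ s1 u1 p1 ti tj r + TT τ s2 u2 p2 ti tj r - TT τ (s1 + s2) (u1 + u2) (p1 + p2) ti tj r =
      ti * (kl p1 (s1 + τ * p1) + kl p2 (s2 + τ * p2) - kl (p1 + p2) (s1 + s2 + τ * (p1 + p2))) +
      tj * (kl p1 (u1 + τ * p1) + kl p2 (u2 + τ * p2) -
        kl (p1 + p2) (u1 + u2 + τ * (p1 + p2))) := by
  unfold TT; ring

lemma TT_split_b (τ s u p t1 t2 v1 v2 r1 r2 : ℝ) :
    TT τ s u p t1 v1 r1 + TT τ s u p t2 v2 r2 - TT τ s u p (t1 + t2) (v1 + v2) (r1 + r2) =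
      p * (kl (t1 + v1) (r1 + τ * (t1 + v1)) + kl (t2 + v2) (r2 + τ * (t2 + v2)) -
        kl (t1 + v1 + (t2 + v2)) (r1 + r2 + τ * (t1 + v1 + (t2 + v2)))) := by
  unfold TT
  have e : t1 + t2 + (v1 + v2) = t1 + v1 + (t2 + v2) := by ring
  rw [e]; ring

lemma edge_nonneg {τ s1 s2 p1 p2 : ℝ} (hτ : 0 < τ) (hs1 : 0 ≤ s1) (hs2 : 0 ≤ s2) (hp1 : 0 ≤ p1)
    (hp2 : 0 ≤ p2) :
    0 ≤ kl p1 (s1 + τ * p1) + kl p2 (s2 + τ * p2) - kl (p1 + p2) (s1 + s2 + τ * (p1 + p2)) := by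
  have z : ∀ s p : ℝ, 0 ≤ s → 0 ≤ p → s + τ * p = 0 → p = 0 := by
    intro s p hs hp h
    have h1 : 0 ≤ τ * p := mul_nonneg hτ.le hp
    have h2 : τ * p = 0 := by linarith
    rcases mul_eq_zero.1 h2 with h | h
    · exact absurd h hτ.ne'
    · exact h
  have := kl_superadd hp1 hp2 (by positivity : 0 ≤ s1 + τ * p1) (by positivity : 0 ≤ s2 + τ * p2)
    (z s1 p1 hs1 hp1) (z s2 p2 hs2 hp2)
  have e : s1 + s2 + τ * (p1 + p2) = s1 + τ * p1 + (s2 + τ * p2) := by ring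
  rw [e]; linarith

lemma TT_sa {τ s1 s2 u1 u2 p1 p2 ti tj r : ℝ} (hτ : 0 < τ) (hs1 : 0 ≤ s1) (hs2 : 0 ≤ s2)
    (hu1 : 0 ≤ u1) (hu2 : 0 ≤ u2) (hp1 : 0 ≤ p1) (hp2 : 0 ≤ p2) (hti : 0 ≤ ti) (htj : 0 ≤ tj) :
    TT τ (s1 + s2) (u1 + u2) (p1 + p2) ti tj r ≤ TT τ s1 u1 p1 ti tj r + TT τ s2 u2 p2 ti tj r := by
  have h1 := mul_nonneg hti (edge_nonneg hτ hs1 hs2 hp1 hp2)
  have h2 := mul_nonneg htj (edge_nonneg hτ hu1 hu2 hp1 hp2)
  have := TT_split_a τ s1 s2 u1 u2 p1 p2 ti tj r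
  linarith

lemma TT_sb {τ s u p t1 t2 v1 v2 r1 r2 : ℝ} (hτ : 0 < τ) (hp : 0 ≤ p) (ht1 : 0 ≤ t1)
    (ht2 : 0 ≤ t2) (hv1 : 0 ≤ v1) (hv2 : 0 ≤ v2) (hr1 : 0 ≤ r1) (hr2 : 0 ≤ r2) :
    TT τ s u p (t1 + t2) (v1 + v2) (r1 + r2) ≤ TT τ s u p t1 v1 r1 + TT τ s u p t2 v2 r2 := by
  have h1 := mul_nonneg hp (edge_nonneg hτ hr1 hr2 (add_nonneg ht1 hv1) (add_nonneg ht2 hv2))
  have := TT_split_b τ s u p t1 t2 v1 v2 r1 r2
  linarith

lemma half_nonneg {x1 x2 y1 y2 : ℝ} (hx1 : 0 ≤ x1) (hx2 : 0 ≤ x2) (hy1 : 0 ≤ y1) (hy2 : 0 ≤ y2) :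
    0 ≤ kl x1 ((x1 + y1) / 2) + kl x2 ((x2 + y2) / 2) -
      kl (x1 + x2) ((x1 + x2 + (y1 + y2)) / 2) := by
  have := kl_superadd hx1 hx2 (by positivity : 0 ≤ (x1 + y1) / 2)
    (by positivity : 0 ≤ (x2 + y2) / 2) (fun h => by linarith) (fun h => by linarith)
  have e : (x1 + x2 + (y1 + y2)) / 2 = (x1 + y1) / 2 + (x2 + y2) / 2 := by ring
  rw [e]; linarith

lemma pn_split_a (s0 s1 s2 u0 u1 u2 x y z : ℝ) :
    pn (s0 + u0) (s1 + u1) (s2 + u2) x y z = pn s0 s1 s2 x y z + pn u0 u1 u2 x y z := by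
  unfold pn; ring

/-- deficit of the half terms -/
noncomputable def hd (x1 x2 y1 y2 : ℝ) : ℝ :=
  kl x1 ((x1 + y1) / 2) + kl x2 ((x2 + y2) / 2) - kl (x1 + x2) ((x1 + x2 + (y1 + y2)) / 2)

lemma pn_split_b (s0 s1 s2 x1 y1 z1 x2 y2 z2 : ℝ) :
    pn s0 s1 s2 x1 y1 z1 + pn s0 s1 s2 x2 y2 z2 - pn s0 s1 s2 (x1 + x2) (y1 + y2) (z1 + z2) =
      s0 * (hd x1 x2 y1 y2 + hd y1 y2 x1 x2) + s1 * (hd x1 x2 z1 z2 + hd z1 z2 x1 x2) +
      s2 * (hd y1 y2 z1 z2 + hd z1 z2 y1 y2) := by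
  unfold pn hd; ring

lemma hd_nonneg {x1 x2 y1 y2 : ℝ} (hx1 : 0 ≤ x1) (hx2 : 0 ≤ x2) (hy1 : 0 ≤ y1) (hy2 : 0 ≤ y2) :
    0 ≤ hd x1 x2 y1 y2 := half_nonneg hx1 hx2 hy1 hy2

lemma hexagon (f0 f1 f2 f3 f4 f5 m : ℝ) (hm : m = (f0 + f1 + f2 + f3 + f4 + f5) / 6) :
    (f0 - m) ^ 2 + (f1 - m) ^ 2 + (f2 - m) ^ 2 + (f3 - m) ^ 2 + (f4 - m) ^ 2 + (f5 - m) ^ 2 ≤
      (f3 - f0) ^ 2 + (f3 - f1) ^ 2 + (f4 - f0) ^ 2 + (f4 - f2) ^ 2 + (f5 - f1) ^ 2 +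
        (f5 - f2) ^ 2 := by
  subst hm
  have key : (f3 - f0) ^ 2 + (f3 - f1) ^ 2 + (f4 - f0) ^ 2 + (f4 - f2) ^ 2 + (f5 - f1) ^ 2 +
        (f5 - f2) ^ 2 - ((f0 - (f0 + f1 + f2 + f3 + f4 + f5) / 6) ^ 2 +
        (f1 - (f0 + f1 + f2 + f3 + f4 + f5) / 6) ^ 2 +
        (f2 - (f0 + f1 + f2 + f3 + f4 + f5) / 6) ^ 2 +
        (f3 - (f0 + f1 + f2 + f3 + f4 + f5) / 6) ^ 2 +
        (f4 - (f0 + f1 + f2 + f3 + f4 + f5) / 6) ^ 2 +
        (f5 - (f0 + f1 + f2 + f3 + f4 + f5) / 6) ^ 2) =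
      4 * (((f0 + f5) / 2 - (f0 + f1 + f2 + f3 + f4 + f5) / 6) ^ 2 +
        ((f3 + f2) / 2 - (f0 + f1 + f2 + f3 + f4 + f5) / 6) ^ 2 +
        ((f1 + f4) / 2 - (f0 + f1 + f2 + f3 + f4 + f5) / 6) ^ 2) +
      18 * ((f0 - f3 + f1 - f5 + f2 - f4) / 6) ^ 2 := by ring
  nlinarith [sq_nonneg ((f0 + f5) / 2 - (f0 + f1 + f2 + f3 + f4 + f5) / 6),
    sq_nonneg ((f3 + f2) / 2 - (f0 + f1 + f2 + f3 + f4 + f5) / 6),
    sq_nonneg ((f1 + f4) / 2 - (f0 + f1 + f2 + f3 + f4 + f5) / 6),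
    sq_nonneg ((f0 - f3 + f1 - f5 + f2 - f4) / 6), key]

lemma eq_zero_of_sm {a : Fin 6 → ℝ} (ha : ∀ i, 0 ≤ a i) (h : sm a = 0) : a = 0 := by
  funext i
  have := (sum_eq_zero_iff_of_nonneg (fun i _ => ha i)).1 h i (mem_univ i)
  exact this

lemma pn_nonneg {s0 s1 s2 x y z : ℝ} (h0 : 0 ≤ s0) (h1 : 0 ≤ s1) (h2 : 0 ≤ s2) (hx : 0 ≤ x)
    (hy : 0 ≤ y) (hz : 0 ≤ z) : 0 ≤ pn s0 s1 s2 x y z := by
  have key : ∀ x y : ℝ, 0 ≤ x → 0 ≤ y → 0 ≤ kl x ((x + y) / 2) + kl y ((y + x) / 2) := by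
    intro x y hx hy
    have k1 := kl_ge hx (by positivity : 0 ≤ (x + y) / 2) (fun h => by linarith)
    have k2 := kl_ge hy (by positivity : 0 ≤ (y + x) / 2) (fun h => by linarith)
    linarith
  unfold pn
  have := key x y hx hy
  have := key x z hx hz
  have := key y z hy hz
  positivity

lemma G3_zero_left (τ : ℝ) (b : Fin 6 → ℝ) : 0 ≤ G3 τ 0 b := by
  unfold G3 TT pn
  simp only [Pi.zero_apply, kl_zero, zero_mul, mul_zero, add_zero, zero_add]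
  have := psi_nonneg 0 b
  positivity

lemma G3_zero_right (τ : ℝ) (a : Fin 6 → ℝ) : 0 ≤ G3 τ a 0 := by
  unfold G3 TT pn
  simp only [Pi.zero_apply, kl_zero, zero_mul, mul_zero, add_zero, zero_add]
  have := psi_nonneg a 0
  positivity

lemma aux_a {x Z : ℝ} (hZ : 0 ≤ Z) (h : x ≤ 9 * Z) : 1 / 10 ^ 6 * x ≤ 1 / 55296 * Z := by
  linarith

lemma aux_b {x A B : ℝ} (hA : 0 ≤ A) (hB : 0 ≤ B) (h : x ≤ 432 * A + 9 * B) :
    1 / 10 ^ 6 * x ≤ 1 / 1344 * A + (10 / 20736 - 1 / 2688) * B := by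
  linarith

theorem G3_superadd_a {τ : ℝ} (hτ : 0 < τ) (hτ6 : τ ≤ 1 / 6) {a1 a2 b : Fin 6 → ℝ}
    (h1 : ∀ i, 0 ≤ a1 i) (h2 : ∀ i, 0 ≤ a2 i) (hb : ∀ i, 0 ≤ b i) :
    G3 τ (a1 + a2) b ≤ G3 τ a1 b + G3 τ a2 b := by
  have ha : ∀ i, 0 ≤ (a1 + a2) i := fun i => add_nonneg (h1 i) (h2 i)
  by_cases hq : 0 < qf (a1 + a2) b
  swap
  · have e1 : psi (a1 + a2) b = 0 := max_eq_left (not_lt.1 hq)
    have e2 := psi_nonneg a1 b
    have e3 := psi_nonneg a2 b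
    unfold G3
    simp only [Pi.add_apply]
    rw [e1, pn_split_a]
    have t1 := TT_sa (r := b 3) hτ (h1 0) (h2 0) (h1 1) (h2 1) (h1 3) (h2 3) (hb 0) (hb 1)
    have t2 := TT_sa (r := b 4) hτ (h1 0) (h2 0) (h1 2) (h2 2) (h1 4) (h2 4) (hb 0) (hb 2)
    have t3 := TT_sa (r := b 5) hτ (h1 1) (h2 1) (h1 2) (h2 2) (h1 5) (h2 5) (hb 1) (hb 2)
    have : 0 ≤ 1 / 10 ^ 6 * psi a1 b + 1 / 10 ^ 6 * psi a2 b := by positivity
    linarith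
  obtain ⟨hSa, hSb, hra⟩ := range_of_qf_pos ha hb hq
  have hrb := (range_of_qf_pos hb ha (by rw [qf_comm]; exact hq)).2.2
  rcases (sm_nonneg h1).eq_or_lt with hz | hS1
  · have : a1 = 0 := eq_zero_of_sm h1 hz.symm
    subst this
    rw [zero_add]
    linarith [G3_zero_left τ b]
  rcases (sm_nonneg h2).eq_or_lt with hz | hS2
  · have : a2 = 0 := eq_zero_of_sm h2 hz.symm
    subst this
    rw [add_zero]
    linarith [G3_zero_left τ b]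
  -- the main case
  rw [sm_add] at hSa hra
  simp only [Pi.add_apply] at hra
  set S1 := sm a1 with hS1d
  set S2 := sm a2 with hS2d
  have hpos : ∀ p, 0 < a1 p + a2 p := fun p => by linarith [(hra p).1]
  have le1 : ∀ i j, i ≠ j → a1 i + a1 j ≤ S1 := by
    intro i j hij
    have : ∑ k ∈ {i, j}, a1 k ≤ ∑ k, a1 k :=
      sum_le_sum_of_subset_of_nonneg (subset_univ _) fun k _ _ => h1 k
    rwa [sum_pair hij] at this
  have le2 : ∀ i j, i ≠ j → a2 i + a2 j ≤ S2 := by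
    intro i j hij
    have : ∑ k ∈ {i, j}, a2 k ≤ ∑ k, a2 k :=
      sum_le_sum_of_subset_of_nonneg (subset_univ _) fun k _ _ => h2 k
    rwa [sum_pair hij] at this
  have ed : ∀ s p, s ≠ p → (S1 + S2) ^ 3 / (4608 * (S1 * S2)) *
      (a1 p / (a1 p + a2 p) - a1 s / (a1 s + a2 s)) ^ 2 ≤
      kl (a1 p) (a1 s + τ * a1 p) + kl (a2 p) (a2 s + τ * a2 p) -
        kl (a1 p + a2 p) (a1 s + a2 s + τ * (a1 p + a2 p)) := by
    intro s p hsp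
    exact edge_def (h1 s) (h2 s) (h1 p) (h2 p) (le1 s p hsp) (le2 s p hsp) hS1 hS2 (hra s).1
      (hra p).1 (hra p).2 hτ hτ6
  set f : Fin 6 → ℝ := fun p => a1 p / (a1 p + a2 p) with hf
  set X := (S1 + S2) ^ 3 / (4608 * (S1 * S2)) with hX
  have hX0 : 0 ≤ X := by positivity
  set m : ℝ := (f 0 + f 1 + f 2 + f 3 + f 4 + f 5) / 6 with hm
  set V : ℝ := (f 0 - m) ^ 2 + (f 1 - m) ^ 2 + (f 2 - m) ^ 2 + (f 3 - m) ^ 2 + (f 4 - m) ^ 2 +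
    (f 5 - m) ^ 2 with hV
  have hV0 : 0 ≤ V := by positivity
  have hhex := hexagon (f 0) (f 1) (f 2) (f 3) (f 4) (f 5) m hm
  rw [← hV] at hhex
  -- lower bounds with weights
  have wt : ∀ s p, s ≠ p → sm b / 12 * (X * (f p - f s) ^ 2) ≤
      b s * (kl (a1 p) (a1 s + τ * a1 p) + kl (a2 p) (a2 s + τ * a2 p) -
        kl (a1 p + a2 p) (a1 s + a2 s + τ * (a1 p + a2 p))) := by
    intro s p hsp
    exact mul_le_mul (hrb s).1 (ed s p hsp) (by positivity) (hb s)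
  have w1 := wt 0 3 (by decide)
  have w2 := wt 1 3 (by decide)
  have w3 := wt 0 4 (by decide)
  have w4 := wt 2 4 (by decide)
  have w5 := wt 1 5 (by decide)
  have w6 := wt 2 5 (by decide)
  have main1 : sm b / 12 * X * V ≤
      (sm b / 12 * (X * (f 3 - f 0) ^ 2)) + (sm b / 12 * (X * (f 3 - f 1) ^ 2)) +
      (sm b / 12 * (X * (f 4 - f 0) ^ 2)) + (sm b / 12 * (X * (f 4 - f 2) ^ 2)) +
      (sm b / 12 * (X * (f 5 - f 1) ^ 2)) + (sm b / 12 * (X * (f 5 - f 2) ^ 2)) := by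
    have := mul_le_mul_of_nonneg_left hhex (by positivity : 0 ≤ sm b / 12 * X)
    calc sm b / 12 * X * V ≤ _ := this
      _ = _ := by ring
  -- upper bound for the psi part
  have hps := psi_split (b := b) hS1 hS2 hq
  rw [← hS1d, ← hS2d] at hps
  have hdev := dev_bound (a1 := a1) (a2 := a2) hS1 hS2 hpos (fun p => (hra p).2) m
  rw [← hS1d, ← hS2d] at hdev
  have hdev2 : ∑ p, (a1 p + a2 p) * (a1 p / (a1 p + a2 p) - m) ^ 2 ≤ (S1 + S2) / 4 * V := by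
    have : ∑ p, (a1 p + a2 p) * (a1 p / (a1 p + a2 p) - m) ^ 2 ≤
        ∑ p, (S1 + S2) / 4 * (f p - m) ^ 2 :=
      sum_le_sum fun p _ => mul_le_mul_of_nonneg_right (hra p).2 (sq_nonneg _)
    refine this.trans (le_of_eq ?_)
    rw [← mul_sum, Fin.sum_univ_six]
  have hpsi : psi (a1 + a2) b - psi a1 b - psi a2 b ≤
      9 * (sm b * ((S1 + S2) ^ 3 / (S1 * S2)) * V) := by
    refine hps.trans ?_
    have hE : ∑ p, (a1 p * S2 - a2 p * S1) ^ 2 ≤ (S1 + S2) ^ 3 / 4 * ((S1 + S2) / 4 * V) :=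
      hdev.trans (mul_le_mul_of_nonneg_left hdev2 (by positivity))
    calc 144 * sm b * ((∑ p, (a1 p * S2 - a2 p * S1) ^ 2) / (S1 * S2 * (S1 + S2)))
        ≤ 144 * sm b * (((S1 + S2) ^ 3 / 4 * ((S1 + S2) / 4 * V)) / (S1 * S2 * (S1 + S2))) := by
          gcongr
      _ = 9 * (sm b * ((S1 + S2) ^ 3 / (S1 * S2)) * V) := by field_simp; ring
  have main2 : 1 / 10 ^ 6 * (psi (a1 + a2) b - psi a1 b - psi a2 b) ≤ sm b / 12 * X * V := by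
    have e : sm b / 12 * X * V = 1 / 55296 * (sm b * ((S1 + S2) ^ 3 / (S1 * S2)) * V) := by
      rw [hX]; field_simp; ring
    have hY : 0 ≤ sm b * ((S1 + S2) ^ 3 / (S1 * S2)) * V := by positivity
    rw [e]
    exact aux_a hY hpsi
  -- assemble
  unfold G3
  simp only [Pi.add_apply]
  rw [pn_split_a]
  have t1 := TT_split_a τ (a1 0) (a2 0) (a1 1) (a2 1) (a1 3) (a2 3) (b 0) (b 1) (b 3)
  have t2 := TT_split_a τ (a1 0) (a2 0) (a1 2) (a2 2) (a1 4) (a2 4) (b 0) (b 2) (b 4)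
  have t3 := TT_split_a τ (a1 1) (a2 1) (a1 2) (a2 2) (a1 5) (a2 5) (b 1) (b 2) (b 5)
  linarith

theorem G3_superadd_b {τ : ℝ} (hτ : 0 < τ) (hτ6 : τ ≤ 1 / 6) {a b1 b2 : Fin 6 → ℝ}
    (ha : ∀ i, 0 ≤ a i) (h1 : ∀ i, 0 ≤ b1 i) (h2 : ∀ i, 0 ≤ b2 i) :
    G3 τ a (b1 + b2) ≤ G3 τ a b1 + G3 τ a b2 := by
  have hb : ∀ i, 0 ≤ (b1 + b2) i := fun i => add_nonneg (h1 i) (h2 i)
  have tsplit1 := TT_split_b τ (a 0) (a 1) (a 3) (b1 0) (b2 0) (b1 1) (b2 1) (b1 3) (b2 3)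
  have tsplit2 := TT_split_b τ (a 0) (a 2) (a 4) (b1 0) (b2 0) (b1 2) (b2 2) (b1 4) (b2 4)
  have tsplit3 := TT_split_b τ (a 1) (a 2) (a 5) (b1 1) (b2 1) (b1 2) (b2 2) (b1 5) (b2 5)
  have psplit := pn_split_b (a 0) (a 1) (a 2) (b1 3) (b1 4) (b1 5) (b2 3) (b2 4) (b2 5)
  by_cases hq : 0 < qf a (b1 + b2)
  swap
  · have e1 : psi a (b1 + b2) = 0 := max_eq_left (not_lt.1 hq)
    have e2 := psi_nonneg a b1
    have e3 := psi_nonneg a b2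
    unfold G3
    simp only [Pi.add_apply]
    rw [e1]
    have t1 := TT_sb (s := a 0) (u := a 1) hτ (ha 3) (h1 0) (h2 0) (h1 1) (h2 1) (h1 3) (h2 3)
    have t2 := TT_sb (s := a 0) (u := a 2) hτ (ha 4) (h1 0) (h2 0) (h1 2) (h2 2) (h1 4) (h2 4)
    have t3 := TT_sb (s := a 1) (u := a 2) hτ (ha 5) (h1 1) (h2 1) (h1 2) (h2 2) (h1 5) (h2 5)
    have p1 : 0 ≤ a 0 * (hd (b1 3) (b2 3) (b1 4) (b2 4) + hd (b1 4) (b2 4) (b1 3) (b2 3)) :=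
      mul_nonneg (ha 0) (add_nonneg (hd_nonneg (h1 3) (h2 3) (h1 4) (h2 4))
        (hd_nonneg (h1 4) (h2 4) (h1 3) (h2 3)))
    have p2 : 0 ≤ a 1 * (hd (b1 3) (b2 3) (b1 5) (b2 5) + hd (b1 5) (b2 5) (b1 3) (b2 3)) :=
      mul_nonneg (ha 1) (add_nonneg (hd_nonneg (h1 3) (h2 3) (h1 5) (h2 5))
        (hd_nonneg (h1 5) (h2 5) (h1 3) (h2 3)))
    have p3 : 0 ≤ a 2 * (hd (b1 4) (b2 4) (b1 5) (b2 5) + hd (b1 5) (b2 5) (b1 4) (b2 4)) :=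
      mul_nonneg (ha 2) (add_nonneg (hd_nonneg (h1 4) (h2 4) (h1 5) (h2 5))
        (hd_nonneg (h1 5) (h2 5) (h1 4) (h2 4)))
    have : 0 ≤ 1 / 10 ^ 6 * psi a b1 + 1 / 10 ^ 6 * psi a b2 := by positivity
    linarith
  obtain ⟨hSb, hSa, hrb⟩ := range_of_qf_pos hb ha (by rw [qf_comm]; exact hq)
  have hra := (range_of_qf_pos ha hb hq).2.2
  rcases (sm_nonneg h1).eq_or_lt with hz | hS1
  · have : b1 = 0 := eq_zero_of_sm h1 hz.symm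
    subst this
    rw [zero_add]
    linarith [G3_zero_right τ a]
  rcases (sm_nonneg h2).eq_or_lt with hz | hS2
  · have : b2 = 0 := eq_zero_of_sm h2 hz.symm
    subst this
    rw [add_zero]
    linarith [G3_zero_right τ a]
  rw [sm_add] at hSb hrb
  simp only [Pi.add_apply] at hrb
  set S1 := sm b1 with hS1d
  set S2 := sm b2 with hS2d
  have hpos : ∀ p, 0 < b1 p + b2 p := fun p => by linarith [(hrb p).1]
  have le2 : ∀ (c : Fin 6 → ℝ), (∀ i, 0 ≤ c i) → ∀ i j, i ≠ j → c i + c j ≤ sm c := by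
    intro c hc i j hij
    have : ∑ k ∈ {i, j}, c k ≤ ∑ k, c k :=
      sum_le_sum_of_subset_of_nonneg (subset_univ _) fun k _ _ => hc k
    rwa [sum_pair hij] at this
  have le3 : ∀ (c : Fin 6 → ℝ), (∀ i, 0 ≤ c i) → ∀ i j k, i ≠ j → i ≠ k → j ≠ k →
      c i + c j + c k ≤ sm c := by
    intro c hc i j k hij hik hjk
    have : ∑ l ∈ {i, j, k}, c l ≤ ∑ l, c l :=
      sum_le_sum_of_subset_of_nonneg (subset_univ _) fun l _ _ => hc l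
    rw [sum_insert (by simp [hij, hik]), sum_pair hjk] at this
    rw [add_assoc]; exact this
  set f : Fin 6 → ℝ := fun p => b1 p / (b1 p + b2 p) with hf
  have hfp : ∀ p, b1 p = (b1 p + b2 p) * f p := by
    intro p; rw [hf]; have := (hpos p).ne'; field_simp
  -- pair deficits
  have pd : ∀ i j r, i ≠ j → i ≠ r → j ≠ r →
      (S1 + S2) / (56 * (S1 * S2)) *
        ((b1 i + b1 j) - (b1 i + b1 j + (b2 i + b2 j)) * (b1 r / (b1 r + b2 r))) ^ 2 ≤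
      kl (b1 i + b1 j) (b1 r + τ * (b1 i + b1 j)) + kl (b2 i + b2 j) (b2 r + τ * (b2 i + b2 j)) -
        kl (b1 i + b1 j + (b2 i + b2 j)) (b1 r + b2 r + τ * (b1 i + b1 j + (b2 i + b2 j))) := by
    intro i j r hij hir hjr
    refine pair_def (add_nonneg (h1 i) (h1 j)) (add_nonneg (h2 i) (h2 j)) (h1 r) (h2 r)
      (le3 b1 h1 i j r hij hir hjr) (le3 b2 h2 i j r hij hir hjr) hS1 hS2 ?_ (hrb r).1 hτ hτ6
    linarith [(hrb i).2, (hrb j).2]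
  have hdd : ∀ x y, x ≠ y → (S1 + S2) ^ 3 / (20736 * (S1 * S2)) * (f x - f y) ^ 2 ≤
      hd (b1 x) (b2 x) (b1 y) (b2 y) := by
    intro x y hxy
    exact pen_def (h1 x) (h2 x) (h1 y) (h2 y) (le2 b1 h1 x y hxy) (le2 b2 h2 x y hxy) hS1 hS2
      (hrb x).1 (hrb x).2 (hrb y).1 (hrb y).2
  set X := (S1 + S2) / (56 * (S1 * S2)) with hX
  set Y := (S1 + S2) ^ 3 / (20736 * (S1 * S2)) with hY
  have hX0 : 0 ≤ X := by positivity
  have hY0 : 0 ≤ Y := by positivity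
  set g : ℝ := (f 3 + f 4 + f 5) / 3 with hg
  set x0 : ℝ := (b1 0 + b2 0) * (f 0 - g) with hx0
  set x1 : ℝ := (b1 1 + b2 1) * (f 1 - g) with hx1
  set x2 : ℝ := (b1 2 + b2 2) * (f 2 - g) with hx2
  set W : ℝ := x0 ^ 2 + x1 ^ 2 + x2 ^ 2 with hW
  set V : ℝ := (f 3 - g) ^ 2 + (f 4 - g) ^ 2 + (f 5 - g) ^ 2 with hV
  have hW0 : 0 ≤ W := by positivity
  have hV0 : 0 ≤ V := by positivity
  -- rewriting of the pair terms
  have pe : ∀ i j r, (b1 i + b1 j) - (b1 i + b1 j + (b2 i + b2 j)) * (b1 r / (b1 r + b2 r)) =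
      ((b1 i + b2 i) * (f i - g) + (b1 j + b2 j) * (f j - g)) -
        (b1 i + b2 i + (b1 j + b2 j)) * (f r - g) := by
    intro i j r
    have e1 := hfp i
    have e2 := hfp j
    have e3 : b1 r / (b1 r + b2 r) = f r := rfl
    rw [e3]
    linear_combination e1 + e2
  have sqb : ∀ x y z : ℝ, 0 ≤ z → z ≤ (S1 + S2) / 2 → ∀ δ : ℝ,
      (x + y) ^ 2 / 2 - (S1 + S2) ^ 2 / 4 * δ ^ 2 ≤ ((x + y) - z * δ) ^ 2 := by
    intro x y z hz hz2 δ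
    have h3 : (z * δ) ^ 2 ≤ (S1 + S2) ^ 2 / 4 * δ ^ 2 := by
      rw [mul_pow]
      have : z ^ 2 ≤ (S1 + S2) ^ 2 / 4 := by nlinarith
      exact mul_le_mul_of_nonneg_right this (sq_nonneg _)
    nlinarith [sq_nonneg ((x + y) - 2 * (z * δ))]
  have q1 : X * ((x0 + x1) ^ 2 / 2 - (S1 + S2) ^ 2 / 4 * (f 3 - g) ^ 2) ≤ _ :=
    (mul_le_mul_of_nonneg_left ((sqb x0 x1 (b1 0 + b2 0 + (b1 1 + b2 1))
      (by linarith [hpos 0, hpos 1]) (by linarith [(hrb 0).2, (hrb 1).2]) (f 3 - g)).trans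
        (le_of_eq (by rw [pe 0 1 3]))) hX0).trans (pd 0 1 3 (by decide) (by decide) (by decide))
  have q2 : X * ((x0 + x2) ^ 2 / 2 - (S1 + S2) ^ 2 / 4 * (f 4 - g) ^ 2) ≤ _ :=
    (mul_le_mul_of_nonneg_left ((sqb x0 x2 (b1 0 + b2 0 + (b1 2 + b2 2))
      (by linarith [hpos 0, hpos 2]) (by linarith [(hrb 0).2, (hrb 2).2]) (f 4 - g)).trans
        (le_of_eq (by rw [pe 0 2 4]))) hX0).trans (pd 0 2 4 (by decide) (by decide) (by decide))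
  have q3 : X * ((x1 + x2) ^ 2 / 2 - (S1 + S2) ^ 2 / 4 * (f 5 - g) ^ 2) ≤ _ :=
    (mul_le_mul_of_nonneg_left ((sqb x1 x2 (b1 1 + b2 1 + (b1 2 + b2 2))
      (by linarith [hpos 1, hpos 2]) (by linarith [(hrb 1).2, (hrb 2).2]) (f 5 - g)).trans
        (le_of_eq (by rw [pe 1 2 5]))) hX0).trans (pd 1 2 5 (by decide) (by decide) (by decide))
  -- nonnegativity of the pair deficits and weights
  have e1nn := edge_nonneg hτ (h1 3) (h2 3) (add_nonneg (h1 0) (h1 1)) (add_nonneg (h2 0) (h2 1))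
  have e2nn := edge_nonneg hτ (h1 4) (h2 4) (add_nonneg (h1 0) (h1 2)) (add_nonneg (h2 0) (h2 2))
  have e3nn := edge_nonneg hτ (h1 5) (h2 5) (add_nonneg (h1 1) (h1 2)) (add_nonneg (h2 1) (h2 2))
  have r1 := mul_le_mul_of_nonneg_right (hra 3).1 e1nn
  have r2 := mul_le_mul_of_nonneg_right (hra 4).1 e2nn
  have r3 := mul_le_mul_of_nonneg_right (hra 5).1 e3nn
  have r1' := mul_le_mul_of_nonneg_left q1 (by positivity : 0 ≤ sm a / 12)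
  have r2' := mul_le_mul_of_nonneg_left q2 (by positivity : 0 ≤ sm a / 12)
  have r3' := mul_le_mul_of_nonneg_left q3 (by positivity : 0 ≤ sm a / 12)
  have pairs : sm a / 12 * X * (W / 2 - (S1 + S2) ^ 2 / 4 * V) ≤
      sm a / 12 * (X * ((x0 + x1) ^ 2 / 2 - (S1 + S2) ^ 2 / 4 * (f 3 - g) ^ 2)) +
      sm a / 12 * (X * ((x0 + x2) ^ 2 / 2 - (S1 + S2) ^ 2 / 4 * (f 4 - g) ^ 2)) +
      sm a / 12 * (X * ((x1 + x2) ^ 2 / 2 - (S1 + S2) ^ 2 / 4 * (f 5 - g) ^ 2)) := by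
    have hin : W / 2 - (S1 + S2) ^ 2 / 4 * V ≤
        ((x0 + x1) ^ 2 / 2 - (S1 + S2) ^ 2 / 4 * (f 3 - g) ^ 2) +
        ((x0 + x2) ^ 2 / 2 - (S1 + S2) ^ 2 / 4 * (f 4 - g) ^ 2) +
        ((x1 + x2) ^ 2 / 2 - (S1 + S2) ^ 2 / 4 * (f 5 - g) ^ 2) := by
      rw [hW, hV]
      nlinarith [sq_nonneg (x0 + x1 + x2)]
    have := mul_le_mul_of_nonneg_left hin (by positivity : 0 ≤ sm a / 12 * X)
    calc _ ≤ _ := this
      _ = _ := by ring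
  -- penalty terms
  have pw : ∀ s x y, x ≠ y → sm a / 12 * (2 * (Y * (f x - f y) ^ 2)) ≤
      a s * (hd (b1 x) (b2 x) (b1 y) (b2 y) + hd (b1 y) (b2 y) (b1 x) (b2 x)) := by
    intro s x y hxy
    refine mul_le_mul (hra s).1 ?_ (by positivity) (ha s)
    have k1 := hdd x y hxy
    have k2 := hdd y x hxy.symm
    have k3 : (f y - f x) ^ 2 = (f x - f y) ^ 2 := by ring
    rw [k3] at k2
    linarith
  have w1 := pw 0 3 4 (by decide)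
  have w2 := pw 1 3 5 (by decide)
  have w3 := pw 2 4 5 (by decide)
  have pens : sm a / 12 * (6 * (Y * V)) ≤ sm a / 12 * (2 * (Y * (f 3 - f 4) ^ 2)) +
      sm a / 12 * (2 * (Y * (f 3 - f 5) ^ 2)) + sm a / 12 * (2 * (Y * (f 4 - f 5) ^ 2)) := by
    have e : 3 * V = (f 3 - f 4) ^ 2 + (f 3 - f 5) ^ 2 + (f 4 - f 5) ^ 2 := by
      rw [hV, hg]; ring
    have e' : 6 * (Y * V) = 2 * Y * (3 * V) := by ring
    rw [e', e]
    exact le_of_eq (by ring)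
  -- upper bound for the psi part
  have hps := psi_split (a1 := b1) (a2 := b2) (b := a) hS1 hS2 (by rw [qf_comm]; exact hq)
  rw [psi_comm (b1 + b2) a, psi_comm b1 a, psi_comm b2 a, ← hS1d, ← hS2d] at hps
  have hdev := dev_bound (a1 := b1) (a2 := b2) hS1 hS2 hpos (fun p => (hrb p).2) g
  rw [← hS1d, ← hS2d] at hdev
  have hsing : ∀ p, (b1 p + b2 p) * (f p - g) ^ 2 ≤
      12 / (S1 + S2) * ((b1 p + b2 p) * (f p - g)) ^ 2 := by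
    intro p
    have k1 : 1 ≤ 12 / (S1 + S2) * (b1 p + b2 p) := by
      rw [div_mul_eq_mul_div, le_div_iff₀ hSb]
      linarith [(hrb p).1]
    calc (b1 p + b2 p) * (f p - g) ^ 2 = 1 * ((b1 p + b2 p) * (f p - g) ^ 2) := by ring
      _ ≤ (12 / (S1 + S2) * (b1 p + b2 p)) * ((b1 p + b2 p) * (f p - g) ^ 2) :=
          mul_le_mul_of_nonneg_right k1 (mul_nonneg (hpos p).le (sq_nonneg _))
      _ = _ := by ring
  have hdev2 : ∑ p, (b1 p + b2 p) * (b1 p / (b1 p + b2 p) - g) ^ 2 ≤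
      12 / (S1 + S2) * W + (S1 + S2) / 4 * V := by
    have e : ∑ p, (b1 p + b2 p) * (b1 p / (b1 p + b2 p) - g) ^ 2 =
        ∑ p, (b1 p + b2 p) * (f p - g) ^ 2 := rfl
    rw [e, Fin.sum_univ_six]
    have k0 := hsing 0
    have k1 := hsing 1
    have k2 := hsing 2
    have k3 := mul_le_mul_of_nonneg_right (hrb 3).2 (sq_nonneg (f 3 - g))
    have k4 := mul_le_mul_of_nonneg_right (hrb 4).2 (sq_nonneg (f 4 - g))
    have k5 := mul_le_mul_of_nonneg_right (hrb 5).2 (sq_nonneg (f 5 - g))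
    rw [hW, hV, hx0, hx1, hx2]
    linarith
  have hpsi : psi a (b1 + b2) - psi a b1 - psi a b2 ≤
      432 * (sm a * ((S1 + S2) / (S1 * S2)) * W) +
        9 * (sm a * ((S1 + S2) ^ 3 / (S1 * S2)) * V) := by
    refine hps.trans ?_
    have hE : ∑ p, (b1 p * S2 - b2 p * S1) ^ 2 ≤
        (S1 + S2) ^ 3 / 4 * (12 / (S1 + S2) * W + (S1 + S2) / 4 * V) :=
      hdev.trans (mul_le_mul_of_nonneg_left hdev2 (by positivity))
    calc 144 * sm a * ((∑ p, (b1 p * S2 - b2 p * S1) ^ 2) / (S1 * S2 * (S1 + S2)))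
        ≤ 144 * sm a * (((S1 + S2) ^ 3 / 4 * (12 / (S1 + S2) * W + (S1 + S2) / 4 * V)) /
            (S1 * S2 * (S1 + S2))) := by
          gcongr
      _ = 432 * (sm a * ((S1 + S2) / (S1 * S2)) * W) +
            9 * (sm a * ((S1 + S2) ^ 3 / (S1 * S2)) * V) := by field_simp; ring
  have main2 : 1 / 10 ^ 6 * (psi a (b1 + b2) - psi a b1 - psi a b2) ≤
      sm a / 12 * X * (W / 2 - (S1 + S2) ^ 2 / 4 * V) + 20 * (sm a / 12 * (6 * (Y * V))) := by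
    have e : sm a / 12 * X * (W / 2 - (S1 + S2) ^ 2 / 4 * V) + 20 * (sm a / 12 * (6 * (Y * V))) =
        1 / 1344 * (sm a * ((S1 + S2) / (S1 * S2)) * W) +
          (10 / 20736 - 1 / 2688) * (sm a * ((S1 + S2) ^ 3 / (S1 * S2)) * V) := by
      rw [hX, hY]; field_simp; ring
    have hA : 0 ≤ sm a * ((S1 + S2) / (S1 * S2)) * W := by positivity
    have hB : 0 ≤ sm a * ((S1 + S2) ^ 3 / (S1 * S2)) * V := by positivity
    rw [e]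
    exact aux_b hA hB hpsi
  have fin1 := add_le_add (add_le_add (r1'.trans r1) (r2'.trans r2)) (r3'.trans r3)
  have fin2 := add_le_add (add_le_add w1 w2) w3
  clear hpsi hdev2 hdev hps hsing pw hdd pe sqb pd le3 le2 r1 r2 r3 r1' r2' r3' q1 q2 q3 w1 w2 w3
    e1nn e2nn e3nn hfp hpos
  have fin3 := main2.trans (add_le_add (pairs.trans fin1)
    (mul_le_mul_of_nonneg_left (pens.trans fin2) (by norm_num : (0 : ℝ) ≤ 20)))
  clear main2 pairs pens fin1 fin2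
  unfold G3
  simp only [Pi.add_apply]
  linarith [fin3, tsplit1, tsplit2, tsplit3, psplit]

end Pool.Agent.K9h88.IC
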