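import Pool.Agent.K9h88.IC.Defs
import Pool.Agent.K9h88.IC.Triple
import Pool.Agent.K9h88.IC.LeafIneq

/-! Summing a functional over the transcripts of a protocol. -/

namespace Pool.Agent.K9h88.IC

open Finset

variable {X Y Z : Type}

/-- Sum of `Φ output a' b'` over the transcripts, where the likelihood of the transcript
multiplied by `a x * b y` is `a' x * b' y`. -/
noncomputable def Protocol.acc (Φ : Z → (X → ℝ) → (Y → ℝ) → ℝ) :
    Protocol X Y Z → (X → ℝ) → (Y → ℝ) → ℝ
  | .out z, a, b => Φ z a b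
  | .coin c l r, a, b =>
      l.acc Φ (fun x => (c : ℝ) * a x) b + r.acc Φ (fun x => (1 - (c : ℝ)) * a x) b
  | .alice p l r, a, b =>
      l.acc Φ (fun x => (p x : ℝ) * a x) b + r.acc Φ (fun x => (1 - (p x : ℝ)) * a x) b
  | .bob p l r, a, b =>
      l.acc Φ a (fun y => (p y : ℝ) * b y) + r.acc Φ a (fun y => (1 - (p y : ℝ)) * b y)

lemma acc_eq (Ψ : Z → (X → Y → ℝ) → ℝ) (π : Protocol X Y Z) (a : X → ℝ) (b : Y → ℝ) :
    (π.leaves.map fun L => Ψ L.output (fun x y => a x * b y * L.lik x y)).sum =
      π.acc (fun z a b => Ψ z (fun x y => a x * b y)) a b := by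
  induction π generalizing a b with
  | out z => simp [Protocol.leaves, Protocol.acc]
  | coin c l r ihl ihr =>
    rw [Protocol.leaves, Protocol.acc, List.map_append, List.sum_append, List.map_map,
      List.map_map, ← ihl, ← ihr]
    congr 3 <;>
    · funext L
      simp only [Function.comp, Leaf.step]
      congr 1
      funext x y
      ring
  | alice p l r ihl ihr =>
    rw [Protocol.leaves, Protocol.acc, List.map_append, List.sum_append, List.map_map,
      List.map_map, ← ihl, ← ihr]
    congr 3 <;>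
    · funext L
      simp only [Function.comp, Leaf.step]
      congr 1
      funext x y
      ring
  | bob p l r ihl ihr =>
    rw [Protocol.leaves, Protocol.acc, List.map_append, List.sum_append, List.map_map,
      List.map_map, ← ihl, ← ihr]
    congr 3 <;>
    · funext L
      simp only [Function.comp, Leaf.step]
      congr 1
      funext x y
      ring

/-- all likelihoods are nonnegative and sum to one -/
lemma leaves_mass (π : Protocol X Y Z) (x : X) (y : Y) :
    (π.leaves.map fun L => L.lik x y).sum = 1 := by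
  induction π with
  | out z => simp [Protocol.leaves]
  | coin c l r ihl ihr =>
    rw [Protocol.leaves, List.map_append, List.sum_append, List.map_map, List.map_map]
    simp only [Function.comp_def, Leaf.step, List.sum_map_mul_left, ihl, ihr]
    ring
  | alice p l r ihl ihr =>
    rw [Protocol.leaves, List.map_append, List.sum_append, List.map_map, List.map_map]
    simp only [Function.comp_def, Leaf.step, List.sum_map_mul_left, ihl, ihr]
    ring
  | bob p l r ihl ihr =>
    rw [Protocol.leaves, List.map_append, List.sum_append, List.map_map, List.map_map]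
    simp only [Function.comp_def, Leaf.step, List.sum_map_mul_left, ihl, ihr]
    ring

lemma leaves_nonneg (π : Protocol X Y Z) : ∀ L ∈ π.leaves, ∀ x y, 0 ≤ L.lik x y := by
  induction π with
  | out z => simp [Protocol.leaves]
  | coin c l r ihl ihr =>
    intro L hL x y
    rw [Protocol.leaves, List.mem_append, List.mem_map, List.mem_map] at hL
    rcases hL with ⟨M, hM, rfl⟩ | ⟨M, hM, rfl⟩
    · exact mul_nonneg c.2.1 (ihl M hM x y)
    · exact mul_nonneg (by linarith [c.2.2]) (ihr M hM x y)
  | alice p l r ihl ihr =>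
    intro L hL x y
    rw [Protocol.leaves, List.mem_append, List.mem_map, List.mem_map] at hL
    rcases hL with ⟨M, hM, rfl⟩ | ⟨M, hM, rfl⟩
    · exact mul_nonneg (p x).2.1 (ihl M hM x y)
    · exact mul_nonneg (by linarith [(p x).2.2]) (ihr M hM x y)
  | bob p l r ihl ihr =>
    intro L hL x y
    rw [Protocol.leaves, List.mem_append, List.mem_map, List.mem_map] at hL
    rcases hL with ⟨M, hM, rfl⟩ | ⟨M, hM, rfl⟩
    · exact mul_nonneg (p y).2.1 (ihl M hM x y)
    · exact mul_nonneg (by linarith [(p y).2.2]) (ihr M hM x y)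

/-- The output is right on all pairs that are still possible. -/
def Mono (F : X → Y → Z) (z : Z) (a : X → ℝ) (b : Y → ℝ) : Prop :=
  ∀ x y, a x ≠ 0 → b y ≠ 0 → z = F x y

lemma acc_ge {F : X → Y → Z} (G : (X → ℝ) → (Y → ℝ) → ℝ) (Φ : Z → (X → ℝ) → (Y → ℝ) → ℝ)
    (hGa : ∀ a1 a2 : X → ℝ, ∀ b : Y → ℝ, (∀ x, 0 ≤ a1 x) → (∀ x, 0 ≤ a2 x) → (∀ y, 0 ≤ b y) →
      G (a1 + a2) b ≤ G a1 b + G a2 b)
    (hGb : ∀ a : X → ℝ, ∀ b1 b2 : Y → ℝ, (∀ x, 0 ≤ a x) → (∀ y, 0 ≤ b1 y) → (∀ y, 0 ≤ b2 y) →
      G a (b1 + b2) ≤ G a b1 + G a b2)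
    (hΦ : ∀ z a b, (∀ x, 0 ≤ a x) → (∀ y, 0 ≤ b y) → Mono F z a b → G a b ≤ Φ z a b)
    (π : Protocol X Y Z) (a : X → ℝ) (b : Y → ℝ) (ha : ∀ x, 0 ≤ a x) (hb : ∀ y, 0 ≤ b y)
    (hπ : ∀ L ∈ π.leaves, ∀ x y, a x * b y * L.lik x y ≠ 0 → L.output = F x y) :
    G a b ≤ π.acc Φ a b := by
  induction π generalizing a b with
  | out z =>
    refine hΦ z a b ha hb fun x y hx hy => ?_
    have := hπ ⟨0, z, fun _ _ => 1⟩ (by simp [Protocol.leaves]) x y
    simp only [mul_one] at this
    exact this (mul_ne_zero hx hy)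
  | coin c l r ihl ihr =>
    have h1 : ∀ x, 0 ≤ (c : ℝ) * a x := fun x => mul_nonneg c.2.1 (ha x)
    have h2 : ∀ x, 0 ≤ (1 - (c : ℝ)) * a x := fun x =>
      mul_nonneg (by linarith [c.2.2]) (ha x)
    have e : a = (fun x => (c : ℝ) * a x) + fun x => (1 - (c : ℝ)) * a x := by
      funext x; simp only [Pi.add_apply]; ring
    rw [Protocol.acc]
    calc G a b = G ((fun x => (c : ℝ) * a x) + fun x => (1 - (c : ℝ)) * a x) b := by rw [← e]
      _ ≤ G (fun x => (c : ℝ) * a x) b + G (fun x => (1 - (c : ℝ)) * a x) b :=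
          hGa _ _ _ h1 h2 hb
      _ ≤ _ := by
        refine add_le_add (ihl _ _ h1 hb fun L hL x y hne => ?_)
          (ihr _ _ h2 hb fun L hL x y hne => ?_)
        · refine hπ (Leaf.step 0 (fun _ _ => (c : ℝ)) L) ?_ x y ?_
          · rw [Protocol.leaves, List.mem_append]
            exact Or.inl (List.mem_map.2 ⟨L, hL, rfl⟩)
          · simp only [Leaf.step]
            intro h0; apply hne; rw [← h0]; ring
        · refine hπ (Leaf.step 0 (fun _ _ => 1 - (c : ℝ)) L) ?_ x y ?_
          · rw [Protocol.leaves, List.mem_append]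
            exact Or.inr (List.mem_map.2 ⟨L, hL, rfl⟩)
          · simp only [Leaf.step]
            intro h0; apply hne; rw [← h0]; ring
  | alice p l r ihl ihr =>
    have h1 : ∀ x, 0 ≤ (p x : ℝ) * a x := fun x => mul_nonneg (p x).2.1 (ha x)
    have h2 : ∀ x, 0 ≤ (1 - (p x : ℝ)) * a x := fun x =>
      mul_nonneg (by linarith [(p x).2.2]) (ha x)
    have e : a = (fun x => (p x : ℝ) * a x) + fun x => (1 - (p x : ℝ)) * a x := by
      funext x; simp only [Pi.add_apply]; ring
    rw [Protocol.acc]
    calc G a b = G ((fun x => (p x : ℝ) * a x) + fun x => (1 - (p x : ℝ)) * a x) b := by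
          rw [← e]
      _ ≤ G (fun x => (p x : ℝ) * a x) b + G (fun x => (1 - (p x : ℝ)) * a x) b :=
          hGa _ _ _ h1 h2 hb
      _ ≤ _ := by
        refine add_le_add (ihl _ _ h1 hb fun L hL x y hne => ?_)
          (ihr _ _ h2 hb fun L hL x y hne => ?_)
        · refine hπ (Leaf.step 1 (fun x _ => (p x : ℝ)) L) ?_ x y ?_
          · rw [Protocol.leaves, List.mem_append]
            exact Or.inl (List.mem_map.2 ⟨L, hL, rfl⟩)
          · simp only [Leaf.step]
            intro h0; apply hne; rw [← h0]; ring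
        · refine hπ (Leaf.step 1 (fun x _ => 1 - (p x : ℝ)) L) ?_ x y ?_
          · rw [Protocol.leaves, List.mem_append]
            exact Or.inr (List.mem_map.2 ⟨L, hL, rfl⟩)
          · simp only [Leaf.step]
            intro h0; apply hne; rw [← h0]; ring
  | bob p l r ihl ihr =>
    have h1 : ∀ y, 0 ≤ (p y : ℝ) * b y := fun y => mul_nonneg (p y).2.1 (hb y)
    have h2 : ∀ y, 0 ≤ (1 - (p y : ℝ)) * b y := fun y =>
      mul_nonneg (by linarith [(p y).2.2]) (hb y)
    have e : b = (fun y => (p y : ℝ) * b y) + fun y => (1 - (p y : ℝ)) * b y := by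
      funext y; simp only [Pi.add_apply]; ring
    rw [Protocol.acc]
    calc G a b = G a ((fun y => (p y : ℝ) * b y) + fun y => (1 - (p y : ℝ)) * b y) := by
          rw [← e]
      _ ≤ G a (fun y => (p y : ℝ) * b y) + G a (fun y => (1 - (p y : ℝ)) * b y) :=
          hGb _ _ _ ha h1 h2
      _ ≤ _ := by
        refine add_le_add (ihl _ _ ha h1 fun L hL x y hne => ?_)
          (ihr _ _ ha h2 fun L hL x y hne => ?_)
        · refine hπ (Leaf.step 1 (fun _ y => (p y : ℝ)) L) ?_ x y ?_
          · rw [Protocol.leaves, List.mem_append]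
            exact Or.inl (List.mem_map.2 ⟨L, hL, rfl⟩)
          · simp only [Leaf.step]
            intro h0; apply hne; rw [← h0]; ring
        · refine hπ (Leaf.step 1 (fun _ y => 1 - (p y : ℝ)) L) ?_ x y ?_
          · rw [Protocol.leaves, List.mem_append]
            exact Or.inr (List.mem_map.2 ⟨L, hL, rfl⟩)
          · simp only [Leaf.step]
            intro h0; apply hne; rw [← h0]; ring

end Pool.Agent.K9h88.IC
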