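import Pool.Agent.K9h88.IC.Hash

/-! Choice of the parameters of the hashing protocol, and the full-support version. -/

namespace Pool.Agent.K9h88.IC

open Finset Filter Topology

open Classical in
lemma expectedBits_proto {l : ℝ} (n k : ℕ) (H : (Fin n → Option (Fin 4)) → (Fin k → Bool)) :
    (proto H).expectedBits (npow n (mu0 l)) =
      k + 2 * n + 2 + 5 * n * ∑ x : Fin n → In, ∑ y : Fin n → In,
        npow n (mu0 l) x y * (if Fail H x y then 1 else 0) := by
  rw [expectedBits_eq]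
  have h1 : ∑ x : Fin n → In, ∑ y : Fin n → In, npow n (mu0 l) x y = 1 := by
    unfold npow
    rw [sum_npow n (mu0 l), mu0_total, one_pow]
  have e : ∀ x y : Fin n → In, npow n (mu0 l) x y * (proto H).cost x y =
      (k + 2 * n + 2) * npow n (mu0 l) x y +
        5 * n * (npow n (mu0 l) x y * (if Fail H x y then 1 else 0)) := by
    intro x y
    rw [cost_proto]; ring
  simp_rw [e, sum_add_distrib, ← mul_sum]
  rw [h1]; ring

/-- the exponent -/
noncomputable def th : ℝ := 1 / 10 ^ 6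

/-- the ratio is less than one -/
lemma ratio_lt : (1 - lam + lam * 2 ^ th) * 2 ^ (-((1 + 2 / 10 ^ 6) * lam * th)) < 1 := by
  have hl := lam_pos
  have l2 : 0 < Real.log 2 := Real.log_pos (by norm_num)
  have l2' : Real.log 2 < 0.6931471808 := Real.log_two_lt_d9
  have hth : 0 < th := by unfold th; norm_num
  set u : ℝ := Real.log 2 * th with hu
  have hu0 : 0 < u := mul_pos l2 hth
  have hu1 : u < 1 / 10 ^ 6 := by
    rw [hu]; unfold th; nlinarith
  have e1 : (2 : ℝ) ^ th = Real.exp u := by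
    rw [Real.rpow_def_of_pos (by norm_num)]
  have e2 : (2 : ℝ) ^ (-((1 + 2 / 10 ^ 6) * lam * th)) = Real.exp (-((1 + 2 / 10 ^ 6) * lam * u)) := by
    rw [Real.rpow_def_of_pos (by norm_num), hu]
    congr 1; ring
  have h3 : Real.exp u ≤ 1 + u + u ^ 2 := by
    have := Real.abs_exp_sub_one_sub_id_le (x := u) (by rw [abs_of_pos hu0]; linarith)
    have := (abs_le.1 this).2
    linarith
  have h4 : 1 - lam + lam * 2 ^ th ≤ Real.exp (lam * (u + u ^ 2)) := by
    rw [e1]
    have := Real.add_one_le_exp (lam * (u + u ^ 2))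
    nlinarith
  calc (1 - lam + lam * 2 ^ th) * 2 ^ (-((1 + 2 / 10 ^ 6) * lam * th))
      ≤ Real.exp (lam * (u + u ^ 2)) * Real.exp (-((1 + 2 / 10 ^ 6) * lam * u)) := by
        rw [e2]
        exact mul_le_mul_of_nonneg_right h4 (Real.exp_pos _).le
    _ = Real.exp (lam * u * (u - 2 / 10 ^ 6)) := by
        rw [← Real.exp_add]; congr 1; ring
    _ < 1 := by
        rw [Real.exp_lt_one_iff]
        have : 0 < lam * u := mul_pos hl hu0
        nlinarith

/-- the target value -/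
noncomputable def target : ℝ := 2 + lam * (1 + 3 / 10 ^ 6)

theorem exists_cheap : ∃ n : ℕ, n ≠ 0 ∧
    ∃ π : Protocol (Fin n → In) (Fin n → In) (Fin n → Bool), π.ZeroError (nfold n inter) ∧
      π.expectedBits (npow n (mu0 lam)) < n * target := by
  have hl := lam_pos
  have hl1 := lam_lt
  set r : ℝ := (1 - lam + lam * 2 ^ th) * 2 ^ (-((1 + 2 / 10 ^ 6) * lam * th)) with hr
  have hr1 : r < 1 := ratio_lt
  have h2th : (0 : ℝ) < 2 ^ th := by positivity
  have hr0 : 0 ≤ r := by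
    rw [hr]
    refine mul_nonneg ?_ (by positivity)
    have := mul_pos hl h2th
    linarith
  have hlim : Tendsto (fun n : ℕ => (3 : ℝ) / n + 5 * r ^ n) atTop (𝓝 (0 + 5 * 0)) :=
    (tendsto_const_div_atTop_nhds_zero_nat 3).add
      ((tendsto_pow_atTop_nhds_zero_of_lt_one hr0 hr1).const_mul 5)
  rw [mul_zero, add_zero] at hlim
  have hev := hlim.eventually_lt_const (show (0 : ℝ) < lam * (1 / 10 ^ 6) by positivity)
  obtain ⟨n, hn, hn0⟩ := (hev.and (eventually_ne_atTop 0)).exists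
  have hnpos : (0 : ℝ) < n := by exact_mod_cast Nat.pos_of_ne_zero hn0
  set k : ℕ := ⌈(1 + 2 / 10 ^ 6) * lam * n⌉₊ with hk
  have hk1 : (1 + 2 / 10 ^ 6) * lam * n ≤ k := Nat.le_ceil _
  have hk2 : (k : ℝ) < (1 + 2 / 10 ^ 6) * lam * n + 1 := Nat.ceil_lt_add_one (by positivity)
  obtain ⟨H, hH⟩ := exists_hash (l := lam) (θ := th) hl.le hl1.le
    (by unfold th; norm_num) (by unfold th; norm_num) n k
  refine ⟨n, hn0, proto H, zeroError_proto H, ?_⟩
  rw [expectedBits_proto]
  have h5 : (1 - lam + lam * 2 ^ th) ^ n * 2 ^ (-(k * th)) ≤ r ^ n := by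
    rw [hr, mul_pow]
    refine mul_le_mul_of_nonneg_left ?_ (pow_nonneg (by
      have := mul_pos hl h2th
      linarith) _)
    rw [← Real.rpow_natCast, ← Real.rpow_mul (by norm_num)]
    refine Real.rpow_le_rpow_of_exponent_le (by norm_num) ?_
    have hth : 0 < th := by unfold th; norm_num
    nlinarith
  have h6 := mul_le_mul_of_nonneg_left (hH.trans h5) (show (0 : ℝ) ≤ 5 * n by positivity)
  have h7 : (3 : ℝ) + 5 * n * r ^ n < n * (lam * (1 / 10 ^ 6)) := by
    have := mul_lt_mul_of_pos_left hn hnpos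
    have e : (n : ℝ) * (3 / n + 5 * r ^ n) = 3 + 5 * n * r ^ n := by
      field_simp
    rw [e] at this
    exact this
  unfold target
  calc _ ≤ (k : ℝ) + 2 * n + 2 + 5 * n * r ^ n := by linarith
    _ < n * (2 + lam * (1 + 3 / 10 ^ 6)) := by linarith

lemma mix_zero : mix lam 0 = mu0 lam := by
  funext x y; unfold mix; ring

theorem exists_mix : ∃ κ : ℝ, 0 < κ ∧ κ < 1 ∧ ∃ n : ℕ, n ≠ 0 ∧
    ∃ π : Protocol (Fin n → In) (Fin n → In) (Fin n → Bool), π.ZeroError (nfold n inter) ∧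
      π.expectedBits (npow n (mix lam κ)) < n * ((1 - κ) * target) := by
  obtain ⟨n, hn, π, hπ, hcost⟩ := exists_cheap
  have hcont : Continuous fun κ : ℝ => π.expectedBits (npow n (mix lam κ)) -
      n * ((1 - κ) * target) := by
    simp_rw [expectedBits_eq]
    unfold npow mix
    fun_prop
  have h0 : π.expectedBits (npow n (mix lam 0)) - n * ((1 - 0) * target) < 0 := by
    rw [mix_zero, sub_zero, one_mul]; linarith
  have hev : ∀ᶠ κ in 𝓝 (0 : ℝ), π.expectedBits (npow n (mix lam κ)) -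
      n * ((1 - κ) * target) < 0 := hcont.continuousAt.eventually_lt continuousAt_const h0
  have hev2 : ∀ᶠ κ in 𝓝[>] (0 : ℝ), (π.expectedBits (npow n (mix lam κ)) -
      n * ((1 - κ) * target) < 0) ∧ κ ∈ Set.Ioo (0 : ℝ) 1 :=
    (hev.filter_mono nhdsWithin_le_nhds).and (Ioo_mem_nhdsGT one_pos)
  obtain ⟨κ, h1, h2⟩ := hev2.exists
  exact ⟨κ, h2.1, h2.2, n, hn, π, hπ, by linarith⟩

lemma mix_pos {κ : ℝ} (h0 : 0 < κ) (h1 : κ < 1) (x y : In) : 0 < mix lam κ x y := by
  unfold mix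
  have := mul_nonneg (by linarith : 0 ≤ 1 - κ) (mu0_nonneg lam_pos.le lam_lt.le x y)
  positivity

lemma mix_total (κ : ℝ) : ∑ x, ∑ y, mix lam κ x y = 1 := by
  unfold mix
  simp_rw [sum_add_distrib, ← mul_sum]
  rw [mu0_total]
  simp
  ring

end Pool.Agent.K9h88.IC
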