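import Pool.Agent.K9h88.IC.Acc

/-! Expected cost on a given input, deterministic messages, composition of protocols. -/

namespace Pool.Agent.K9h88.IC

open Finset

variable {X Y Z W X' Y' : Type}

/-- expected number of bits on the inputs `x`, `y` -/
noncomputable def Protocol.cost : Protocol X Y Z → X → Y → ℝ
  | .out _, _, _ => 0
  | .coin c l r, x, y => (c : ℝ) * l.cost x y + (1 - (c : ℝ)) * r.cost x y
  | .alice p l r, x, y => 1 + (p x : ℝ) * l.cost x y + (1 - (p x : ℝ)) * r.cost x y
  | .bob p l r, x, y => 1 + (p y : ℝ) * l.cost x y + (1 - (p y : ℝ)) * r.cost x y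

lemma leaves_cost (π : Protocol X Y Z) (x : X) (y : Y) :
    (π.leaves.map fun L => L.lik x y * (L.bits : ℝ)).sum = π.cost x y := by
  have aux : ∀ (k : ℕ) (w : ℝ) (π : Protocol X Y Z),
      (π.leaves.map fun L => w * L.lik x y * ((k + L.bits : ℕ) : ℝ)).sum =
        w * (k + (π.leaves.map fun L => L.lik x y * (L.bits : ℝ)).sum) := by
    intro k w π
    have e : (fun L : Leaf X Y Z => w * L.lik x y * ((k + L.bits : ℕ) : ℝ)) =
        fun L => (w * k) * L.lik x y + w * (L.lik x y * (L.bits : ℝ)) := by
      funext L; push_cast; ring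
    rw [e, List.sum_map_add, List.sum_map_mul_left, List.sum_map_mul_left, leaves_mass]
    ring
  induction π with
  | out z => simp [Protocol.leaves, Protocol.cost]
  | coin c l r ihl ihr =>
    rw [Protocol.leaves, List.map_append, List.sum_append, List.map_map, List.map_map]
    simp only [Function.comp_def, Leaf.step, aux, ihl, ihr, Protocol.cost]
    push_cast; ring
  | alice p l r ihl ihr =>
    rw [Protocol.leaves, List.map_append, List.sum_append, List.map_map, List.map_map]
    simp only [Function.comp_def, Leaf.step, aux, ihl, ihr, Protocol.cost]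
    push_cast; ring
  | bob p l r ihl ihr =>
    rw [Protocol.leaves, List.map_append, List.sum_append, List.map_map, List.map_map]
    simp only [Function.comp_def, Leaf.step, aux, ihl, ihr, Protocol.cost]
    push_cast; ring

lemma sum_list_sum {ι : Type} (s : Finset ι) {α : Type} (l : List α) (f : α → ι → ℝ) :
    (l.map fun L => ∑ i ∈ s, f L i).sum = ∑ i ∈ s, (l.map fun L => f L i).sum := by
  induction l with
  | nil => simp
  | cons a l ih => simp [ih, sum_add_distrib]

lemma expectedBits_eq [Fintype X] [Fintype Y] (π : Protocol X Y Z) (μ : X → Y → ℝ) :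
    π.expectedBits μ = ∑ x, ∑ y, μ x y * π.cost x y := by
  unfold Protocol.expectedBits
  rw [sum_list_sum]
  refine sum_congr rfl fun x _ => ?_
  rw [sum_list_sum]
  refine sum_congr rfl fun y _ => ?_
  simp_rw [mul_assoc, List.sum_map_mul_left, leaves_cost]

lemma cost_nonneg (π : Protocol X Y Z) (x : X) (y : Y) : 0 ≤ π.cost x y := by
  induction π with
  | out z => simp [Protocol.cost]
  | coin c l r ihl ihr =>
    have h1 := c.2.1; have h2 := c.2.2
    have := mul_nonneg h1 ihl
    have := mul_nonneg (by linarith : 0 ≤ 1 - (c : ℝ)) ihr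
    simp only [Protocol.cost]; linarith
  | alice p l r ihl ihr =>
    have h1 := (p x).2.1; have h2 := (p x).2.2
    have := mul_nonneg h1 ihl
    have := mul_nonneg (by linarith : 0 ≤ 1 - (p x : ℝ)) ihr
    simp only [Protocol.cost]; linarith
  | bob p l r ihl ihr =>
    have h1 := (p y).2.1; have h2 := (p y).2.2
    have := mul_nonneg h1 ihl
    have := mul_nonneg (by linarith : 0 ≤ 1 - (p y : ℝ)) ihr
    simp only [Protocol.cost]; linarith

/-- every possible transcript on the inputs `x`, `y` has output `z` -/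
def Protocol.ZE : Protocol X Y Z → X → Y → Z → Prop
  | .out w, _, _, z => w = z
  | .coin c l r, x, y, z => ((c : ℝ) ≠ 0 → l.ZE x y z) ∧ (1 - (c : ℝ) ≠ 0 → r.ZE x y z)
  | .alice p l r, x, y, z => ((p x : ℝ) ≠ 0 → l.ZE x y z) ∧ (1 - (p x : ℝ) ≠ 0 → r.ZE x y z)
  | .bob p l r, x, y, z => ((p y : ℝ) ≠ 0 → l.ZE x y z) ∧ (1 - (p y : ℝ) ≠ 0 → r.ZE x y z)

lemma ZE_iff (π : Protocol X Y Z) (x : X) (y : Y) (z : Z) :
    π.ZE x y z ↔ ∀ L ∈ π.leaves, L.lik x y ≠ 0 → L.output = z := by
  have aux : ∀ (k : ℕ) (w : X → Y → ℝ) (π : Protocol X Y Z),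
      (∀ L ∈ π.leaves.map (Leaf.step k w), L.lik x y ≠ 0 → L.output = z) ↔
        (w x y ≠ 0 → ∀ L ∈ π.leaves, L.lik x y ≠ 0 → L.output = z) := by
    intro k w π
    constructor
    · intro h hw L hL hl
      exact h (Leaf.step k w L) (List.mem_map_of_mem hL) (mul_ne_zero hw hl)
    · intro h L hL hl
      rw [List.mem_map] at hL
      obtain ⟨M, hM, rfl⟩ := hL
      exact h (left_ne_zero_of_mul hl) M hM (right_ne_zero_of_mul hl)
  induction π with
  | out w => simp [Protocol.ZE, Protocol.leaves]
  | coin c l r ihl ihr =>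
    rw [Protocol.leaves]
    simp only [List.forall_mem_append]
    rw [aux, aux]
    exact and_congr (imp_congr_right fun _ => ihl) (imp_congr_right fun _ => ihr)
  | alice p l r ihl ihr =>
    rw [Protocol.leaves]
    simp only [List.forall_mem_append]
    rw [aux, aux]
    exact and_congr (imp_congr_right fun _ => ihl) (imp_congr_right fun _ => ihr)
  | bob p l r ihl ihr =>
    rw [Protocol.leaves]
    simp only [List.forall_mem_append]
    rw [aux, aux]
    exact and_congr (imp_congr_right fun _ => ihl) (imp_congr_right fun _ => ihr)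

lemma zeroError_iff (π : Protocol X Y Z) (G : X → Y → Z) :
    π.ZeroError G ↔ ∀ x y, π.ZE x y (G x y) := by
  simp only [ZE_iff]
  unfold Protocol.ZeroError
  constructor
  · intro h x y L hL; exact h L hL x y
  · intro h L hL x y; exact h x y L hL

/-- a bit as a probability -/
def bit (b : Bool) : unitInterval := if b then 1 else 0

/-- Alice sends a bit -/
def aBit (f : X → Bool) (c : Bool → Protocol X Y Z) : Protocol X Y Z :=
  .alice (fun x => bit (f x)) (c true) (c false)

/-- Bob sends a bit -/
def bBit (f : Y → Bool) (c : Bool → Protocol X Y Z) : Protocol X Y Z :=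
  .bob (fun y => bit (f y)) (c true) (c false)

lemma cost_aBit (f : X → Bool) (c : Bool → Protocol X Y Z) (x : X) (y : Y) :
    (aBit f c).cost x y = 1 + (c (f x)).cost x y := by
  unfold aBit
  cases h : f x <;> simp [Protocol.cost, h, bit]

lemma cost_bBit (f : Y → Bool) (c : Bool → Protocol X Y Z) (x : X) (y : Y) :
    (bBit f c).cost x y = 1 + (c (f y)).cost x y := by
  unfold bBit
  cases h : f y <;> simp [Protocol.cost, h, bit]

lemma ZE_aBit (f : X → Bool) (c : Bool → Protocol X Y Z) (x : X) (y : Y) (z : Z) :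
    (aBit f c).ZE x y z ↔ (c (f x)).ZE x y z := by
  unfold aBit
  cases h : f x <;> simp [Protocol.ZE, h, bit]

lemma ZE_bBit (f : Y → Bool) (c : Bool → Protocol X Y Z) (x : X) (y : Y) (z : Z) :
    (bBit f c).ZE x y z ↔ (c (f y)).ZE x y z := by
  unfold bBit
  cases h : f y <;> simp [Protocol.ZE, h, bit]

/-- Alice sends `k` bits -/
def aBits : (k : ℕ) → (X → Fin k → Bool) → ((Fin k → Bool) → Protocol X Y Z) → Protocol X Y Z
  | 0, _, c => c (fun i => i.elim0)
  | k + 1, f, c => aBit (fun x => f x 0) fun b =>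
      aBits k (fun x i => f x i.succ) fun v => c (Fin.cons b v)

/-- Bob sends `k` bits -/
def bBits : (k : ℕ) → (Y → Fin k → Bool) → ((Fin k → Bool) → Protocol X Y Z) → Protocol X Y Z
  | 0, _, c => c (fun i => i.elim0)
  | k + 1, f, c => bBit (fun y => f y 0) fun b =>
      bBits k (fun y i => f y i.succ) fun v => c (Fin.cons b v)

lemma cost_aBits (k : ℕ) (f : X → Fin k → Bool) (c : (Fin k → Bool) → Protocol X Y Z)
    (x : X) (y : Y) : (aBits k f c).cost x y = k + (c (f x)).cost x y := by
  induction k with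
  | zero =>
    have : (fun i => i.elim0 : Fin 0 → Bool) = f x := by funext i; exact i.elim0
    simp [aBits, this]
  | succ k ih =>
    rw [aBits, cost_aBit, ih]
    have : (Fin.cons (f x 0) (fun i => f x i.succ) : Fin (k + 1) → Bool) = f x :=
      Fin.cons_self_tail (f x)
    rw [this]; push_cast; ring

lemma cost_bBits (k : ℕ) (f : Y → Fin k → Bool) (c : (Fin k → Bool) → Protocol X Y Z)
    (x : X) (y : Y) : (bBits k f c).cost x y = k + (c (f y)).cost x y := by
  induction k with
  | zero =>
    have : (fun i => i.elim0 : Fin 0 → Bool) = f y := by funext i; exact i.elim0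
    simp [bBits, this]
  | succ k ih =>
    rw [bBits, cost_bBit, ih]
    have : (Fin.cons (f y 0) (fun i => f y i.succ) : Fin (k + 1) → Bool) = f y :=
      Fin.cons_self_tail (f y)
    rw [this]; push_cast; ring

lemma ZE_aBits (k : ℕ) (f : X → Fin k → Bool) (c : (Fin k → Bool) → Protocol X Y Z)
    (x : X) (y : Y) (z : Z) : (aBits k f c).ZE x y z ↔ (c (f x)).ZE x y z := by
  induction k with
  | zero =>
    have : (fun i => i.elim0 : Fin 0 → Bool) = f x := by funext i; exact i.elim0
    simp [aBits, this]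
  | succ k ih =>
    rw [aBits, ZE_aBit, ih]
    have : (Fin.cons (f x 0) (fun i => f x i.succ) : Fin (k + 1) → Bool) = f x :=
      Fin.cons_self_tail (f x)
    rw [this]

lemma ZE_bBits (k : ℕ) (f : Y → Fin k → Bool) (c : (Fin k → Bool) → Protocol X Y Z)
    (x : X) (y : Y) (z : Z) : (bBits k f c).ZE x y z ↔ (c (f y)).ZE x y z := by
  induction k with
  | zero =>
    have : (fun i => i.elim0 : Fin 0 → Bool) = f y := by funext i; exact i.elim0
    simp [bBits, this]
  | succ k ih =>
    rw [bBits, ZE_bBit, ih]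
    have : (Fin.cons (f y 0) (fun i => f y i.succ) : Fin (k + 1) → Bool) = f y :=
      Fin.cons_self_tail (f y)
    rw [this]

section send

variable {M : Type} [Fintype M] [Nonempty M]

omit [Nonempty M] in
lemma exists_code {k : ℕ} (h : Fintype.card M ≤ 2 ^ k) :
    Nonempty (M ↪ (Fin k → Bool)) :=
  Function.Embedding.nonempty_of_card_le (by simpa using h)

/-- Alice sends an element of `M` with `k` bits -/
noncomputable def aSend {k : ℕ} (h : Fintype.card M ≤ 2 ^ k) (f : X → M)
    (c : M → Protocol X Y Z) : Protocol X Y Z :=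
  aBits k (fun x => (exists_code h).some (f x)) fun v => c (Function.invFun (exists_code h).some v)

/-- Bob sends an element of `M` with `k` bits -/
noncomputable def bSend {k : ℕ} (h : Fintype.card M ≤ 2 ^ k) (f : Y → M)
    (c : M → Protocol X Y Z) : Protocol X Y Z :=
  bBits k (fun y => (exists_code h).some (f y)) fun v => c (Function.invFun (exists_code h).some v)

lemma code_inv {k : ℕ} (h : Fintype.card M ≤ 2 ^ k) (m : M) :
    Function.invFun (exists_code h).some ((exists_code h).some m) = m :=
  Function.leftInverse_invFun (exists_code h).some.injective m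

lemma cost_aSend {k : ℕ} (h : Fintype.card M ≤ 2 ^ k) (f : X → M)
    (c : M → Protocol X Y Z) (x : X) (y : Y) :
    (aSend h f c).cost x y = k + (c (f x)).cost x y := by
  rw [aSend, cost_aBits, code_inv h]

lemma cost_bSend {k : ℕ} (h : Fintype.card M ≤ 2 ^ k) (f : Y → M)
    (c : M → Protocol X Y Z) (x : X) (y : Y) :
    (bSend h f c).cost x y = k + (c (f y)).cost x y := by
  rw [bSend, cost_bBits, code_inv h]

lemma ZE_aSend {k : ℕ} (h : Fintype.card M ≤ 2 ^ k) (f : X → M)
    (c : M → Protocol X Y Z) (x : X) (y : Y) (z : Z) :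
    (aSend h f c).ZE x y z ↔ (c (f x)).ZE x y z := by
  rw [aSend, ZE_aBits, code_inv h]

lemma ZE_bSend {k : ℕ} (h : Fintype.card M ≤ 2 ^ k) (f : Y → M)
    (c : M → Protocol X Y Z) (x : X) (y : Y) (z : Z) :
    (bSend h f c).ZE x y z ↔ (c (f y)).ZE x y z := by
  rw [bSend, ZE_bBits, code_inv h]

end send

/-- Alice sends her input, Bob sends the answer. -/
noncomputable def triv [Fintype X] [Nonempty X] [Fintype Z] [Nonempty Z] {k l : ℕ}
    (hX : Fintype.card X ≤ 2 ^ k) (hZ : Fintype.card Z ≤ 2 ^ l) (G : X → Y → Z) :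
    Protocol X Y Z :=
  aSend hX id fun x => bSend hZ (G x) fun z => .out z

lemma cost_triv [Fintype X] [Nonempty X] [Fintype Z] [Nonempty Z] {k l : ℕ}
    (hX : Fintype.card X ≤ 2 ^ k) (hZ : Fintype.card Z ≤ 2 ^ l) (G : X → Y → Z) (x : X) (y : Y) :
    (triv hX hZ G).cost x y = k + l := by
  rw [triv, cost_aSend, cost_bSend]
  simp [Protocol.cost]

lemma ZE_triv [Fintype X] [Nonempty X] [Fintype Z] [Nonempty Z] {k l : ℕ}
    (hX : Fintype.card X ≤ 2 ^ k) (hZ : Fintype.card Z ≤ 2 ^ l) (G : X → Y → Z) (x : X) (y : Y) :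
    (triv hX hZ G).ZE x y (G x y) := by
  rw [triv, ZE_aSend, ZE_bSend]
  simp [Protocol.ZE]

lemma exists_zeroError [Fintype X] [Nonempty X] [Fintype Z] [Nonempty Z] (G : X → Y → Z) :
    ∃ π : Protocol X Y Z, π.ZeroError G :=
  ⟨triv (k := Fintype.card X) (l := Fintype.card Z) Nat.lt_two_pow_self.le
    Nat.lt_two_pow_self.le G, (zeroError_iff _ _).2 fun x y => ZE_triv _ _ G x y⟩

/-- run a protocol on transformed inputs -/
def Protocol.comap (f : X' → X) (g : Y' → Y) : Protocol X Y Z → Protocol X' Y' Z
  | .out z => .out z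
  | .coin c l r => .coin c (l.comap f g) (r.comap f g)
  | .alice p l r => .alice (fun x => p (f x)) (l.comap f g) (r.comap f g)
  | .bob p l r => .bob (fun y => p (g y)) (l.comap f g) (r.comap f g)

/-- run a protocol, then another one depending on the output -/
def Protocol.bind : Protocol X Y Z → (Z → Protocol X Y W) → Protocol X Y W
  | .out z, c => c z
  | .coin p l r, c => .coin p (l.bind c) (r.bind c)
  | .alice p l r, c => .alice p (l.bind c) (r.bind c)
  | .bob p l r, c => .bob p (l.bind c) (r.bind c)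

lemma cost_comap (f : X' → X) (g : Y' → Y) (π : Protocol X Y Z) (x : X') (y : Y') :
    (π.comap f g).cost x y = π.cost (f x) (g y) := by
  induction π with
  | out z => rfl
  | coin c l r ihl ihr => simp only [Protocol.comap, Protocol.cost, ihl, ihr]
  | alice p l r ihl ihr => simp only [Protocol.comap, Protocol.cost, ihl, ihr]
  | bob p l r ihl ihr => simp only [Protocol.comap, Protocol.cost, ihl, ihr]

lemma ZE_comap (f : X' → X) (g : Y' → Y) (π : Protocol X Y Z) (x : X') (y : Y') (z : Z) :
    (π.comap f g).ZE x y z ↔ π.ZE (f x) (g y) z := by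
  induction π with
  | out z => rfl
  | coin c l r ihl ihr => simp only [Protocol.comap, Protocol.ZE, ihl, ihr]
  | alice p l r ihl ihr => simp only [Protocol.comap, Protocol.ZE, ihl, ihr]
  | bob p l r ihl ihr => simp only [Protocol.comap, Protocol.ZE, ihl, ihr]

lemma cost_bind (π : Protocol X Y Z) (c : Z → Protocol X Y W) (x : X) (y : Y) (K : ℝ)
    (h : ∀ z, (c z).cost x y = K) : (π.bind c).cost x y = π.cost x y + K := by
  induction π with
  | out z => simp [Protocol.bind, Protocol.cost, h]
  | coin p l r ihl ihr => simp only [Protocol.bind, Protocol.cost, ihl, ihr]; ring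
  | alice p l r ihl ihr => simp only [Protocol.bind, Protocol.cost, ihl, ihr]; ring
  | bob p l r ihl ihr => simp only [Protocol.bind, Protocol.cost, ihl, ihr]; ring

lemma ZE_bind (π : Protocol X Y Z) (c : Z → Protocol X Y W) (x : X) (y : Y) (z : Z) (w : W)
    (h1 : π.ZE x y z) (h2 : (c z).ZE x y w) : (π.bind c).ZE x y w := by
  induction π with
  | out z' => obtain rfl : z' = z := h1; exact h2
  | coin p l r ihl ihr => exact ⟨fun h => ihl (h1.1 h), fun h => ihr (h1.2 h)⟩
  | alice p l r ihl ihr => exact ⟨fun h => ihl (h1.1 h), fun h => ihr (h1.2 h)⟩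
  | bob p l r ihl ihr => exact ⟨fun h => ihl (h1.1 h), fun h => ihr (h1.2 h)⟩

end Pool.Agent.K9h88.IC
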