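import Mathlib

/-!
# Two-party protocols, external information and expected communication

Definitions used in the statement of `Pool.Agent.Results.MP_ea601a_lc.NotAmortized.result`.
-/

namespace Pool.Agent.K9h88.IC

/-- A two-party interactive protocol, as a finite binary tree.  Alice's input lies in `X`, Bob's
in `Y`, outputs lie in `Z`.
* `out z` : the protocol stops with output `z`;
* `coin c l r` : a public coin is tossed (nothing is sent); with probability `c` continue with
  `l`, with probability `1 - c` with `r`;
* `alice p l r` : Alice sends one bit; on input `x` she sends `1` with probability `p x`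
  (private randomness) and the protocol continues with `l`, otherwise with `r`;
* `bob p l r` : the same for Bob. -/
inductive Protocol (X Y Z : Type) : Type
  | out : Z → Protocol X Y Z
  | coin : unitInterval → Protocol X Y Z → Protocol X Y Z → Protocol X Y Z
  | alice : (X → unitInterval) → Protocol X Y Z → Protocol X Y Z → Protocol X Y Z
  | bob : (Y → unitInterval) → Protocol X Y Z → Protocol X Y Z → Protocol X Y Z

/-- A possible transcript (leaf) of a protocol: the number of bits sent along it, the output, and
its probability `lik x y` when the inputs are `x` and `y`. -/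
structure Leaf (X Y Z : Type) where
  /-- number of bits exchanged on this transcript -/
  bits : ℕ
  /-- the output of the protocol on this transcript -/
  output : Z
  /-- probability of this transcript on the inputs `x`, `y` -/
  lik : X → Y → ℝ

/-- Prepend to a transcript a step with `k` bits and probability `w x y`. -/
def Leaf.step {X Y Z : Type} (k : ℕ) (w : X → Y → ℝ) (L : Leaf X Y Z) : Leaf X Y Z :=
  ⟨k + L.bits, L.output, fun x y => w x y * L.lik x y⟩

/-- The list of all transcripts of a protocol. -/
def Protocol.leaves {X Y Z : Type} : Protocol X Y Z → List (Leaf X Y Z)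
  | .out z => [⟨0, z, fun _ _ => 1⟩]
  | .coin c l r =>
      l.leaves.map (Leaf.step 0 fun _ _ => (c : ℝ)) ++
        r.leaves.map (Leaf.step 0 fun _ _ => 1 - (c : ℝ))
  | .alice p l r =>
      l.leaves.map (Leaf.step 1 fun x _ => (p x : ℝ)) ++
        r.leaves.map (Leaf.step 1 fun x _ => 1 - (p x : ℝ))
  | .bob p l r =>
      l.leaves.map (Leaf.step 1 fun _ y => (p y : ℝ)) ++
        r.leaves.map (Leaf.step 1 fun _ y => 1 - (p y : ℝ))

/-- The protocol is zero-error for `G`: on every input pair, every transcript that occurs with
positive probability has the right output. -/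
def Protocol.ZeroError {X Y Z : Type} (π : Protocol X Y Z) (G : X → Y → Z) : Prop :=
  ∀ L ∈ π.leaves, ∀ x y, L.lik x y ≠ 0 → L.output = G x y

/-- The external information `I(Π ; XY)` (in bits) of the transcript `Π` of the protocol and the
inputs `(X, Y)` drawn from `μ`:
`∑_t ∑_{x,y} μ(x,y) P(t|x,y) log₂ (P(t|x,y) / P(t))`, with `P(t) = ∑_{x,y} μ(x,y) P(t|x,y)`. -/
noncomputable def Protocol.externalInfo {X Y Z : Type} [Fintype X] [Fintype Y]
    (π : Protocol X Y Z) (μ : X → Y → ℝ) : ℝ :=
  (π.leaves.map fun L => ∑ x, ∑ y, μ x y * L.lik x y *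
    Real.logb 2 (L.lik x y / ∑ x', ∑ y', μ x' y' * L.lik x' y')).sum

/-- The expected number of bits exchanged when the inputs are drawn from `μ`. -/
noncomputable def Protocol.expectedBits {X Y Z : Type} [Fintype X] [Fintype Y]
    (π : Protocol X Y Z) (μ : X → Y → ℝ) : ℝ :=
  (π.leaves.map fun L => ∑ x, ∑ y, μ x y * L.lik x y * (L.bits : ℝ)).sum

/-- Zero-error external information complexity `IC^ext(G, 0, μ)`. -/
noncomputable def ICext {X Y Z : Type} [Fintype X] [Fintype Y]
    (G : X → Y → Z) (μ : X → Y → ℝ) : ℝ :=
  sInf {r : ℝ | ∃ π : Protocol X Y Z, π.ZeroError G ∧ r = π.externalInfo μ}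

/-- Expected zero-error communication complexity of `G` under `μ`. -/
noncomputable def CC {X Y Z : Type} [Fintype X] [Fintype Y]
    (G : X → Y → Z) (μ : X → Y → ℝ) : ℝ :=
  sInf {r : ℝ | ∃ π : Protocol X Y Z, π.ZeroError G ∧ r = π.expectedBits μ}

/-- The `n`-fold task `F^n`: compute `F` on `n` coordinates. -/
def nfold {X Y Z : Type} (n : ℕ) (F : X → Y → Z) : (Fin n → X) → (Fin n → Y) → (Fin n → Z) :=
  fun x y k => F (x k) (y k)

/-- The product distribution `μ^n`. -/
noncomputable def npow {X Y : Type} (n : ℕ) (μ : X → Y → ℝ) : (Fin n → X) → (Fin n → Y) → ℝ :=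
  fun x y => ∏ k, μ (x k) (y k)

end Pool.Agent.K9h88.IC
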