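import Pool.Agent.K9h88.IC.Lower

/-! The distributions and the lower bound for the external information. -/

namespace Pool.Agent.K9h88.IC

open Finset

/-- the basic distribution -/
noncomputable def mu0 (l : ℝ) (x y : In) : ℝ :=
  (1 / 12) * ∑ i : Fin 4, ∑ j : Fin 4, if i = j then 0 else
    ((1 - l) * ((if x = sg i then 1 else 0) * (if y = pr i j then 1 else 0)) +
      l * ((if x = pr i j then 1 else 0) * (if y = sg i then 1 else 0)))

lemma mu0_nonneg {l : ℝ} (hl : 0 ≤ l) (hl1 : l ≤ 1) (x y : In) : 0 ≤ mu0 l x y := by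
  unfold mu0
  refine mul_nonneg (by norm_num) (sum_nonneg fun i _ => sum_nonneg fun j _ => ?_)
  split_ifs <;> simp <;> linarith

lemma mu0_sum (l : ℝ) (φ : In → In → ℝ) :
    ∑ x, ∑ y, mu0 l x y * φ x y =
      (1 / 12) * ∑ i : Fin 4, ∑ j : Fin 4, if i = j then 0 else
        ((1 - l) * φ (sg i) (pr i j) + l * φ (pr i j) (sg i)) := by
  have h1 : ∀ x y, mu0 l x y * φ x y = (1 / 12) * ∑ i : Fin 4, ∑ j : Fin 4,
      if i = j then 0 else
        ((1 - l) * ((if x = sg i then 1 else 0) * (if y = pr i j then 1 else 0)) * φ x y +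
          l * ((if x = pr i j then 1 else 0) * (if y = sg i then 1 else 0)) * φ x y) := by
    intro x y
    unfold mu0
    rw [mul_assoc, sum_mul]
    congr 1
    refine sum_congr rfl fun i _ => ?_
    rw [sum_mul]
    refine sum_congr rfl fun j _ => ?_
    by_cases h : i = j
    · simp [h]
    · simp only [if_neg h]; ring
  simp_rw [h1, ← mul_sum]
  congr 1
  have h2 : ∀ x : In, ∑ y : In, ∑ i : Fin 4, ∑ j : Fin 4, (if i = j then 0 else
        ((1 - l) * ((if x = sg i then 1 else 0) * (if y = pr i j then 1 else 0)) * φ x y +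
          l * ((if x = pr i j then 1 else 0) * (if y = sg i then 1 else 0)) * φ x y)) =
      ∑ i : Fin 4, ∑ j : Fin 4, ∑ y : In, (if i = j then 0 else
        ((1 - l) * ((if x = sg i then 1 else 0) * (if y = pr i j then 1 else 0)) * φ x y +
          l * ((if x = pr i j then 1 else 0) * (if y = sg i then 1 else 0)) * φ x y)) := by
    intro x
    rw [sum_comm]
    refine sum_congr rfl fun i _ => ?_
    rw [sum_comm]
  simp_rw [h2]
  rw [sum_comm]
  refine sum_congr rfl fun i _ => ?_
  rw [sum_comm]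
  refine sum_congr rfl fun j _ => ?_
  by_cases h : i = j
  · simp [h]
  · simp only [if_neg h]
    simp_rw [sum_add_distrib]
    congr 1
    · rw [Fintype.sum_eq_single (sg i) (fun x hx => by simp [hx]),
        Fintype.sum_eq_single (pr i j) (fun y hy => by simp [hy])]
      simp
    · rw [Fintype.sum_eq_single (pr i j) (fun x hx => by simp [hx]),
        Fintype.sum_eq_single (sg i) (fun y hy => by simp [hy])]
      simp

lemma mu0_total (l : ℝ) : ∑ x, ∑ y, mu0 l x y = 1 := by
  have := mu0_sum l (fun _ _ => 1)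
  simp only [mul_one] at this
  rw [this]
  simp [Fin.sum_univ_four]
  ring

/-- information functional of one transcript, in nats -/
noncomputable def nat (μ : In → In → ℝ) (q : In → In → ℝ) : ℝ :=
  ∑ x, ∑ y, μ x y * kl (q x y) (∑ x', ∑ y', μ x' y' * q x' y')

lemma nat_mu0 (l : ℝ) (a b : In → ℝ) :
    nat (mu0 l) (fun x y => a x * b y) = (1 / 12) * LI l a b := by
  unfold nat
  rw [mu0_sum l (fun x y => kl (a x * b y) (∑ x', ∑ y', mu0 l x' y' * (a x' * b y'))),
    mu0_sum l (fun x y => a x * b y)]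
  unfold LI
  simp only
  congr 1
  have e : (1 / 12 : ℝ) * ∑ i : Fin 4, ∑ j : Fin 4, (if i = j then 0 else
      ((1 - l) * (a (sg i) * b (pr i j)) + l * (a (pr i j) * b (sg i)))) =
      (∑ i, ∑ j, ((1 - l) * Am a b i j + l * Bm a b i j)) / 12 := by
    rw [one_div_mul_eq_div]
    congr 1
    refine sum_congr rfl fun i _ => sum_congr rfl fun j _ => ?_
    unfold Am Bm
    split_ifs <;> simp
  rw [e]
  refine sum_congr rfl fun i _ => sum_congr rfl fun j _ => ?_
  unfold Am Bm
  split_ifs <;> simp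

/-- the mixture with the uniform distribution -/
noncomputable def mix (l κ : ℝ) (x y : In) : ℝ := (1 - κ) * mu0 l x y + κ * (1 / 256)

lemma nat_mix {l κ : ℝ} (hl : 0 ≤ l) (hl1 : l ≤ 1) (hκ : 0 ≤ κ) (hκ1 : κ < 1)
    {q : In → In → ℝ} (hq : ∀ x y, 0 ≤ q x y) :
    (1 - κ) * nat (mu0 l) q ≤ nat (mix l κ) q := by
  set P0 := ∑ x', ∑ y', mu0 l x' y' * q x' y' with hP0
  set P1 := ∑ x' : In, ∑ y' : In, (1 / 256 : ℝ) * q x' y' with hP1
  set P := ∑ x', ∑ y', mix l κ x' y' * q x' y' with hP
  have hmu := mu0_nonneg hl hl1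
  have eP : P = (1 - κ) * P0 + κ * P1 := by
    rw [hP, hP0, hP1, mul_sum, mul_sum, ← sum_add_distrib]
    refine sum_congr rfl fun x _ => ?_
    rw [mul_sum, mul_sum, ← sum_add_distrib]
    refine sum_congr rfl fun y _ => ?_
    unfold mix; ring
  have hP00 : 0 ≤ P0 := sum_nonneg fun x _ => sum_nonneg fun y _ => mul_nonneg (hmu x y) (hq x y)
  have hP10 : 0 ≤ P1 := sum_nonneg fun x _ => sum_nonneg fun y _ =>
    mul_nonneg (by norm_num) (hq x y)
  have h1κ : 0 < 1 - κ := by linarith
  have hPnn : 0 ≤ P := by rw [eP]; positivity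
  have split : nat (mix l κ) q = (1 - κ) * (∑ x, ∑ y, mu0 l x y * kl (q x y) P) +
      κ * (∑ x : In, ∑ y : In, (1 / 256 : ℝ) * kl (q x y) P) := by
    unfold nat
    rw [← hP, mul_sum, mul_sum, ← sum_add_distrib]
    refine sum_congr rfl fun x _ => ?_
    rw [mul_sum, mul_sum, ← sum_add_distrib]
    refine sum_congr rfl fun y _ => ?_
    unfold mix; ring
  rcases hPnn.eq_or_lt with h0 | hPpos
  · -- P = 0, then all `mu0 * q` vanish
    have hP0z : P0 = 0 := by
      have : 0 ≤ κ * P1 := mul_nonneg hκ hP10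
      have h2 : 0 ≤ (1 - κ) * P0 := mul_nonneg h1κ.le hP00
      have : (1 - κ) * P0 = 0 := by linarith
      rcases mul_eq_zero.1 this with h | h
      · exact absurd h h1κ.ne'
      · exact h
    have e1 : nat (mu0 l) q = 0 := by
      unfold nat
      rw [← hP0, hP0z]
      simp [kl]
    have e2 : nat (mix l κ) q = 0 := by
      unfold nat
      rw [← hP, ← h0]
      simp [kl]
    rw [e1, e2]; simp
  · have s1 : nat (mu0 l) q + (P0 - P) ≤ ∑ x, ∑ y, mu0 l x y * kl (q x y) P := by
      rcases hP00.eq_or_lt with h0 | hpos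
      · have hz : ∀ x y, mu0 l x y * q x y = 0 := by
          intro x y
          have h1 := (sum_eq_zero_iff_of_nonneg (fun x _ => sum_nonneg fun y _ =>
            mul_nonneg (hmu x y) (hq x y))).1 (hP0.symm.trans h0.symm) x (mem_univ x)
          exact (sum_eq_zero_iff_of_nonneg (fun y _ => mul_nonneg (hmu x y) (hq x y))).1 h1 y
            (mem_univ y)
        have e1 : nat (mu0 l) q = 0 := by
          unfold nat
          rw [← hP0, ← h0]
          simp [kl]
        have e2 : ∑ x, ∑ y, mu0 l x y * kl (q x y) P = 0 := by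
          refine sum_eq_zero fun x _ => sum_eq_zero fun y _ => ?_
          rcases mul_eq_zero.1 (hz x y) with h | h
          · rw [h, zero_mul]
          · rw [h, kl_zero, mul_zero]
        rw [e1, e2]; linarith
      · have e1 : ∑ x, ∑ y, mu0 l x y * kl (q x y) P =
            nat (mu0 l) q + kl P0 P := by
          have e : ∀ x y, mu0 l x y * kl (q x y) P =
              mu0 l x y * kl (q x y) P0 + mu0 l x y * q x y * Real.log (P0 / P) := by
            intro x y
            rw [kl_change hPpos hpos (hq x y)]; ring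
          simp_rw [e, sum_add_distrib, ← sum_mul]
          rfl
        have := kl_ge hP00 hPpos.le (fun h => absurd h hPpos.ne')
        rw [e1]; linarith
    have s2 : P1 - P ≤ ∑ x : In, ∑ y : In, (1 / 256 : ℝ) * kl (q x y) P := by
      have e : ∑ x : In, ∑ y : In, (1 / 256 : ℝ) * (q x y - P) = P1 - P := by
        simp_rw [mul_sub, sum_sub_distrib]
        rw [← hP1]
        simp
        ring
      rw [← e]
      exact sum_le_sum fun x _ => sum_le_sum fun y _ =>
        mul_le_mul_of_nonneg_left (kl_ge (hq x y) hPpos.le (fun h => absurd h hPpos.ne'))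
          (by norm_num)
    rw [split]
    have m1 := mul_le_mul_of_nonneg_left s1 h1κ.le
    have m2 := mul_le_mul_of_nonneg_left s2 hκ
    have e : (1 - κ) * (P0 - P) + κ * (P1 - P) = 0 := by rw [eP]; ring
    rw [mul_add] at m1
    linarith

lemma externalInfo_eq {π : Protocol In In Bool} (μ : In → In → ℝ) :
    π.externalInfo μ = π.acc (fun _ a b => nat μ (fun x y => a x * b y) / Real.log 2)
      (fun _ => 1) (fun _ => 1) := by
  rw [← acc_eq (fun (_ : Bool) q => nat μ q / Real.log 2)]
  unfold Protocol.externalInfo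
  congr 1
  refine List.map_congr_left fun L _ => ?_
  unfold nat
  simp only [one_mul]
  rw [sum_div]
  refine sum_congr rfl fun x _ => ?_
  rw [sum_div]
  refine sum_congr rfl fun y _ => ?_
  unfold kl Real.logb
  ring

/-- parameter -/
noncomputable def tau : ℝ := 1 / 10 ^ 7
/-- parameter -/
noncomputable def lam : ℝ := tau ^ 2 / (1 + tau ^ 2)

lemma tau_pos : 0 < tau := by unfold tau; norm_num
lemma lam_pos : 0 < lam := by unfold lam; have := tau_pos; positivity
lemma lam_lt : lam < 1 := by
  unfold lam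
  rw [div_lt_one (by have := tau_pos; positivity)]
  linarith
lemma tau_lam : tau ^ 2 * (1 - lam) = lam := by
  unfold lam
  have : (1 + tau ^ 2) ≠ 0 := by have := tau_pos; positivity
  field_simp
  ring

lemma GT_one : 12 * Real.log 2 + 324 / 10 ^ 7 ≤ GT tau (fun _ => 1) (fun _ => 1) := by
  have hτ := tau_pos
  have hTT : 2 * Real.log 2 - 6 * tau ≤ TT tau 1 1 1 1 1 1 := by
    unfold TT kl
    have l1 : Real.log (1 + tau) ≤ tau := by
      have := Real.log_le_sub_one_of_pos (by positivity : 0 < 1 + tau)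
      linarith
    have l2 : Real.log (1 + tau * 2) ≤ 2 * tau := by
      have := Real.log_le_sub_one_of_pos (by positivity : 0 < 1 + tau * 2)
      linarith
    have e1 : Real.log ((1 + 1) / (1 + tau * (1 + 1))) = Real.log 2 - Real.log (1 + tau * 2) := by
      rw [show (1 : ℝ) + 1 = 2 by norm_num, Real.log_div (by norm_num) (by positivity)]
    have e2 : Real.log (1 / (1 + tau * 1)) = - Real.log (1 + tau) := by
      rw [mul_one, one_div, Real.log_inv]
    rw [e1, e2]
    linarith
  have hsm : sm (av fun _ => 1) = 6 := by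
    unfold sm; rw [Fin.sum_univ_six]; simp [av]; norm_num
  have hsq : sq (av fun _ => 1) = 6 := by
    unfold sq; rw [Fin.sum_univ_six]; simp [av]; norm_num
  have hpsi : psi (av fun _ => 1) (av fun _ => 1) = 36 := by
    unfold psi qf
    rw [hsm, hsq]
    norm_num
  have hpn : pn 1 1 1 1 1 1 = 0 := by
    unfold pn kl; norm_num
  have hG3 : G3 tau (av fun _ => 1) (av fun _ => 1) =
      3 * TT tau 1 1 1 1 1 1 + 20 * pn 1 1 1 1 1 1 +
        1 / 10 ^ 6 * psi (av fun _ => 1) (av fun _ => 1) := by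
    have : G3 tau (av fun _ => 1) (av fun _ => 1) =
      TT tau 1 1 1 1 1 1 + TT tau 1 1 1 1 1 1 + TT tau 1 1 1 1 1 1 + 20 * pn 1 1 1 1 1 1 +
        1 / 10 ^ 6 * psi (av fun _ => 1) (av fun _ => 1) := rfl
    rw [this]; ring
  have e : GT tau (fun _ => 1) (fun _ => 1) = G3 tau (av fun _ => 1) (av fun _ => 1) +
      TT tau 1 1 1 1 1 1 + TT tau 1 1 1 1 1 1 + TT tau 1 1 1 1 1 1 := rfl
  rw [e, hG3, hpn, hpsi]
  have ht : tau = 1 / 10 ^ 7 := rfl
  rw [ht] at hTT ⊢
  linarith

lemma GG_one : 12 * Real.log 2 * (2 + lam * (1 + 3 / 10 ^ 6)) ≤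
    GG tau lam (fun _ => 1) (fun _ => 1) := by
  have hl := lam_pos
  have hτ := tau_pos
  have e1 : ∑ i, ∑ j, ((1 - lam) * Am (fun _ => 1) (fun _ => 1) i j +
      lam * Bm (fun _ => 1) (fun _ => 1) i j) = 12 := by
    unfold Am Bm
    simp [Fin.sum_univ_four]
    ring
  have e2 : ∑ i, ∑ j, (Am (fun _ => 1) (fun _ => 1) i j - Bm (fun _ => 1) (fun _ => 1) i j)
      = 0 := by
    refine sum_eq_zero fun i _ => sum_eq_zero fun j _ => ?_
    unfold Am Bm; simp
  have e3 : Real.log 4 = 2 * Real.log 2 := by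
    rw [show (4 : ℝ) = 2 ^ 2 by norm_num, Real.log_pow]; norm_num
  unfold GG
  rw [e1, e2, e3, mul_zero, add_zero]
  have l2 : Real.log 2 < 0.6931471808 := Real.log_two_lt_d9
  have l2' : 0.6931471803 < Real.log 2 := Real.log_two_gt_d9
  have key : 12 * Real.log 2 * (1 + 3 / 10 ^ 6) ≤
      1 / (1 + 40 * tau ^ 2) * GT tau (fun _ => 1) (fun _ => 1) := by
    rw [one_div_mul_eq_div, le_div_iff₀ (by positivity)]
    refine le_trans ?_ GT_one
    have ht : tau = 1 / 10 ^ 7 := rfl
    rw [ht]
    nlinarith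
  have := mul_le_mul_of_nonneg_left key hl.le
  have e4 : lam * (1 / (1 + 40 * tau ^ 2) * GT tau (fun _ => 1) (fun _ => 1)) =
      lam / (1 + 40 * tau ^ 2) * GT tau (fun _ => 1) (fun _ => 1) := by ring
  rw [e4] at this
  linarith

/-- The lower bound for every zero-error protocol. -/
theorem info_lower {κ : ℝ} (hκ : 0 ≤ κ) (hκ1 : κ < 1) (π : Protocol In In Bool)
    (hπ : π.ZeroError inter) :
    (1 - κ) * (2 + lam * (1 + 3 / 10 ^ 6)) ≤ π.externalInfo (mix lam κ) := by
  have hl := lam_pos
  have hl1 := lam_lt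
  have hτ := tau_pos
  have hτ6 : tau ≤ 1 / 6 := by unfold tau; norm_num
  have l2 : 0 < Real.log 2 := Real.log_pos (by norm_num)
  have h1κ : 0 < 1 - κ := by linarith
  have hc : 0 ≤ (1 - κ) / (12 * Real.log 2) := by positivity
  rw [externalInfo_eq]
  have key := acc_ge (F := inter)
    (fun a b => (1 - κ) / (12 * Real.log 2) * GG tau lam a b)
    (fun _ a b => nat (mix lam κ) (fun x y => a x * b y) / Real.log 2)
    (fun a1 a2 b h1 h2 hb => by
      have := mul_le_mul_of_nonneg_left (GG_superadd_a hτ hτ6 hl a1 a2 b h1 h2 hb) hc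
      rw [mul_add] at this; exact this)
    (fun a b1 b2 ha h1 h2 => by
      have := mul_le_mul_of_nonneg_left (GG_superadd_b hτ hτ6 hl a b1 b2 ha h1 h2) hc
      rw [mul_add] at this; exact this)
    (fun z a b ha hb hm => by
      have k1 := GG_leaf hτ hl hl1 tau_lam ha hb hm
      have k2 := nat_mix hl.le hl1.le hκ hκ1 (q := fun x y => a x * b y)
        (fun x y => mul_nonneg (ha x) (hb y))
      rw [nat_mu0] at k2
      show (1 - κ) / (12 * Real.log 2) * GG tau lam a b ≤
        nat (mix lam κ) (fun x y => a x * b y) / Real.log 2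
      rw [le_div_iff₀ l2]
      refine le_trans ?_ k2
      have := mul_le_mul_of_nonneg_left k1 h1κ.le
      have e : (1 - κ) / (12 * Real.log 2) * GG tau lam a b * Real.log 2 =
          (1 / 12) * ((1 - κ) * GG tau lam a b) := by field_simp
      rw [e]
      linarith)
    π (fun _ => 1) (fun _ => 1) (fun _ => zero_le_one) (fun _ => zero_le_one)
    (fun L hL x y h => hπ L hL x y (by simpa using h))
  refine le_trans ?_ key
  have := mul_le_mul_of_nonneg_left GG_one hc
  refine le_trans (le_of_eq ?_) this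
  field_simp

end Pool.Agent.K9h88.IC
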