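import Pool.Agent.K9h88.IC.Cost
import Pool.Agent.K9h88.IC.Info

/-! A cheap protocol for many copies, using hashing. -/

namespace Pool.Agent.K9h88.IC

open Finset

/-! ### sums over product spaces -/

lemma sum_npow {X Y : Type} [Fintype X] [Fintype Y] (n : ℕ) (f : X → Y → ℝ) :
    ∑ x : Fin n → X, ∑ y : Fin n → Y, ∏ t, f (x t) (y t) = (∑ a, ∑ b, f a b) ^ n := by
  classical
  have h1 : ∀ x : Fin n → X, ∑ y : Fin n → Y, ∏ t, f (x t) (y t) = ∏ t, ∑ b, f (x t) b := by
    intro x
    rw [Finset.prod_univ_sum, Fintype.piFinset_univ]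
  simp_rw [h1]
  rw [Fintype.sum_pow (fun a => ∑ b, f a b) n]

/-! ### hash functions -/

lemma card_collide {C V : Type} [Fintype C] [DecidableEq C] [Fintype V] [DecidableEq V]
    {c c' : C} (h : c' ≠ c) :
    (univ.filter fun H : C → V => H c' = H c).card * Fintype.card V = Fintype.card (C → V) := by
  let e : {H : C → V // H c' = H c} × V ≃ (C → V) :=
    { toFun := fun p => Function.update p.1.1 c p.2
      invFun := fun H => (⟨Function.update H c (H c'), by
        rw [Function.update_self, Function.update_of_ne h]⟩, H c)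
      left_inv := by
        rintro ⟨⟨H, hH⟩, v⟩
        ext1
        · apply Subtype.ext
          simp only
          rw [Function.update_of_ne h, Function.update_idem, hH, Function.update_eq_self]
        · simp
      right_inv := by
        intro H
        simp only
        rw [Function.update_idem, Function.update_eq_self] }
  have := Fintype.card_congr e
  rw [Fintype.card_prod, Fintype.card_subtype] at this
  exact this

/-! ### the protocol -/

/-- the singleton, if the set is one -/
def gg (u : In) : Option (Fin 4) :=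
  if u = sg 0 then some 0 else if u = sg 1 then some 1 else if u = sg 2 then some 2
  else if u = sg 3 then some 3 else none

lemma gg_sg (i : Fin 4) : gg (sg i) = some i := by revert i; decide

lemma gg_pr (i j : Fin 4) (h : i ≠ j) : gg (pr i j) = none := by revert i j; decide

/-- consistency -/
def con (u : In) (o : Option (Fin 4)) : Bool :=
  match gg u, o with
  | some _, none => true
  | none, some i => u i
  | _, _ => false

/-- number of consistent values -/
def mm (u : In) : ℕ := (univ.filter fun o => con u o = true).card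

lemma mm_sg (i : Fin 4) : mm (sg i) = 1 := by revert i; decide

lemma mm_pr (i j : Fin 4) (h : i ≠ j) : mm (pr i j) = 2 := by revert i j; decide

/-- the support of the distribution -/
def Sup (u w : In) : Prop :=
  (∃ i j, i ≠ j ∧ u = sg i ∧ w = pr i j) ∨ (∃ i j, i ≠ j ∧ u = pr i j ∧ w = sg i)

lemma sup_of_mu0 {l : ℝ} {u w : In} (h : mu0 l u w ≠ 0) : Sup u w := by
  by_contra hs
  apply h
  unfold mu0
  rw [mul_eq_zero]
  right
  refine sum_eq_zero fun i _ => sum_eq_zero fun j _ => ?_
  split_ifs with h0 h1 h2 h3 h4 h5 h6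
  all_goals first
    | rfl
    | (exfalso; exact hs (Or.inl ⟨i, j, h0, by assumption, by assumption⟩))
    | (exfalso; exact hs (Or.inr ⟨i, j, h0, by assumption, by assumption⟩))
    | simp

/-- Alice's index -/
def vec1 (u : In) (o : Option (Fin 4)) : Fin 4 := o.getD ((gg u).getD 0)

lemma con_sup {u w : In} (h : Sup u w) : con u (gg w) = true := by
  rcases h with ⟨i, j, hij, rfl, rfl⟩ | ⟨i, j, hij, rfl, rfl⟩
  · revert i j; decide
  · revert i j; decide

lemma vec_sup {u w : In} (h : Sup u w) :
    u (vec1 u (gg w)) = true ∧ w (vec1 u (gg w)) = true := by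
  rcases h with ⟨i, j, hij, rfl, rfl⟩ | ⟨i, j, hij, rfl, rfl⟩
  · revert i j; decide
  · revert i j; decide

section proto

variable {n k : ℕ}

/-- Alice's guess for Bob's vector -/
noncomputable def guess (H : (Fin n → Option (Fin 4)) → (Fin k → Bool)) (x : Fin n → In)
    (h : Fin k → Bool) : Fin n → Option (Fin 4) :=
  open Classical in
  if e : ∃ c : Fin n → Option (Fin 4), (∀ t, con (x t) (c t) = true) ∧ H c = h then e.choose
  else fun _ => none

/-- Alice's vector of indices -/
noncomputable def vv (H : (Fin n → Option (Fin 4)) → (Fin k → Bool)) (x : Fin n → In)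
    (h : Fin k → Bool) : Fin n → Fin 4 := fun t => vec1 (x t) (guess H x h t)

lemma cardV (n : ℕ) : Fintype.card (Fin n → Fin 4) ≤ 2 ^ (2 * n) := by
  rw [Fintype.card_fun, Fintype.card_fin, Fintype.card_fin, pow_mul]; norm_num

lemma cardI (n : ℕ) : Fintype.card (Fin n → In) ≤ 2 ^ (4 * n) := by
  rw [Fintype.card_fun, Fintype.card_fun, Fintype.card_fin, Fintype.card_fin, Fintype.card_bool,
    pow_mul]

lemma cardO (n : ℕ) : Fintype.card (Fin n → Bool) ≤ 2 ^ n := by
  rw [Fintype.card_fun, Fintype.card_fin, Fintype.card_bool]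

/-- the protocol -/
noncomputable def proto (H : (Fin n → Option (Fin 4)) → (Fin k → Bool)) :
    Protocol (Fin n → In) (Fin n → In) (Fin n → Bool) :=
  bBits k (fun y => H fun t => gg (y t)) fun h =>
    aSend (cardV n) (fun x => vv H x h) fun v =>
      aBit (fun x => decide (∀ t, x t (v t) = true)) fun b1 =>
        bBit (fun y => decide (∀ t, y t (v t) = true)) fun b2 =>
          if b1 && b2 then .out (fun _ => true) else triv (cardI n) (cardO n) (nfold n inter)

/-- failure of the hashing phase -/
def Fail (H : (Fin n → Option (Fin 4)) → (Fin k → Bool)) (x y : Fin n → In) : Prop :=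
  ¬ ((∀ t, x t (vv H x (H fun t => gg (y t)) t) = true) ∧
    (∀ t, y t (vv H x (H fun t => gg (y t)) t) = true))

open Classical in
lemma cost_proto (H : (Fin n → Option (Fin 4)) → (Fin k → Bool)) (x y : Fin n → In) :
    (proto H).cost x y = k + 2 * n + 2 + 5 * n * (if Fail H x y then 1 else 0) := by
  unfold proto
  rw [cost_bBits, cost_aSend, cost_aBit, cost_bBit]
  by_cases hF : Fail H x y
  · rw [if_pos hF]
    have : (decide (∀ t, x t (vv H x (H fun t => gg (y t)) t) = true) &&
      decide (∀ t, y t (vv H x (H fun t => gg (y t)) t) = true)) = false := by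
      rw [← Bool.not_eq_true]
      intro h
      apply hF
      simpa using h
    simp only [this, Bool.false_eq_true, if_false]
    rw [cost_triv]
    push_cast; ring
  · rw [if_neg hF]
    have : (decide (∀ t, x t (vv H x (H fun t => gg (y t)) t) = true) &&
      decide (∀ t, y t (vv H x (H fun t => gg (y t)) t) = true)) = true := by
      have := not_not.1 hF
      simpa using this
    simp only [this, if_true]
    simp only [Protocol.cost]
    push_cast; ring

lemma zeroError_proto (H : (Fin n → Option (Fin 4)) → (Fin k → Bool)) :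
    (proto H).ZeroError (nfold n inter) := by
  rw [zeroError_iff]
  intro x y
  unfold proto
  rw [ZE_bBits, ZE_aSend, ZE_aBit, ZE_bBit]
  split_ifs with h
  · simp only [Bool.and_eq_true, decide_eq_true_eq] at h
    simp only [Protocol.ZE]
    funext t
    unfold nfold inter
    symm
    rw [decide_eq_true_eq]
    exact ⟨_, h.1 t, h.2 t⟩
  · exact ZE_triv _ _ _ x y

lemma fail_collide (H : (Fin n → Option (Fin 4)) → (Fin k → Bool)) {x y : Fin n → In}
    (hs : ∀ t, Sup (x t) (y t)) (hF : Fail H x y) :
    ∃ c : Fin n → Option (Fin 4), c ≠ (fun t => gg (y t)) ∧ (∀ t, con (x t) (c t) = true) ∧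
      H c = H fun t => gg (y t) := by
  have e : ∃ c : Fin n → Option (Fin 4), (∀ t, con (x t) (c t) = true) ∧
      H c = H fun t => gg (y t) := ⟨fun t => gg (y t), fun t => con_sup (hs t), rfl⟩
  have hg : guess H x (H fun t => gg (y t)) = e.choose := by
    unfold guess
    rw [dif_pos e]
  refine ⟨e.choose, ?_, e.choose_spec.1, e.choose_spec.2⟩
  intro hc
  apply hF
  rw [hc] at hg
  have hv : ∀ t, vv H x (H fun t => gg (y t)) t = vec1 (x t) (gg (y t)) := by
    intro t
    unfold vv
    rw [hg]
  constructor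
  · intro t; rw [hv]; exact (vec_sup (hs t)).1
  · intro t; rw [hv]; exact (vec_sup (hs t)).2

lemma card_con (x : Fin n → In) :
    (univ.filter fun c : Fin n → Option (Fin 4) => ∀ t, con (x t) (c t) = true).card =
      ∏ t, mm (x t) := by
  unfold mm
  rw [← Fintype.card_piFinset]
  congr 1
  ext c
  simp [Fintype.mem_piFinset]

open Classical in
lemma card_fail {x y : Fin n → In} (hs : ∀ t, Sup (x t) (y t)) :
    (univ.filter fun H : (Fin n → Option (Fin 4)) → (Fin k → Bool) => Fail H x y).card * 2 ^ k ≤
      (∏ t, mm (x t)) * Fintype.card ((Fin n → Option (Fin 4)) → (Fin k → Bool)) := by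
  have hsub : (univ.filter fun H : (Fin n → Option (Fin 4)) → (Fin k → Bool) => Fail H x y) ⊆
      ((univ.filter fun c : Fin n → Option (Fin 4) => ∀ t, con (x t) (c t) = true).erase
        (fun t => gg (y t))).biUnion
        fun c => univ.filter fun H : (Fin n → Option (Fin 4)) → (Fin k → Bool) =>
          H c = H fun t => gg (y t) := by
    intro H hH
    rw [mem_filter] at hH
    obtain ⟨c, h1, h2, h3⟩ := fail_collide H hs hH.2
    simp only [mem_biUnion, mem_erase, mem_filter, mem_univ, true_and]
    exact ⟨c, ⟨h1, h2⟩, h3⟩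
  have h1 := (card_le_card hsub).trans card_biUnion_le
  have h2 : ∀ c ∈ ((univ.filter fun c : Fin n → Option (Fin 4) =>
      ∀ t, con (x t) (c t) = true).erase (fun t => gg (y t))),
      (univ.filter fun H : (Fin n → Option (Fin 4)) → (Fin k → Bool) =>
          H c = H fun t => gg (y t)).card * 2 ^ k =
        Fintype.card ((Fin n → Option (Fin 4)) → (Fin k → Bool)) := by
    intro c hc
    have := card_collide (V := Fin k → Bool) (ne_of_mem_erase hc)
    rw [← this]
    congr 1
    simp
  calc _ ≤ (∑ c ∈ ((univ.filter fun c : Fin n → Option (Fin 4) =>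
      ∀ t, con (x t) (c t) = true).erase (fun t => gg (y t))),
      (univ.filter fun H : (Fin n → Option (Fin 4)) → (Fin k → Bool) =>
          H c = H fun t => gg (y t)).card) * 2 ^ k := Nat.mul_le_mul_right _ h1
    _ = ∑ c ∈ ((univ.filter fun c : Fin n → Option (Fin 4) =>
      ∀ t, con (x t) (c t) = true).erase (fun t => gg (y t))),
        Fintype.card ((Fin n → Option (Fin 4)) → (Fin k → Bool)) := by
      rw [sum_mul]; exact sum_congr rfl h2
    _ ≤ (∏ t, mm (x t)) * Fintype.card ((Fin n → Option (Fin 4)) → (Fin k → Bool)) := by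
      rw [sum_const, smul_eq_mul, ← card_con x]
      exact Nat.mul_le_mul_right _ (card_le_card (erase_subset _ _))

/-- minimum bounded by a power -/
lemma min_le_rpow {t θ : ℝ} (ht : 0 ≤ t) (h0 : 0 ≤ θ) (h1 : θ ≤ 1) {p : ℝ} (hp1 : p ≤ 1)
    (hpt : p ≤ t) : p ≤ t ^ θ := by
  rcases le_total t 1 with h | h
  · rcases ht.eq_or_lt with h' | h'
    · exact hpt.trans (by rw [← h']; exact Real.rpow_nonneg le_rfl _)
    · refine hpt.trans ?_
      calc t = t ^ (1 : ℝ) := (Real.rpow_one t).symm
        _ ≤ t ^ θ := Real.rpow_le_rpow_of_exponent_ge h' h h1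
  · exact hp1.trans (Real.one_le_rpow h h0)

open Classical in
lemma exists_hash {l θ : ℝ} (hl : 0 ≤ l) (hl1 : l ≤ 1) (h0 : 0 ≤ θ) (h1 : θ ≤ 1) (n k : ℕ) :
    ∃ H : (Fin n → Option (Fin 4)) → (Fin k → Bool),
      ∑ x : Fin n → In, ∑ y : Fin n → In, npow n (mu0 l) x y * (if Fail H x y then 1 else 0) ≤
        (1 - l + l * 2 ^ θ) ^ n * 2 ^ (-(k * θ)) := by
  have hcard : (0 : ℝ) < Fintype.card ((Fin n → Option (Fin 4)) → (Fin k → Bool)) := by
    exact_mod_cast Fintype.card_pos
  have key : ∀ x y : Fin n → In,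
      npow n (mu0 l) x y * ∑ H : (Fin n → Option (Fin 4)) → (Fin k → Bool),
        (if Fail H x y then (1 : ℝ) else 0) ≤
      (Fintype.card ((Fin n → Option (Fin 4)) → (Fin k → Bool)) : ℝ) * 2 ^ (-(k * θ)) *
        ∏ t, mu0 l (x t) (y t) * (mm (x t) : ℝ) ^ θ := by
    intro x y
    by_cases hs : ∀ t, Sup (x t) (y t)
    · have c1 := card_fail (k := k) hs
      have c2 : (∑ H : (Fin n → Option (Fin 4)) → (Fin k → Bool),
          (if Fail H x y then (1 : ℝ) else 0)) =
          (univ.filter fun H : (Fin n → Option (Fin 4)) → (Fin k → Bool) => Fail H x y).card := by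
        rw [Finset.sum_boole]
      have c3 : ((univ.filter fun H : (Fin n → Option (Fin 4)) → (Fin k → Bool) =>
          Fail H x y).card : ℝ) ≤
          Fintype.card ((Fin n → Option (Fin 4)) → (Fin k → Bool)) := by
        exact_mod_cast card_le_univ _
      have c4 : ((univ.filter fun H : (Fin n → Option (Fin 4)) → (Fin k → Bool) =>
          Fail H x y).card : ℝ) * 2 ^ k ≤
          (∏ t, (mm (x t) : ℝ)) *
            Fintype.card ((Fin n → Option (Fin 4)) → (Fin k → Bool)) := by
        exact_mod_cast c1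
      have c5 := min_le_rpow (t := (∏ t, (mm (x t) : ℝ)) / 2 ^ k) (θ := θ)
        (p := ((univ.filter fun H : (Fin n → Option (Fin 4)) → (Fin k → Bool) =>
          Fail H x y).card : ℝ) / Fintype.card ((Fin n → Option (Fin 4)) → (Fin k → Bool)))
        (div_nonneg (prod_nonneg fun t _ => Nat.cast_nonneg _) (by positivity)) h0 h1
        (by rw [div_le_one hcard]; exact c3)
        (by rw [div_le_div_iff₀ hcard (by positivity)]; exact c4)
      rw [div_le_iff₀ hcard] at c5
      have c6 : ((∏ t, (mm (x t) : ℝ)) / 2 ^ k) ^ θ =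
          2 ^ (-(k * θ)) * ∏ t, (mm (x t) : ℝ) ^ θ := by
        rw [Real.div_rpow (prod_nonneg fun t _ => Nat.cast_nonneg _) (by positivity),
          ← Real.rpow_natCast, ← Real.rpow_mul (by norm_num), Real.rpow_neg (by norm_num),
          Real.finsetProd_rpow _ _ (fun t _ => Nat.cast_nonneg _)]
        field_simp
      rw [c6] at c5
      rw [c2]
      have hn : 0 ≤ npow n (mu0 l) x y := prod_nonneg fun t _ => mu0_nonneg hl hl1 _ _
      refine (mul_le_mul_of_nonneg_left c5 hn).trans (le_of_eq ?_)
      rw [prod_mul_distrib]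
      unfold npow
      ring
    · have hz : npow n (mu0 l) x y = 0 := by
        push Not at hs
        obtain ⟨t, ht⟩ := hs
        unfold npow
        exact prod_eq_zero (mem_univ t) (by by_contra h; exact ht (sup_of_mu0 h))
      rw [hz, zero_mul]
      refine mul_nonneg (mul_nonneg hcard.le (by positivity)) (prod_nonneg fun t _ =>
        mul_nonneg (mu0_nonneg hl hl1 _ _) (by positivity))
  have hsum : ∑ x : Fin n → In, ∑ y : Fin n → In, ∏ t, mu0 l (x t) (y t) * (mm (x t) : ℝ) ^ θ =
      (1 - l + l * 2 ^ θ) ^ n := by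
    rw [sum_npow n (fun a b => mu0 l a b * (mm a : ℝ) ^ θ)]
    congr 1
    rw [mu0_sum l (fun a _ => (mm a : ℝ) ^ θ)]
    have : ∀ i j : Fin 4, (if i = j then (0 : ℝ) else
        ((1 - l) * (mm (sg i) : ℝ) ^ θ + l * (mm (pr i j) : ℝ) ^ θ)) =
        if i = j then 0 else (1 - l + l * 2 ^ θ) := by
      intro i j
      by_cases h : i = j
      · rw [if_pos h, if_pos h]
      · rw [if_neg h, if_neg h, mm_sg, mm_pr i j h]
        simp
    simp_rw [this]
    simp [Fin.sum_univ_four]
    ring
  have htot : ∑ H : (Fin n → Option (Fin 4)) → (Fin k → Bool),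
      ∑ x : Fin n → In, ∑ y : Fin n → In, npow n (mu0 l) x y * (if Fail H x y then (1 : ℝ) else 0) ≤
      ∑ _H : (Fin n → Option (Fin 4)) → (Fin k → Bool),
        (1 - l + l * 2 ^ θ) ^ n * 2 ^ (-(k * θ)) := by
    rw [sum_const, nsmul_eq_mul, card_univ, ← hsum, sum_comm]
    have e1 : (Fintype.card ((Fin n → Option (Fin 4)) → (Fin k → Bool)) : ℝ) *
        ((∑ x : Fin n → In, ∑ y : Fin n → In, ∏ t, mu0 l (x t) (y t) * (mm (x t) : ℝ) ^ θ) *
          2 ^ (-(k * θ))) =
        ∑ x : Fin n → In, ∑ y : Fin n → In,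
          (Fintype.card ((Fin n → Option (Fin 4)) → (Fin k → Bool)) : ℝ) * 2 ^ (-(k * θ)) *
        ∏ t, mu0 l (x t) (y t) * (mm (x t) : ℝ) ^ θ := by
      simp_rw [← mul_sum]
      ring
    rw [e1]
    refine sum_le_sum fun x _ => ?_
    rw [sum_comm]
    refine sum_le_sum fun y _ => ?_
    rw [← mul_sum]
    exact key x y
  obtain ⟨H, _, hH⟩ := exists_le_of_sum_le univ_nonempty htot
  exact ⟨H, hH⟩

end proto

end Pool.Agent.K9h88.IC
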