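import Mathlib

/-! Elementary inequalities for `y * log (y / c)`. -/

namespace Pool.Agent.K9h88.IC

/-- `y log (y / c)`. -/
noncomputable def kl (y c : ℝ) : ℝ := y * Real.log (y / c)

@[simp] lemma kl_zero (c : ℝ) : kl 0 c = 0 := by simp [kl]

lemma kl_ge {y c : ℝ} (hy : 0 ≤ y) (hc : 0 ≤ c) (h : c = 0 → y = 0) : y - c ≤ kl y c := by
  rcases hy.eq_or_lt with rfl | hy'
  · simpa using hc
  · have hc' : 0 < c := lt_of_le_of_ne hc (fun h0 => hy'.ne' (h h0.symm))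
    have h1 := Real.one_sub_inv_le_log_of_pos (div_pos hy' hc')
    have h2 : y * (1 - (y / c)⁻¹) ≤ y * Real.log (y / c) :=
      mul_le_mul_of_nonneg_left h1 hy
    have h3 : y * (1 - (y / c)⁻¹) = y - c := by
      field_simp
    unfold kl
    linarith

lemma kl_ge_sq {y c M : ℝ} (hy : 0 ≤ y) (hc : 0 ≤ c) (h : c = 0 → y = 0) (hM : 0 < M)
    (hyc : y + c ≤ M) : (y - c) ^ 2 / (2 * M) ≤ kl y c - y + c := by
  -- `(√y - √c)² ≤ kl y c - y + c`
  have key : (√y - √c) ^ 2 ≤ kl y c - y + c := by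
    rcases hy.eq_or_lt with rfl | hy'
    · simp [Real.sq_sqrt hc]
    · have hc' : 0 < c := lt_of_le_of_ne hc (fun h0 => hy'.ne' (h h0.symm))
      have hpos : 0 < √c / √y := div_pos (Real.sqrt_pos.2 hc') (Real.sqrt_pos.2 hy')
      have h1 : Real.log (√c / √y) ≤ √c / √y - 1 := Real.log_le_sub_one_of_pos hpos
      have h2 : Real.log (y / c) = -2 * Real.log (√c / √y) := by
        rw [Real.log_div hy'.ne' hc'.ne', Real.log_div (Real.sqrt_pos.2 hc').ne'
          (Real.sqrt_pos.2 hy').ne', Real.log_sqrt hc, Real.log_sqrt hy]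
        ring
      have h3 : y * (√c / √y) = √y * √c := by
        have : y = √y * √y := (Real.mul_self_sqrt hy).symm
        have hne : √y ≠ 0 := (Real.sqrt_pos.2 hy').ne'
        calc y * (√c / √y) = (√y * √y) * (√c / √y) := by rw [← this]
          _ = √y * √c := by field_simp
      have h4 : kl y c = -2 * (y * Real.log (√c / √y)) := by
        unfold kl; rw [h2]; ring
      have h5 : y * Real.log (√c / √y) ≤ √y * √c - y := by
        have := mul_le_mul_of_nonneg_left h1 hy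
        calc y * Real.log (√c / √y) ≤ y * (√c / √y - 1) := this
          _ = √y * √c - y := by rw [mul_sub, h3]; ring
      have h6 : (√y - √c) ^ 2 = y + c - 2 * (√y * √c) := by
        have e1 := Real.sq_sqrt hy
        have e2 := Real.sq_sqrt hc
        ring_nf
        rw [e1, e2]
      rw [h6, h4]; linarith
  have h7 : (y - c) ^ 2 = (√y - √c) ^ 2 * (√y + √c) ^ 2 := by
    have e1 := Real.sq_sqrt hy
    have e2 := Real.sq_sqrt hc
    have : y - c = (√y - √c) * (√y + √c) := by ring_nf; rw [e1, e2]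
    rw [this]; ring
  have h8 : (√y + √c) ^ 2 ≤ 2 * M := by
    have e1 := Real.sq_sqrt hy
    have e2 := Real.sq_sqrt hc
    nlinarith [sq_nonneg (√y - √c)]
  rw [div_le_iff₀ (by positivity)]
  rw [h7]
  calc (√y - √c) ^ 2 * (√y + √c) ^ 2 ≤ (√y - √c) ^ 2 * (2 * M) :=
        mul_le_mul_of_nonneg_left h8 (sq_nonneg _)
    _ ≤ (kl y c - y + c) * (2 * M) := mul_le_mul_of_nonneg_right key (by positivity)

/-- The deficit in the log-sum inequality. -/
lemma kl_def {y1 y2 c1 c2 M1 M2 : ℝ} (hy1 : 0 ≤ y1) (hy2 : 0 ≤ y2) (hc1 : 0 ≤ c1) (hc2 : 0 ≤ c2)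
    (h1 : c1 = 0 → y1 = 0) (h2 : c2 = 0 → y2 = 0) (hc : 0 < c1 + c2) (hM1 : 0 < M1) (hM2 : 0 < M2)
    (hb1 : y1 + c1 * ((y1 + y2) / (c1 + c2)) ≤ M1) (hb2 : y2 + c2 * ((y1 + y2) / (c1 + c2)) ≤ M2) :
    (y1 * c2 - y2 * c1) ^ 2 / (2 * (c1 + c2) ^ 2) * (1 / M1 + 1 / M2) ≤
      kl y1 c1 + kl y2 c2 - kl (y1 + y2) (c1 + c2) := by
  rcases (add_nonneg hy1 hy2).eq_or_lt with h0 | hpos
  · have e1 : y1 = 0 := by linarith
    have e2 : y2 = 0 := by linarith
    subst e1; subst e2; simp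
  · set ρ := (y1 + y2) / (c1 + c2) with hρ
    have hρpos : 0 < ρ := div_pos hpos hc
    have shift : ∀ y c : ℝ, 0 ≤ y → 0 ≤ c → (c = 0 → y = 0) →
        kl y (c * ρ) = kl y c - y * Real.log ρ := by
      intro y c hy hc' h
      rcases hy.eq_or_lt with rfl | hy'
      · simp
      · have hcp : 0 < c := lt_of_le_of_ne hc' (fun h0 => hy'.ne' (h h0.symm))
        unfold kl
        rw [Real.log_div hy'.ne' (mul_pos hcp hρpos).ne', Real.log_div hy'.ne' hcp.ne',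
          Real.log_mul hcp.ne' hρpos.ne']
        ring
    have hz1 : c1 * ρ = 0 → y1 = 0 := fun h => h1 (by
      rcases mul_eq_zero.1 h with h | h
      · exact h
      · exact absurd h hρpos.ne')
    have hz2 : c2 * ρ = 0 → y2 = 0 := fun h => h2 (by
      rcases mul_eq_zero.1 h with h | h
      · exact h
      · exact absurd h hρpos.ne')
    have k1 := kl_ge_sq hy1 (mul_nonneg hc1 hρpos.le) hz1 hM1 hb1
    have k2 := kl_ge_sq hy2 (mul_nonneg hc2 hρpos.le) hz2 hM2 hb2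
    rw [shift y1 c1 hy1 hc1 h1] at k1
    rw [shift y2 c2 hy2 hc2 h2] at k2
    have e0 : kl (y1 + y2) (c1 + c2) = (y1 + y2) * Real.log ρ := rfl
    have e1 : y1 - c1 * ρ = (y1 * c2 - y2 * c1) / (c1 + c2) := by
      rw [hρ]; field_simp; ring
    have e2 : y2 - c2 * ρ = -((y1 * c2 - y2 * c1) / (c1 + c2)) := by
      rw [hρ]; field_simp; ring
    have e3 : c1 * ρ + c2 * ρ = y1 + y2 := by
      rw [hρ]; field_simp
    rw [e1] at k1
    rw [e2] at k2
    have e4 : (y1 * c2 - y2 * c1) ^ 2 / (2 * (c1 + c2) ^ 2) * (1 / M1 + 1 / M2)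
        = ((y1 * c2 - y2 * c1) / (c1 + c2)) ^ 2 / (2 * M1)
          + (-((y1 * c2 - y2 * c1) / (c1 + c2))) ^ 2 / (2 * M2) := by
      field_simp
    rw [e4, e0]
    have := add_le_add k1 k2
    nlinarith [this, e3]

lemma kl_superadd {y1 y2 c1 c2 : ℝ} (hy1 : 0 ≤ y1) (hy2 : 0 ≤ y2) (hc1 : 0 ≤ c1) (hc2 : 0 ≤ c2)
    (h1 : c1 = 0 → y1 = 0) (h2 : c2 = 0 → y2 = 0) :
    kl (y1 + y2) (c1 + c2) ≤ kl y1 c1 + kl y2 c2 := by
  rcases (add_nonneg hc1 hc2).eq_or_lt with h0 | hpos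
  · have e1 : c1 = 0 := by linarith
    have e2 : c2 = 0 := by linarith
    simp [h1 e1, h2 e2]
  · have hq : 0 ≤ (y1 + y2) / (c1 + c2) := div_nonneg (add_nonneg hy1 hy2) hpos.le
    have hM1 : 0 < y1 + c1 * ((y1 + y2) / (c1 + c2)) + 1 := by positivity
    have hM2 : 0 < y2 + c2 * ((y1 + y2) / (c1 + c2)) + 1 := by positivity
    have := kl_def hy1 hy2 hc1 hc2 h1 h2 hpos hM1 hM2 (by linarith) (by linarith)
    have h3 : 0 ≤ (y1 * c2 - y2 * c1) ^ 2 / (2 * (c1 + c2) ^ 2) *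
      (1 / (y1 + c1 * ((y1 + y2) / (c1 + c2)) + 1) +
        1 / (y2 + c2 * ((y1 + y2) / (c1 + c2)) + 1)) := by positivity
    linarith

lemma kl_smul {y c w : ℝ} (hw : 0 ≤ w) : kl (w * y) (w * c) = w * kl y c := by
  rcases hw.eq_or_lt with rfl | hw'
  · simp
  · unfold kl
    rw [mul_div_mul_left _ _ hw'.ne']; ring

end Pool.Agent.K9h88.IC
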