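import Pool.Agent.K9h88.IC.Acc

/-! The lower bound on the external information. -/

namespace Pool.Agent.K9h88.IC

open Finset

/-- the inputs -/
abbrev In : Type := Fin 4 → Bool

/-- singleton -/
def sg (i : Fin 4) : In := fun k => decide (k = i)
/-- pair -/
def pr (i j : Fin 4) : In := fun k => decide (k = i ∨ k = j)

/-- the intersection function -/
def inter (x y : In) : Bool := decide (∃ k, x k = true ∧ y k = true)

lemma pr_comm (i j : Fin 4) : pr i j = pr j i := by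
  funext k; unfold pr; congr 1; exact propext or_comm

lemma inter_sg_sg (i k : Fin 4) : inter (sg i) (sg k) = decide (i = k) := by
  revert i k; decide

lemma inter_sg_pr (i k l : Fin 4) : inter (sg i) (pr k l) = decide (i = k ∨ i = l) := by
  revert i k l; decide

lemma inter_pr_sg (i k l : Fin 4) : inter (pr k l) (sg i) = decide (i = k ∨ i = l) := by
  revert i k l; decide

/-- products for the first part of the distribution -/
noncomputable def Am (a b : In → ℝ) (i j : Fin 4) : ℝ :=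
  if i = j then 0 else a (sg i) * b (pr i j)
/-- products for the second part of the distribution -/
noncomputable def Bm (a b : In → ℝ) (i j : Fin 4) : ℝ :=
  if i = j then 0 else a (pr i j) * b (sg i)

lemma Am_nonneg {a b : In → ℝ} (ha : ∀ x, 0 ≤ a x) (hb : ∀ y, 0 ≤ b y) (i j : Fin 4) :
    0 ≤ Am a b i j := by
  unfold Am; split_ifs
  · exact le_rfl
  · exact mul_nonneg (ha _) (hb _)

lemma Bm_nonneg {a b : In → ℝ} (ha : ∀ x, 0 ≤ a x) (hb : ∀ y, 0 ≤ b y) (i j : Fin 4) :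
    0 ≤ Bm a b i j := by
  unfold Bm; split_ifs
  · exact le_rfl
  · exact mul_nonneg (ha _) (hb _)

lemma shape_of_mono {a b : In → ℝ} {z : Bool} (h : Mono inter z a b) :
    Shape fun i j => Am a b i j ≠ 0 ∨ Bm a b i j ≠ 0 := by
  have hA : ∀ i j, Am a b i j ≠ 0 → i ≠ j ∧ a (sg i) ≠ 0 ∧ b (pr i j) ≠ 0 := by
    intro i j hij
    unfold Am at hij
    split_ifs at hij with h0
    · exact absurd rfl hij
    · exact ⟨h0, left_ne_zero_of_mul hij, right_ne_zero_of_mul hij⟩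
  have hB : ∀ i j, Bm a b i j ≠ 0 → i ≠ j ∧ a (pr i j) ≠ 0 ∧ b (sg i) ≠ 0 := by
    intro i j hij
    unfold Bm at hij
    split_ifs at hij with h0
    · exact absurd rfl hij
    · exact ⟨h0, left_ne_zero_of_mul hij, right_ne_zero_of_mul hij⟩
  refine shape_of_swap ?_ ?_
  · rintro i (h0 | h0)
    · exact (hA i i h0).1 rfl
    · exact (hB i i h0).1 rfl
  · rintro i j k l (h1 | h1) (h2 | h2) hik
    · obtain ⟨-, a1, b1⟩ := hA i j h1
      obtain ⟨-, a2, b2⟩ := hA k l h2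
      have z1 := h _ _ a1 b1
      have z2 := h _ _ a1 b2
      have z3 := h _ _ a2 b1
      rw [inter_sg_pr] at z1 z2 z3
      simp only [true_or, decide_true] at z1
      rw [z1] at z2 z3
      have z2' := of_decide_eq_true z2.symm
      have z3' := of_decide_eq_true z3.symm
      refine ⟨?_, ?_⟩
      · rcases z3' with h | h
        · exact absurd h.symm hik
        · exact h
      · rcases z2' with h | h
        · exact absurd h hik
        · exact h.symm
    · obtain ⟨-, a1, b1⟩ := hA i j h1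
      obtain ⟨-, a2, b2⟩ := hB k l h2
      have z1 := h _ _ a1 b1
      have z2 := h _ _ a1 b2
      rw [inter_sg_pr] at z1
      rw [inter_sg_sg] at z2
      simp only [true_or, decide_true] at z1
      rw [z1] at z2
      exact absurd (of_decide_eq_true z2.symm) hik
    · obtain ⟨-, a1, b1⟩ := hB i j h1
      obtain ⟨-, a2, b2⟩ := hA k l h2
      have z1 := h _ _ a1 b1
      have z2 := h _ _ a2 b1
      rw [inter_pr_sg] at z1
      rw [inter_sg_sg] at z2
      simp only [true_or, decide_true] at z1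
      rw [z1] at z2
      exact absurd (of_decide_eq_true z2.symm).symm hik
    · obtain ⟨-, a1, b1⟩ := hB i j h1
      obtain ⟨-, a2, b2⟩ := hB k l h2
      have z1 := h _ _ a1 b1
      have z2 := h _ _ a1 b2
      have z3 := h _ _ a2 b1
      rw [inter_pr_sg] at z1 z2 z3
      simp only [true_or, decide_true] at z1
      rw [z1] at z2 z3
      have z2' := of_decide_eq_true z2.symm
      have z3' := of_decide_eq_true z3.symm
      refine ⟨?_, ?_⟩
      · rcases z2' with h | h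
        · exact absurd h.symm hik
        · exact h
      · rcases z3' with h | h
        · exact absurd h hik
        · exact h.symm

/-- The pair potential at a leaf. -/
lemma TT_leaf {τ si sj p ti tj r : ℝ} (hτ : 0 < τ) (hsi : 0 ≤ si) (hsj : 0 ≤ sj)
    (hp : 0 ≤ p) (hti : 0 ≤ ti) (htj : 0 ≤ tj) (hr : 0 ≤ r) (hi : p ≠ 0 → ti ≠ 0 → sj = 0)
    (hj : p ≠ 0 → tj ≠ 0 → si = 0) :
    TT τ si sj p ti tj r ≤
      kl (p * ti) (si * r + τ ^ 2 * (p * ti)) + kl (p * tj) (sj * r + τ ^ 2 * (p * tj)) := by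
  have one : ∀ s t r : ℝ, 0 ≤ s → 0 < t → 0 ≤ r → 0 < p →
      p * kl t (r + τ * t) + t * kl p (s + τ * p) ≤ kl (p * t) (s * r + τ ^ 2 * (p * t)) := by
    intro s t r hs ht hr hp'
    have d1 : 0 < r + τ * t := by positivity
    have d2 : 0 < s + τ * p := by positivity
    have d3 : 0 < s * r + τ ^ 2 * (p * t) := by positivity
    have e : p * kl t (r + τ * t) + t * kl p (s + τ * p) =
        kl (p * t) ((r + τ * t) * (s + τ * p)) := by
      unfold kl
      rw [Real.log_div ht.ne' d1.ne', Real.log_div hp'.ne' d2.ne',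
        Real.log_div (mul_pos hp' ht).ne' (mul_pos d1 d2).ne', Real.log_mul hp'.ne' ht.ne',
        Real.log_mul d1.ne' d2.ne']
      ring
    rw [e]
    unfold kl
    refine mul_le_mul_of_nonneg_left (Real.log_le_log (by positivity) ?_) (by positivity)
    refine div_le_div_of_nonneg_left (by positivity) d3 ?_
    have h1 : 0 ≤ r * (τ * p) := by positivity
    have h2 : 0 ≤ τ * t * s := by positivity
    nlinarith
  rcases hp.eq_or_lt with h0 | hp'
  · subst h0
    simp [TT]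
  rcases hti.eq_or_lt with hi0 | hi'
  · subst hi0
    rcases htj.eq_or_lt with hj0 | hj'
    · subst hj0; simp [TT]
    · have := one sj tj r hsj hj' hr hp'
      unfold TT
      simp only [zero_add, zero_mul, mul_zero, add_zero, kl_zero]
      linarith
  · rcases htj.eq_or_lt with hj0 | hj'
    · subst hj0
      have := one si ti r hsi hi' hr hp'
      unfold TT
      simp only [zero_mul, mul_zero, add_zero, kl_zero]
      linarith
    · have hs1 := hi hp'.ne' hi'.ne'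
      have hs2 := hj hp'.ne' hj'.ne'
      subst hs1; subst hs2
      have k1 : kl (ti + tj) (r + τ * (ti + tj)) ≤ (ti + tj) * (-Real.log τ) := by
        unfold kl
        refine mul_le_mul_of_nonneg_left ?_ (by positivity)
        rw [← Real.log_inv]
        refine Real.log_le_log (by positivity) ?_
        rw [div_le_iff₀ (by positivity), mul_add, ← mul_assoc, inv_mul_cancel₀ hτ.ne']
        have : 0 ≤ τ⁻¹ * r := by positivity
        linarith
      have k2 : kl p (0 + τ * p) = p * (-Real.log τ) := by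
        unfold kl
        rw [zero_add, Real.log_div hp'.ne' (by positivity), Real.log_mul hτ.ne' hp'.ne']
        ring
      have k3 : ∀ t, 0 < t → kl (p * t) (0 * r + τ ^ 2 * (p * t)) =
          p * t * (-(2 * Real.log τ)) := by
        intro t ht
        unfold kl
        have hpt : p * t ≠ 0 := (mul_pos hp' ht).ne'
        rw [zero_mul, zero_add, Real.log_div hpt (by positivity),
          Real.log_mul (pow_pos hτ 2).ne' hpt, Real.log_pow]
        push_cast
        ring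
      rw [k3 ti hi', k3 tj hj']
      unfold TT
      rw [k2]
      have := mul_le_mul_of_nonneg_left k1 hp
      nlinarith

/-- the six coordinates on the labels `0,1,2` -/
noncomputable def av (a : In → ℝ) : Fin 6 → ℝ :=
  ![a (sg 0), a (sg 1), a (sg 2), a (pr 0 1), a (pr 0 2), a (pr 1 2)]

lemma av_add (a1 a2 : In → ℝ) : av (a1 + a2) = av a1 + av a2 := by
  funext i; fin_cases i <;> rfl

lemma av_nonneg {a : In → ℝ} (ha : ∀ x, 0 ≤ a x) (i : Fin 6) : 0 ≤ av a i := by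
  fin_cases i <;> exact ha _

/-- the full potential -/
noncomputable def GT (τ : ℝ) (a b : In → ℝ) : ℝ :=
  G3 τ (av a) (av b) +
    TT τ (a (sg 0)) (a (sg 3)) (a (pr 0 3)) (b (sg 0)) (b (sg 3)) (b (pr 0 3)) +
    TT τ (a (sg 1)) (a (sg 3)) (a (pr 1 3)) (b (sg 1)) (b (sg 3)) (b (pr 1 3)) +
    TT τ (a (sg 2)) (a (sg 3)) (a (pr 2 3)) (b (sg 2)) (b (sg 3)) (b (pr 2 3))

lemma GT_superadd_a {τ : ℝ} (hτ : 0 < τ) (hτ6 : τ ≤ 1 / 6) (a1 a2 b : In → ℝ)
    (h1 : ∀ x, 0 ≤ a1 x) (h2 : ∀ x, 0 ≤ a2 x) (hb : ∀ y, 0 ≤ b y) :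
    GT τ (a1 + a2) b ≤ GT τ a1 b + GT τ a2 b := by
  unfold GT
  rw [av_add]
  simp only [Pi.add_apply]
  have k0 := G3_superadd_a hτ hτ6 (av_nonneg h1) (av_nonneg h2) (av_nonneg hb)
  have k1 := TT_sa (r := b (pr 0 3)) hτ (h1 (sg 0)) (h2 (sg 0)) (h1 (sg 3)) (h2 (sg 3))
    (h1 (pr 0 3)) (h2 (pr 0 3)) (hb (sg 0)) (hb (sg 3))
  have k2 := TT_sa (r := b (pr 1 3)) hτ (h1 (sg 1)) (h2 (sg 1)) (h1 (sg 3)) (h2 (sg 3))
    (h1 (pr 1 3)) (h2 (pr 1 3)) (hb (sg 1)) (hb (sg 3))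
  have k3 := TT_sa (r := b (pr 2 3)) hτ (h1 (sg 2)) (h2 (sg 2)) (h1 (sg 3)) (h2 (sg 3))
    (h1 (pr 2 3)) (h2 (pr 2 3)) (hb (sg 2)) (hb (sg 3))
  linarith

lemma GT_superadd_b {τ : ℝ} (hτ : 0 < τ) (hτ6 : τ ≤ 1 / 6) (a b1 b2 : In → ℝ)
    (ha : ∀ x, 0 ≤ a x) (h1 : ∀ x, 0 ≤ b1 x) (h2 : ∀ y, 0 ≤ b2 y) :
    GT τ a (b1 + b2) ≤ GT τ a b1 + GT τ a b2 := by
  unfold GT
  rw [av_add]
  simp only [Pi.add_apply]
  have k0 := G3_superadd_b hτ hτ6 (av_nonneg ha) (av_nonneg h1) (av_nonneg h2)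
  have k1 := TT_sb (s := a (sg 0)) (u := a (sg 3)) hτ (ha (pr 0 3)) (h1 (sg 0)) (h2 (sg 0))
    (h1 (sg 3)) (h2 (sg 3)) (h1 (pr 0 3)) (h2 (pr 0 3))
  have k2 := TT_sb (s := a (sg 1)) (u := a (sg 3)) hτ (ha (pr 1 3)) (h1 (sg 1)) (h2 (sg 1))
    (h1 (sg 3)) (h2 (sg 3)) (h1 (pr 1 3)) (h2 (pr 1 3))
  have k3 := TT_sb (s := a (sg 2)) (u := a (sg 3)) hτ (ha (pr 2 3)) (h1 (sg 2)) (h2 (sg 2))
    (h1 (sg 3)) (h2 (sg 3)) (h1 (pr 2 3)) (h2 (pr 2 3))
  linarith

lemma psi_leaf {a b : In → ℝ} {z : Bool} (ha : ∀ x, 0 ≤ a x) (hb : ∀ y, 0 ≤ b y)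
    (h : Mono inter z a b) : psi (av a) (av b) = 0 := by
  refine max_eq_left (not_lt.1 fun hq => ?_)
  obtain ⟨hSa, hSb, hra⟩ := range_of_qf_pos (av_nonneg ha) (av_nonneg hb) hq
  have hrb := (range_of_qf_pos (av_nonneg hb) (av_nonneg ha) (by rw [qf_comm]; exact hq)).2.2
  have h0 : a (sg 0) ≠ 0 := by
    have : sm (av a) / 12 ≤ a (sg 0) := (hra 0).1
    exact (lt_of_lt_of_le (by positivity) this).ne'
  have h1 : b (sg 1) ≠ 0 := by
    have : sm (av b) / 12 ≤ b (sg 1) := (hrb 1).1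
    exact (lt_of_lt_of_le (by positivity) this).ne'
  have h2 : b (pr 0 1) ≠ 0 := by
    have : sm (av b) / 12 ≤ b (pr 0 1) := (hrb 3).1
    exact (lt_of_lt_of_le (by positivity) this).ne'
  have e1 := h _ _ h0 h1
  have e2 := h _ _ h0 h2
  rw [e1] at e2
  revert e2
  decide

lemma sum_four (f : Fin 4 → Fin 4 → ℝ) (hd : ∀ i, f i i = 0) :
    ∑ i, ∑ j, f i j = (f 0 1 + f 1 0) + (f 0 2 + f 2 0) + (f 1 2 + f 2 1) + (f 0 3 + f 3 0) +
      (f 1 3 + f 3 1) + (f 2 3 + f 3 2) := by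
  simp only [Fin.sum_univ_four, hd]
  ring

lemma GT_leaf {τ : ℝ} (hτ : 0 < τ) {a b : In → ℝ} {z : Bool} (ha : ∀ x, 0 ≤ a x)
    (hb : ∀ y, 0 ≤ b y) (h : Mono inter z a b) :
    GT τ a b ≤ (∑ i, ∑ j, kl (Bm a b i j) (Am a b i j + τ ^ 2 * Bm a b i j)) +
      20 * penA (Am a b) := by
  rw [sum_four (fun i j => kl (Bm a b i j) (Am a b i j + τ ^ 2 * Bm a b i j))
    (fun i => by simp [Bm])]
  have key : ∀ i j : Fin 4, i ≠ j →
      TT τ (a (sg i)) (a (sg j)) (a (pr i j)) (b (sg i)) (b (sg j)) (b (pr i j)) ≤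
        kl (Bm a b i j) (Am a b i j + τ ^ 2 * Bm a b i j) +
          kl (Bm a b j i) (Am a b j i + τ ^ 2 * Bm a b j i) := by
    intro i j hij
    have hji : j ≠ i := hij.symm
    simp only [Bm, Am, if_neg hij, if_neg hji, pr_comm j i]
    refine TT_leaf hτ (ha _) (ha _) (ha _) (hb _) (hb _) (hb _) ?_ ?_
    · intro hp hti
      by_contra hs
      have e1 := h _ _ hp hti
      have e2 := h _ _ hs hti
      rw [inter_pr_sg] at e1
      rw [inter_sg_sg] at e2
      simp only [true_or, decide_true] at e1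
      rw [e1] at e2
      exact hji (of_decide_eq_true e2.symm)
    · intro hp htj
      by_contra hs
      have e1 := h _ _ hp htj
      have e2 := h _ _ hs htj
      rw [inter_pr_sg] at e1
      rw [inter_sg_sg] at e2
      simp only [or_true, decide_true] at e1
      rw [e1] at e2
      exact hij (of_decide_eq_true e2.symm)
  have hpen : pn (a (sg 0)) (a (sg 1)) (a (sg 2)) (b (pr 0 1)) (b (pr 0 2)) (b (pr 1 2)) =
      penA (Am a b) := by
    have hk : ∀ s x y : ℝ, 0 ≤ s → s * (kl x ((x + y) / 2) + kl y ((y + x) / 2)) =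
        h2 (s * x) (s * y) := by
      intro s x y hs
      unfold h2
      have e1 : (s * x + s * y) / 2 = s * ((x + y) / 2) := by ring
      have e2 : (s * y + s * x) / 2 = s * ((y + x) / 2) := by ring
      rw [e1, e2, kl_smul hs, kl_smul hs]; ring
    unfold pn penA Am
    rw [hk _ _ _ (ha _), hk _ _ _ (ha _), hk _ _ _ (ha _)]
    rw [pr_comm 1 0, pr_comm 2 0, pr_comm 2 1]
    simp
  have hps := psi_leaf ha hb h
  have k01 := key 0 1 (by decide)
  have k02 := key 0 2 (by decide)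
  have k12 := key 1 2 (by decide)
  have k03 := key 0 3 (by decide)
  have k13 := key 1 3 (by decide)
  have k23 := key 2 3 (by decide)
  have hG3 : G3 τ (av a) (av b) =
      TT τ (a (sg 0)) (a (sg 1)) (a (pr 0 1)) (b (sg 0)) (b (sg 1)) (b (pr 0 1)) +
      TT τ (a (sg 0)) (a (sg 2)) (a (pr 0 2)) (b (sg 0)) (b (sg 2)) (b (pr 0 2)) +
      TT τ (a (sg 1)) (a (sg 2)) (a (pr 1 2)) (b (sg 1)) (b (sg 2)) (b (pr 1 2)) +
      20 * pn (a (sg 0)) (a (sg 1)) (a (sg 2)) (b (pr 0 1)) (b (pr 0 2)) (b (pr 1 2)) +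
      1 / 10 ^ 6 * psi (av a) (av b) := rfl
  unfold GT
  rw [hG3, hps, hpen]
  linarith

/-- The functional at a leaf (twelve times the information, in nats). -/
noncomputable def LI (l : ℝ) (a b : In → ℝ) : ℝ :=
  let P := (∑ i, ∑ j, ((1 - l) * Am a b i j + l * Bm a b i j)) / 12
  ∑ i, ∑ j, ((1 - l) * kl (Am a b i j) P + l * kl (Bm a b i j) P)

/-- The separately superadditive minorant. -/
noncomputable def GG (τ l : ℝ) (a b : In → ℝ) : ℝ :=
  (∑ i, ∑ j, ((1 - l) * Am a b i j + l * Bm a b i j)) * Real.log 4 +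
    l / (1 + 40 * τ ^ 2) * (GT τ a b + (1 - l) * ∑ i, ∑ j, (Am a b i j - Bm a b i j))

lemma GG_leaf {τ l : ℝ} (hτ : 0 < τ) (hl : 0 < l) (hl1 : l < 1) (hτl : τ ^ 2 * (1 - l) = l)
    {a b : In → ℝ} {z : Bool} (ha : ∀ x, 0 ≤ a x) (hb : ∀ y, 0 ≤ b y)
    (h : Mono inter z a b) : GG τ l a b ≤ LI l a b := by
  have key := leaf_lower (Am_nonneg ha hb) (Bm_nonneg ha hb) (shape_of_mono h) hl hl1 hτl
    (P := (∑ i, ∑ j, ((1 - l) * Am a b i j + l * Bm a b i j)) / 12) (by ring)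
  have h2 := GT_leaf hτ ha hb h
  have h3 : 0 ≤ l / (1 + 40 * τ ^ 2) := by positivity
  have h4 := mul_le_mul_of_nonneg_left h2 h3
  unfold GG LI
  simp only
  have e : 12 * ((∑ i, ∑ j, ((1 - l) * Am a b i j + l * Bm a b i j)) / 12) =
    ∑ i, ∑ j, ((1 - l) * Am a b i j + l * Bm a b i j) := by ring
  rw [e] at key
  refine le_trans ?_ key
  rw [mul_add] at *
  linarith

lemma Am_add_left (a1 a2 b : In → ℝ) (i j : Fin 4) :
    Am (a1 + a2) b i j = Am a1 b i j + Am a2 b i j := by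
  unfold Am; split_ifs
  · simp
  · simp only [Pi.add_apply]; ring

lemma Bm_add_left (a1 a2 b : In → ℝ) (i j : Fin 4) :
    Bm (a1 + a2) b i j = Bm a1 b i j + Bm a2 b i j := by
  unfold Bm; split_ifs
  · simp
  · simp only [Pi.add_apply]; ring

lemma Am_add_right (a b1 b2 : In → ℝ) (i j : Fin 4) :
    Am a (b1 + b2) i j = Am a b1 i j + Am a b2 i j := by
  unfold Am; split_ifs
  · simp
  · simp only [Pi.add_apply]; ring

lemma Bm_add_right (a b1 b2 : In → ℝ) (i j : Fin 4) :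
    Bm a (b1 + b2) i j = Bm a b1 i j + Bm a b2 i j := by
  unfold Bm; split_ifs
  · simp
  · simp only [Pi.add_apply]; ring

lemma GG_superadd_a {τ l : ℝ} (hτ : 0 < τ) (hτ6 : τ ≤ 1 / 6) (hl : 0 < l) (a1 a2 b : In → ℝ)
    (h1 : ∀ x, 0 ≤ a1 x) (h2 : ∀ x, 0 ≤ a2 x) (hb : ∀ y, 0 ≤ b y) :
    GG τ l (a1 + a2) b ≤ GG τ l a1 b + GG τ l a2 b := by
  have h3 : 0 ≤ l / (1 + 40 * τ ^ 2) := by positivity
  have h4 := mul_le_mul_of_nonneg_left (GT_superadd_a hτ hτ6 a1 a2 b h1 h2 hb) h3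
  have e1 : ∑ i, ∑ j, ((1 - l) * Am (a1 + a2) b i j + l * Bm (a1 + a2) b i j) =
      ∑ i, ∑ j, ((1 - l) * Am a1 b i j + l * Bm a1 b i j) +
        ∑ i, ∑ j, ((1 - l) * Am a2 b i j + l * Bm a2 b i j) := by
    simp only [← sum_add_distrib, Am_add_left, Bm_add_left]
    refine sum_congr rfl fun i _ => sum_congr rfl fun j _ => ?_
    ring
  have e2 : ∑ i, ∑ j, (Am (a1 + a2) b i j - Bm (a1 + a2) b i j) =
      ∑ i, ∑ j, (Am a1 b i j - Bm a1 b i j) + ∑ i, ∑ j, (Am a2 b i j - Bm a2 b i j) := by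
    simp only [← sum_add_distrib, Am_add_left, Bm_add_left]
    refine sum_congr rfl fun i _ => sum_congr rfl fun j _ => ?_
    ring
  unfold GG
  rw [e1, e2]
  linarith

lemma GG_superadd_b {τ l : ℝ} (hτ : 0 < τ) (hτ6 : τ ≤ 1 / 6) (hl : 0 < l) (a b1 b2 : In → ℝ)
    (ha : ∀ x, 0 ≤ a x) (h1 : ∀ x, 0 ≤ b1 x) (h2 : ∀ y, 0 ≤ b2 y) :
    GG τ l a (b1 + b2) ≤ GG τ l a b1 + GG τ l a b2 := by
  have h3 : 0 ≤ l / (1 + 40 * τ ^ 2) := by positivity
  have h4 := mul_le_mul_of_nonneg_left (GT_superadd_b hτ hτ6 a b1 b2 ha h1 h2) h3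
  have e1 : ∑ i, ∑ j, ((1 - l) * Am a (b1 + b2) i j + l * Bm a (b1 + b2) i j) =
      ∑ i, ∑ j, ((1 - l) * Am a b1 i j + l * Bm a b1 i j) +
        ∑ i, ∑ j, ((1 - l) * Am a b2 i j + l * Bm a b2 i j) := by
    simp only [← sum_add_distrib, Am_add_right, Bm_add_right]
    refine sum_congr rfl fun i _ => sum_congr rfl fun j _ => ?_
    ring
  have e2 : ∑ i, ∑ j, (Am a (b1 + b2) i j - Bm a (b1 + b2) i j) =
      ∑ i, ∑ j, (Am a b1 i j - Bm a b1 i j) + ∑ i, ∑ j, (Am a b2 i j - Bm a b2 i j) := by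
    simp only [← sum_add_distrib, Am_add_right, Bm_add_right]
    refine sum_congr rfl fun i _ => sum_congr rfl fun j _ => ?_
    ring
  unfold GG
  rw [e1, e2]
  linarith

end Pool.Agent.K9h88.IC
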