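import Pool.Agent.K9h88.IC.KL

/-! The separately convex potential. -/

namespace Pool.Agent.K9h88.IC

/-! ### Local deficits -/

lemma edge_def {s1 s2 p1 p2 S1 S2 τ : ℝ} (hs1 : 0 ≤ s1) (hs2 : 0 ≤ s2) (hp1 : 0 ≤ p1)
    (hp2 : 0 ≤ p2) (h1 : s1 + p1 ≤ S1) (h2 : s2 + p2 ≤ S2) (hS1 : 0 < S1) (hS2 : 0 < S2)
    (hlo : (S1 + S2) / 12 ≤ s1 + s2) (hlop : (S1 + S2) / 12 ≤ p1 + p2)
    (hhip : p1 + p2 ≤ (S1 + S2) / 4) (hτ : 0 < τ) (hτ6 : τ ≤ 1 / 6) :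
    (S1 + S2) ^ 3 / (4608 * (S1 * S2)) * (p1 / (p1 + p2) - s1 / (s1 + s2)) ^ 2 ≤
      kl p1 (s1 + τ * p1) + kl p2 (s2 + τ * p2) - kl (p1 + p2) (s1 + s2 + τ * (p1 + p2)) := by
  have hS : 0 < S1 + S2 := by positivity
  have hs : 0 < s1 + s2 := by linarith
  have hp : 0 < p1 + p2 := by linarith
  have hps : p1 + p2 ≤ 3 * (s1 + s2) := by linarith
  set c1 := s1 + τ * p1 with hc1d
  set c2 := s2 + τ * p2 with hc2d
  have hc1 : 0 ≤ c1 := by positivity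
  have hc2 : 0 ≤ c2 := by positivity
  have hcs : s1 + s2 + τ * (p1 + p2) = c1 + c2 := by rw [hc1d, hc2d]; ring
  have hc : 0 < c1 + c2 := by rw [← hcs]; positivity
  have hc2s : c1 + c2 ≤ 2 * (s1 + s2) := by
    rw [← hcs]
    nlinarith [mul_le_mul_of_nonneg_right hτ6 hp.le]
  have hratio : (p1 + p2) / (c1 + c2) ≤ 3 := by
    rw [div_le_iff₀ hc, ← hcs]
    nlinarith [mul_pos hτ hp]
  have hratio0 : 0 ≤ (p1 + p2) / (c1 + c2) := by positivity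
  have hc1S : c1 ≤ S1 := by
    have : τ * p1 ≤ 1 * p1 := mul_le_mul_of_nonneg_right (by linarith) hp1
    rw [hc1d]; linarith
  have hc2S : c2 ≤ S2 := by
    have : τ * p2 ≤ 1 * p2 := mul_le_mul_of_nonneg_right (by linarith) hp2
    rw [hc2d]; linarith
  have z1 : c1 = 0 → p1 = 0 := by
    intro h
    have : τ * p1 = 0 := by
      have := mul_nonneg hτ.le hp1
      linarith [hc1d ▸ h]
    rcases mul_eq_zero.1 this with h | h
    · exact absurd h hτ.ne'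
    · exact h
  have z2 : c2 = 0 → p2 = 0 := by
    intro h
    have : τ * p2 = 0 := by
      have := mul_nonneg hτ.le hp2
      linarith [hc2d ▸ h]
    rcases mul_eq_zero.1 this with h | h
    · exact absurd h hτ.ne'
    · exact h
  have hM1 : p1 + c1 * ((p1 + p2) / (c1 + c2)) ≤ 4 * S1 := by
    have : c1 * ((p1 + p2) / (c1 + c2)) ≤ S1 * 3 :=
      mul_le_mul hc1S hratio hratio0 hS1.le
    linarith
  have hM2 : p2 + c2 * ((p1 + p2) / (c1 + c2)) ≤ 4 * S2 := by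
    have : c2 * ((p1 + p2) / (c1 + c2)) ≤ S2 * 3 :=
      mul_le_mul hc2S hratio hratio0 hS2.le
    linarith
  have key := kl_def hp1 hp2 hc1 hc2 z1 z2 hc (by positivity : 0 < 4 * S1)
    (by positivity : 0 < 4 * S2) hM1 hM2
  rw [hcs]
  refine le_trans ?_ key
  have e1 : p1 * c2 - p2 * c1 = (p1 + p2) * (s1 + s2) * (p1 / (p1 + p2) - s1 / (s1 + s2)) := by
    rw [hc1d, hc2d]; field_simp; ring
  rw [e1]
  set d := p1 / (p1 + p2) - s1 / (s1 + s2)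
  have e2 : (S1 + S2) ^ 2 / 1152 ≤ ((p1 + p2) * (s1 + s2)) ^ 2 / (2 * (c1 + c2) ^ 2) := by
    rw [div_le_div_iff₀ (by norm_num) (by positivity)]
    have a1 : (c1 + c2) ^ 2 ≤ 4 * (s1 + s2) ^ 2 := by nlinarith
    have a2 : (S1 + S2) ^ 2 ≤ 144 * (p1 + p2) ^ 2 := by nlinarith
    calc (S1 + S2) ^ 2 * (2 * (c1 + c2) ^ 2)
        ≤ (144 * (p1 + p2) ^ 2) * (2 * (4 * (s1 + s2) ^ 2)) := by gcongr
      _ = ((p1 + p2) * (s1 + s2)) ^ 2 * 1152 := by ring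
  have e3 : 1 / (4 * S1) + 1 / (4 * S2) = (S1 + S2) / (4 * (S1 * S2)) := by
    field_simp; ring
  rw [e3]
  calc (S1 + S2) ^ 3 / (4608 * (S1 * S2)) * d ^ 2
      = ((S1 + S2) ^ 2 / 1152) * d ^ 2 * ((S1 + S2) / (4 * (S1 * S2))) := by field_simp; ring
    _ ≤ (((p1 + p2) * (s1 + s2)) ^ 2 / (2 * (c1 + c2) ^ 2)) * d ^ 2 *
          ((S1 + S2) / (4 * (S1 * S2))) := by gcongr
    _ = ((p1 + p2) * (s1 + s2) * d) ^ 2 / (2 * (c1 + c2) ^ 2) *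
          ((S1 + S2) / (4 * (S1 * S2))) := by ring

lemma pair_def {y1 y2 r1 r2 S1 S2 τ : ℝ} (hy1 : 0 ≤ y1) (hy2 : 0 ≤ y2) (hr1 : 0 ≤ r1)
    (hr2 : 0 ≤ r2) (h1 : y1 + r1 ≤ S1) (h2 : y2 + r2 ≤ S2) (hS1 : 0 < S1) (hS2 : 0 < S2)
    (hhi : y1 + y2 ≤ (S1 + S2) / 2) (hlor : (S1 + S2) / 12 ≤ r1 + r2)
    (hτ : 0 < τ) (hτ6 : τ ≤ 1 / 6) :
    (S1 + S2) / (56 * (S1 * S2)) * (y1 - (y1 + y2) * (r1 / (r1 + r2))) ^ 2 ≤
      kl y1 (r1 + τ * y1) + kl y2 (r2 + τ * y2) - kl (y1 + y2) (r1 + r2 + τ * (y1 + y2)) := by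
  have hS : 0 < S1 + S2 := by positivity
  have hr : 0 < r1 + r2 := by linarith
  have hyr : y1 + y2 ≤ 6 * (r1 + r2) := by linarith
  have hy : 0 ≤ y1 + y2 := by positivity
  set c1 := r1 + τ * y1 with hc1d
  set c2 := r2 + τ * y2 with hc2d
  have hc1 : 0 ≤ c1 := by positivity
  have hc2 : 0 ≤ c2 := by positivity
  have hcs : r1 + r2 + τ * (y1 + y2) = c1 + c2 := by rw [hc1d, hc2d]; ring
  have hc : 0 < c1 + c2 := by rw [← hcs]; positivity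
  have hc2s : c1 + c2 ≤ 2 * (r1 + r2) := by
    rw [← hcs]
    nlinarith [mul_le_mul_of_nonneg_right hτ6 hy]
  have hratio : (y1 + y2) / (c1 + c2) ≤ 6 := by
    rw [div_le_iff₀ hc, ← hcs]
    nlinarith [mul_nonneg hτ.le hy]
  have hratio0 : 0 ≤ (y1 + y2) / (c1 + c2) := by positivity
  have hc1S : c1 ≤ S1 := by
    have : τ * y1 ≤ 1 * y1 := mul_le_mul_of_nonneg_right (by linarith) hy1
    rw [hc1d]; linarith
  have hc2S : c2 ≤ S2 := by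
    have : τ * y2 ≤ 1 * y2 := mul_le_mul_of_nonneg_right (by linarith) hy2
    rw [hc2d]; linarith
  have z1 : c1 = 0 → y1 = 0 := by
    intro h
    have : τ * y1 = 0 := by
      have := mul_nonneg hτ.le hy1
      linarith [hc1d ▸ h]
    rcases mul_eq_zero.1 this with h | h
    · exact absurd h hτ.ne'
    · exact h
  have z2 : c2 = 0 → y2 = 0 := by
    intro h
    have : τ * y2 = 0 := by
      have := mul_nonneg hτ.le hy2
      linarith [hc2d ▸ h]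
    rcases mul_eq_zero.1 this with h | h
    · exact absurd h hτ.ne'
    · exact h
  have hM1 : y1 + c1 * ((y1 + y2) / (c1 + c2)) ≤ 7 * S1 := by
    have : c1 * ((y1 + y2) / (c1 + c2)) ≤ S1 * 6 :=
      mul_le_mul hc1S hratio hratio0 hS1.le
    linarith
  have hM2 : y2 + c2 * ((y1 + y2) / (c1 + c2)) ≤ 7 * S2 := by
    have : c2 * ((y1 + y2) / (c1 + c2)) ≤ S2 * 6 :=
      mul_le_mul hc2S hratio hratio0 hS2.le
    linarith
  have key := kl_def hy1 hy2 hc1 hc2 z1 z2 hc (by positivity : 0 < 7 * S1)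
    (by positivity : 0 < 7 * S2) hM1 hM2
  rw [hcs]
  refine le_trans ?_ key
  have e1 : y1 * c2 - y2 * c1 = (r1 + r2) * (y1 - (y1 + y2) * (r1 / (r1 + r2))) := by
    rw [hc1d, hc2d]; field_simp; ring
  rw [e1]
  set d := y1 - (y1 + y2) * (r1 / (r1 + r2))
  have e2 : (1 : ℝ) / 8 ≤ (r1 + r2) ^ 2 / (2 * (c1 + c2) ^ 2) := by
    rw [div_le_div_iff₀ (by norm_num) (by positivity)]
    have a1 : (c1 + c2) ^ 2 ≤ 4 * (r1 + r2) ^ 2 := by nlinarith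
    linarith
  have e3 : 1 / (7 * S1) + 1 / (7 * S2) = (S1 + S2) / (7 * (S1 * S2)) := by
    field_simp; ring
  rw [e3]
  calc (S1 + S2) / (56 * (S1 * S2)) * d ^ 2
      = (1 / 8) * d ^ 2 * ((S1 + S2) / (7 * (S1 * S2))) := by field_simp; ring
    _ ≤ ((r1 + r2) ^ 2 / (2 * (c1 + c2) ^ 2)) * d ^ 2 *
          ((S1 + S2) / (7 * (S1 * S2))) := by gcongr
    _ = ((r1 + r2) * d) ^ 2 / (2 * (c1 + c2) ^ 2) *
          ((S1 + S2) / (7 * (S1 * S2))) := by ring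

lemma pen_def {x1 x2 y1 y2 S1 S2 : ℝ} (hx1 : 0 ≤ x1) (hx2 : 0 ≤ x2) (hy1 : 0 ≤ y1)
    (hy2 : 0 ≤ y2) (h1 : x1 + y1 ≤ S1) (h2 : x2 + y2 ≤ S2) (hS1 : 0 < S1) (hS2 : 0 < S2)
    (hlox : (S1 + S2) / 12 ≤ x1 + x2) (hhix : x1 + x2 ≤ (S1 + S2) / 4)
    (hloy : (S1 + S2) / 12 ≤ y1 + y2) (hhiy : y1 + y2 ≤ (S1 + S2) / 4) :
    (S1 + S2) ^ 3 / (20736 * (S1 * S2)) * (x1 / (x1 + x2) - y1 / (y1 + y2)) ^ 2 ≤
      kl x1 ((x1 + y1) / 2) + kl x2 ((x2 + y2) / 2) - kl (x1 + x2) ((x1 + x2 + (y1 + y2)) / 2) := by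
  have hS : 0 < S1 + S2 := by positivity
  have hx : 0 < x1 + x2 := by linarith
  have hy : 0 < y1 + y2 := by linarith
  set c1 := (x1 + y1) / 2 with hc1d
  set c2 := (x2 + y2) / 2 with hc2d
  have hc1 : 0 ≤ c1 := by positivity
  have hc2 : 0 ≤ c2 := by positivity
  have hcs : (x1 + x2 + (y1 + y2)) / 2 = c1 + c2 := by rw [hc1d, hc2d]; ring
  have hc : 0 < c1 + c2 := by rw [← hcs]; positivity
  have hc4 : c1 + c2 ≤ (S1 + S2) / 4 := by rw [← hcs]; linarith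
  have hratio : (x1 + x2) / (c1 + c2) ≤ 2 := by
    rw [div_le_iff₀ hc, ← hcs]
    linarith
  have hratio0 : 0 ≤ (x1 + x2) / (c1 + c2) := by positivity
  have z1 : c1 = 0 → x1 = 0 := by
    intro h; rw [hc1d] at h; linarith
  have z2 : c2 = 0 → x2 = 0 := by
    intro h; rw [hc2d] at h; linarith
  have hM1 : x1 + c1 * ((x1 + x2) / (c1 + c2)) ≤ 2 * S1 := by
    have : c1 * ((x1 + x2) / (c1 + c2)) ≤ c1 * 2 :=
      mul_le_mul_of_nonneg_left hratio hc1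
    rw [hc1d] at this ⊢
    linarith
  have hM2 : x2 + c2 * ((x1 + x2) / (c1 + c2)) ≤ 2 * S2 := by
    have : c2 * ((x1 + x2) / (c1 + c2)) ≤ c2 * 2 :=
      mul_le_mul_of_nonneg_left hratio hc2
    rw [hc2d] at this ⊢
    linarith
  have key := kl_def hx1 hx2 hc1 hc2 z1 z2 hc (by positivity : 0 < 2 * S1)
    (by positivity : 0 < 2 * S2) hM1 hM2
  rw [hcs]
  refine le_trans ?_ key
  have e1 : x1 * c2 - x2 * c1 =
      (1 / 2) * ((x1 + x2) * (y1 + y2)) * (x1 / (x1 + x2) - y1 / (y1 + y2)) := by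
    rw [hc1d, hc2d]; field_simp; ring
  rw [e1]
  set d := x1 / (x1 + x2) - y1 / (y1 + y2)
  have e2 : (S1 + S2) ^ 2 / 10368 ≤
      ((1 / 2) * ((x1 + x2) * (y1 + y2))) ^ 2 / (2 * (c1 + c2) ^ 2) := by
    rw [div_le_div_iff₀ (by norm_num) (by positivity)]
    have a1 : (c1 + c2) ^ 2 ≤ (S1 + S2) ^ 2 / 16 := by nlinarith
    have a2 : ((S1 + S2) / 12) ^ 2 ≤ (x1 + x2) * (y1 + y2) := by nlinarith
    have a3 : (((S1 + S2) / 12) ^ 2) ^ 2 ≤ ((x1 + x2) * (y1 + y2)) ^ 2 := by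
      gcongr
    calc (S1 + S2) ^ 2 * (2 * (c1 + c2) ^ 2)
        ≤ (S1 + S2) ^ 2 * (2 * ((S1 + S2) ^ 2 / 16)) := by gcongr
      _ = (1 / 4) * (((S1 + S2) / 12) ^ 2) ^ 2 * 10368 := by ring
      _ ≤ (1 / 4) * ((x1 + x2) * (y1 + y2)) ^ 2 * 10368 := by gcongr
      _ = ((1 / 2) * ((x1 + x2) * (y1 + y2))) ^ 2 * 10368 := by ring
  have e3 : 1 / (2 * S1) + 1 / (2 * S2) = (S1 + S2) / (2 * (S1 * S2)) := by
    field_simp; ring
  rw [e3]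
  calc (S1 + S2) ^ 3 / (20736 * (S1 * S2)) * d ^ 2
      = ((S1 + S2) ^ 2 / 10368) * d ^ 2 * ((S1 + S2) / (2 * (S1 * S2))) := by field_simp; ring
    _ ≤ (((1 / 2) * ((x1 + x2) * (y1 + y2))) ^ 2 / (2 * (c1 + c2) ^ 2)) * d ^ 2 *
          ((S1 + S2) / (2 * (S1 * S2))) := by gcongr
    _ = ((1 / 2) * ((x1 + x2) * (y1 + y2)) * d) ^ 2 / (2 * (c1 + c2) ^ 2) *
          ((S1 + S2) / (2 * (S1 * S2))) := by ring

end Pool.Agent.K9h88.IC
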