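import Pool.Agent.K9h88.IC.Potential

/-! The bump function `psi` and separate convexity of the corrected potential. -/

namespace Pool.Agent.K9h88.IC

open Finset

/-- sum of the coordinates -/
noncomputable def sm (a : Fin 6 → ℝ) : ℝ := ∑ i, a i
/-- sum of the squares of the coordinates -/
noncomputable def sq (a : Fin 6 → ℝ) : ℝ := ∑ i, (a i) ^ 2

/-- the quadratic-over-linear expression -/
noncomputable def qf (a b : Fin 6 → ℝ) : ℝ :=
  49 * sm a * sm b - 144 * (sm b * (sq a / sm a) + sm a * (sq b / sm b))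

/-- bump -/
noncomputable def psi (a b : Fin 6 → ℝ) : ℝ := max 0 (qf a b)

lemma qf_comm (a b : Fin 6 → ℝ) : qf a b = qf b a := by unfold qf; ring

lemma psi_comm (a b : Fin 6 → ℝ) : psi a b = psi b a := by unfold psi; rw [qf_comm]

lemma psi_nonneg (a b : Fin 6 → ℝ) : 0 ≤ psi a b := le_max_left _ _

lemma sm_nonneg {a : Fin 6 → ℝ} (ha : ∀ i, 0 ≤ a i) : 0 ≤ sm a := sum_nonneg fun i _ => ha i

lemma sm_add (a b : Fin 6 → ℝ) : sm (a + b) = sm a + sm b := by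
  simp [sm, sum_add_distrib]

lemma sq_ge (b : Fin 6 → ℝ) : sm b ^ 2 ≤ 6 * sq b := by
  have := sq_sum_le_card_mul_sum_sq (s := (univ : Finset (Fin 6))) (f := b)
  simpa [sm, sq] using this

lemma range_of_qf_pos {a b : Fin 6 → ℝ} (ha : ∀ i, 0 ≤ a i) (hb : ∀ i, 0 ≤ b i)
    (h : 0 < qf a b) :
    0 < sm a ∧ 0 < sm b ∧ (∀ i, sm a / 12 ≤ a i ∧ a i ≤ sm a / 4) := by
  have hSa := sm_nonneg ha
  have hSb := sm_nonneg hb
  have hSa' : 0 < sm a := by
    rcases hSa.eq_or_lt with h0 | h0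
    · exfalso; rw [qf, ← h0] at h; simp at h
    · exact h0
  have hSb' : 0 < sm b := by
    rcases hSb.eq_or_lt with h0 | h0
    · exfalso; rw [qf, ← h0] at h; simp at h
    · exact h0
  refine ⟨hSa', hSb', ?_⟩
  have h1 : sm b / 6 ≤ sq b / sm b := by
    rw [div_le_div_iff₀ (by norm_num) hSb']
    nlinarith [sq_ge b]
  have h2 : 144 * (sm b * (sq a / sm a)) < 25 * sm a * sm b := by
    have h3 : 144 * (sm a * (sq b / sm b)) ≥ 24 * sm a * sm b := by
      have := mul_le_mul_of_nonneg_left h1 hSa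
      linarith
    unfold qf at h
    linarith
  have h4 : 144 * sq a < 25 * sm a ^ 2 := by
    have h5 : 144 * (sq a / sm a) < 25 * sm a := by
      have : sm b * (144 * (sq a / sm a)) < sm b * (25 * sm a) := by linarith
      exact lt_of_mul_lt_mul_left this hSb
    have h6 := mul_lt_mul_of_pos_right h5 hSa'
    have h7 : 144 * (sq a / sm a) * sm a = 144 * sq a := by
      field_simp
    rw [h7] at h6
    linarith [h6]
  have h8 : ∑ i, (6 * a i - sm a) ^ 2 = 36 * sq a - 6 * sm a ^ 2 := by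
    have e : ∀ i, (6 * a i - sm a) ^ 2 = 36 * (a i) ^ 2 - 12 * sm a * a i + sm a ^ 2 := by
      intro i; ring
    simp_rw [e]
    rw [sum_add_distrib, sum_sub_distrib, ← mul_sum, ← mul_sum]
    simp only [sum_const, card_univ, Fintype.card_fin, nsmul_eq_mul]
    change 36 * sq a - 12 * sm a * sm a + _ = _
    push_cast
    ring
  intro i
  have h9 : (6 * a i - sm a) ^ 2 ≤ (sm a / 2) ^ 2 := by
    calc (6 * a i - sm a) ^ 2 ≤ ∑ i, (6 * a i - sm a) ^ 2 :=
          single_le_sum (f := fun i => (6 * a i - sm a) ^ 2) (fun _ _ => sq_nonneg _) (mem_univ i)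
      _ = 36 * sq a - 6 * sm a ^ 2 := h8
      _ ≤ (sm a / 2) ^ 2 := by nlinarith
  have h10 := abs_le_of_sq_le_sq h9 (by positivity)
  rw [abs_le] at h10
  constructor <;> linarith [h10.1, h10.2]

/-- cost of the quadratic-over-linear term under splitting -/
lemma quad_split {a1 a2 : Fin 6 → ℝ} (h1 : 0 < sm a1) (h2 : 0 < sm a2) :
    sq a1 / sm a1 + sq a2 / sm a2 - sq (a1 + a2) / sm (a1 + a2) =
      (∑ p, (a1 p * sm a2 - a2 p * sm a1) ^ 2) / (sm a1 * sm a2 * (sm a1 + sm a2)) := by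
  rw [sm_add]
  have h3 : 0 < sm a1 + sm a2 := by positivity
  have e : ∀ p, (a1 p) ^ 2 / sm a1 + (a2 p) ^ 2 / sm a2 - ((a1 + a2) p) ^ 2 / (sm a1 + sm a2) =
      (a1 p * sm a2 - a2 p * sm a1) ^ 2 / (sm a1 * sm a2 * (sm a1 + sm a2)) := by
    intro p
    rw [Pi.add_apply]
    field_simp
    ring
  unfold sq
  rw [sum_div, sum_div, sum_div, ← sum_add_distrib, ← sum_sub_distrib, sum_div]
  exact sum_congr rfl fun p _ => e p

lemma psi_split {a1 a2 b : Fin 6 → ℝ} (h1 : 0 < sm a1) (h2 : 0 < sm a2)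
    (h : 0 < qf (a1 + a2) b) :
    psi (a1 + a2) b - psi a1 b - psi a2 b ≤
      144 * sm b * ((∑ p, (a1 p * sm a2 - a2 p * sm a1) ^ 2) /
        (sm a1 * sm a2 * (sm a1 + sm a2))) := by
  have e1 : psi (a1 + a2) b = qf (a1 + a2) b := max_eq_right h.le
  have e2 : qf a1 b ≤ psi a1 b := le_max_right _ _
  have e3 : qf a2 b ≤ psi a2 b := le_max_right _ _
  rw [← quad_split h1 h2, e1]
  refine le_trans (by linarith : _ ≤ qf (a1 + a2) b - qf a1 b - qf a2 b) (le_of_eq ?_)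
  unfold qf
  rw [sm_add]
  ring

/-- The weighted mean minimises the weighted quadratic deviation. -/
lemma dev_bound {a1 a2 : Fin 6 → ℝ} (_h1 : 0 < sm a1) (_h2 : 0 < sm a2)
    (hpos : ∀ p, 0 < a1 p + a2 p) (hhi : ∀ p, a1 p + a2 p ≤ (sm a1 + sm a2) / 4) (m : ℝ) :
    ∑ p, (a1 p * sm a2 - a2 p * sm a1) ^ 2 ≤
      (sm a1 + sm a2) ^ 3 / 4 *
        ∑ p, (a1 p + a2 p) * (a1 p / (a1 p + a2 p) - m) ^ 2 := by
  set S1 := sm a1
  set S2 := sm a2
  set f : Fin 6 → ℝ := fun p => a1 p / (a1 p + a2 p) with hf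
  have hfp : ∀ p, (a1 p + a2 p) * f p = a1 p := by
    intro p; rw [hf]; have := (hpos p).ne'; field_simp
  have hS : 0 < S1 + S2 := by positivity
  have step1 : ∀ p, (a1 p * S2 - a2 p * S1) ^ 2 ≤
      (S1 + S2) / 4 * ((a1 p + a2 p) * (f p * (S1 + S2) - S1) ^ 2) := by
    intro p
    have e : a1 p * S2 - a2 p * S1 = (a1 p + a2 p) * (f p * (S1 + S2) - S1) := by
      have := hfp p
      calc a1 p * S2 - a2 p * S1 = a1 p * (S1 + S2) - (a1 p + a2 p) * S1 := by ring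
        _ = ((a1 p + a2 p) * f p) * (S1 + S2) - (a1 p + a2 p) * S1 := by rw [this]
        _ = _ := by ring
    rw [e, mul_pow, pow_two (a1 p + a2 p), mul_assoc]
    exact mul_le_mul_of_nonneg_right (hhi p)
      (mul_nonneg (hpos p).le (sq_nonneg _))
  have hsum1 : ∑ p, (a1 p + a2 p) * f p = S1 := by
    simp_rw [hfp]; rfl
  have hsum0 : ∑ p, (a1 p + a2 p) = S1 + S2 := by
    rw [sum_add_distrib]; rfl
  have step2 : ∑ p, (a1 p + a2 p) * (f p * (S1 + S2) - S1) ^ 2 ≤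
      (S1 + S2) ^ 2 * ∑ p, (a1 p + a2 p) * (f p - m) ^ 2 := by
    have e1 : ∑ p, (a1 p + a2 p) * (f p * (S1 + S2) - S1) ^ 2 =
        (S1 + S2) ^ 2 * (∑ p, (a1 p + a2 p) * (f p) ^ 2)
          - 2 * S1 * (S1 + S2) * (∑ p, (a1 p + a2 p) * f p)
          + S1 ^ 2 * ∑ p, (a1 p + a2 p) := by
      rw [mul_sum, mul_sum, mul_sum, ← sum_sub_distrib, ← sum_add_distrib]
      refine sum_congr rfl fun p _ => ?_
      ring
    have e2 : ∑ p, (a1 p + a2 p) * (f p - m) ^ 2 =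
        (∑ p, (a1 p + a2 p) * (f p) ^ 2)
          - 2 * m * (∑ p, (a1 p + a2 p) * f p)
          + m ^ 2 * ∑ p, (a1 p + a2 p) := by
      rw [mul_sum, mul_sum, ← sum_sub_distrib, ← sum_add_distrib]
      refine sum_congr rfl fun p _ => ?_
      ring
    rw [e1, e2, hsum1, hsum0]
    nlinarith [mul_nonneg hS.le (sq_nonneg (S1 - m * (S1 + S2)))]
  calc ∑ p, (a1 p * S2 - a2 p * S1) ^ 2
      ≤ ∑ p, (S1 + S2) / 4 * ((a1 p + a2 p) * (f p * (S1 + S2) - S1) ^ 2) :=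
        sum_le_sum fun p _ => step1 p
    _ = (S1 + S2) / 4 * ∑ p, (a1 p + a2 p) * (f p * (S1 + S2) - S1) ^ 2 := by rw [mul_sum]
    _ ≤ (S1 + S2) / 4 * ((S1 + S2) ^ 2 * ∑ p, (a1 p + a2 p) * (f p - m) ^ 2) := by
        gcongr
    _ = (S1 + S2) ^ 3 / 4 * ∑ p, (a1 p + a2 p) * (f p - m) ^ 2 := by ring

end Pool.Agent.K9h88.IC
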