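import Pool.Agent.K9h88.IC.Cheap

/-! Subadditivity of the expected communication complexity of the `n`-fold task. -/

namespace Pool.Agent.K9h88.IC

open Finset Filter Topology

variable {X Y Z : Type} [Fintype X] [Fintype Y]

lemma expectedBits_nonneg {μ : X → Y → ℝ} (hμ : ∀ x y, 0 ≤ μ x y) (π : Protocol X Y Z) :
    0 ≤ π.expectedBits μ := by
  rw [expectedBits_eq]
  exact sum_nonneg fun x _ => sum_nonneg fun y _ => mul_nonneg (hμ x y) (cost_nonneg π x y)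

lemma CC_bddBelow {G : X → Y → Z} {μ : X → Y → ℝ} (hμ : ∀ x y, 0 ≤ μ x y) :
    BddBelow {r : ℝ | ∃ π : Protocol X Y Z, π.ZeroError G ∧ r = π.expectedBits μ} :=
  ⟨0, by rintro r ⟨π, _, rfl⟩; exact expectedBits_nonneg hμ π⟩

lemma CC_le {G : X → Y → Z} {μ : X → Y → ℝ} (hμ : ∀ x y, 0 ≤ μ x y) (π : Protocol X Y Z)
    (hπ : π.ZeroError G) : CC G μ ≤ π.expectedBits μ :=
  csInf_le (CC_bddBelow hμ) ⟨π, hπ, rfl⟩

lemma CC_nonneg {G : X → Y → Z} {μ : X → Y → ℝ} (hμ : ∀ x y, 0 ≤ μ x y) : 0 ≤ CC G μ :=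
  Real.sInf_nonneg (by rintro r ⟨π, _, rfl⟩; exact expectedBits_nonneg hμ π)

lemma npow_nonneg {μ : X → Y → ℝ} (hμ : ∀ x y, 0 ≤ μ x y) (n : ℕ) (x : Fin n → X)
    (y : Fin n → Y) : 0 ≤ npow n μ x y := prod_nonneg fun _ _ => hμ _ _

lemma npow_total {μ : X → Y → ℝ} (h : ∑ x, ∑ y, μ x y = 1) (n : ℕ) :
    ∑ x : Fin n → X, ∑ y : Fin n → Y, npow n μ x y = 1 := by
  unfold npow
  rw [sum_npow n μ, h, one_pow]

lemma npow_add (μ : X → Y → ℝ) (m n : ℕ) (x1 : Fin m → X) (x2 : Fin n → X)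
    (y1 : Fin m → Y) (y2 : Fin n → Y) :
    npow (m + n) μ (Fin.append x1 x2) (Fin.append y1 y2) = npow m μ x1 y1 * npow n μ x2 y2 := by
  unfold npow
  rw [Fin.prod_univ_add]
  simp [Fin.append_left, Fin.append_right]

lemma sum_append {A : Type} [Fintype A] (m n : ℕ) (f : (Fin (m + n) → A) → ℝ) :
    ∑ x, f x = ∑ x1 : Fin m → A, ∑ x2 : Fin n → A, f (Fin.append x1 x2) := by
  rw [← (Fin.appendEquiv m n).sum_comp, Fintype.sum_prod_type]
  rfl

/-- run two protocols one after the other -/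
def Protocol.both {m n : ℕ} (π1 : Protocol (Fin m → X) (Fin m → Y) (Fin m → Z))
    (π2 : Protocol (Fin n → X) (Fin n → Y) (Fin n → Z)) :
    Protocol (Fin (m + n) → X) (Fin (m + n) → Y) (Fin (m + n) → Z) :=
  (π1.comap (fun x i => x (Fin.castAdd n i)) (fun y i => y (Fin.castAdd n i))).bind fun z1 =>
    (π2.comap (fun x i => x (Fin.natAdd m i)) (fun y i => y (Fin.natAdd m i))).bind fun z2 =>
      .out (Fin.append z1 z2)

omit [Fintype X] [Fintype Y] in
lemma cost_both {m n : ℕ} (π1 : Protocol (Fin m → X) (Fin m → Y) (Fin m → Z))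
    (π2 : Protocol (Fin n → X) (Fin n → Y) (Fin n → Z)) (x1 : Fin m → X) (x2 : Fin n → X)
    (y1 : Fin m → Y) (y2 : Fin n → Y) :
    (π1.both π2).cost (Fin.append x1 x2) (Fin.append y1 y2) = π1.cost x1 y1 + π2.cost x2 y2 := by
  unfold Protocol.both
  rw [cost_bind (K := π2.cost x2 y2), cost_comap]
  · simp [Fin.append_left]
  · intro z
    rw [cost_bind (K := 0), cost_comap]
    · simp [Fin.append_right]
    · intro z; rfl

omit [Fintype X] [Fintype Y] in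
lemma zeroError_both {m n : ℕ} {F : X → Y → Z}
    {π1 : Protocol (Fin m → X) (Fin m → Y) (Fin m → Z)}
    {π2 : Protocol (Fin n → X) (Fin n → Y) (Fin n → Z)} (h1 : π1.ZeroError (nfold m F))
    (h2 : π2.ZeroError (nfold n F)) : (π1.both π2).ZeroError (nfold (m + n) F) := by
  rw [zeroError_iff] at h1 h2 ⊢
  intro x y
  unfold Protocol.both
  refine ZE_bind _ _ _ _ _ _ ((ZE_comap _ _ _ _ _ _).2 (h1 _ _)) ?_
  refine ZE_bind _ _ _ _ _ _ ((ZE_comap _ _ _ _ _ _).2 (h2 _ _)) ?_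
  simp only [Protocol.ZE]
  funext i
  refine Fin.addCases (fun i => ?_) (fun i => ?_) i
  · rw [Fin.append_left]; rfl
  · rw [Fin.append_right]; rfl

lemma expectedBits_both {μ : X → Y → ℝ} (h : ∑ x, ∑ y, μ x y = 1) {m n : ℕ}
    (π1 : Protocol (Fin m → X) (Fin m → Y) (Fin m → Z))
    (π2 : Protocol (Fin n → X) (Fin n → Y) (Fin n → Z)) :
    (π1.both π2).expectedBits (npow (m + n) μ) =
      π1.expectedBits (npow m μ) + π2.expectedBits (npow n μ) := by
  rw [expectedBits_eq, expectedBits_eq, expectedBits_eq, sum_append]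
  simp_rw [sum_append m n (fun y : Fin (m + n) → Y => _), npow_add, cost_both]
  have e : ∀ (x1 : Fin m → X) (x2 : Fin n → X),
      ∑ y1 : Fin m → Y, ∑ y2 : Fin n → Y,
        npow m μ x1 y1 * npow n μ x2 y2 * (π1.cost x1 y1 + π2.cost x2 y2) =
      (∑ y1 : Fin m → Y, npow m μ x1 y1 * π1.cost x1 y1) * (∑ y2 : Fin n → Y, npow n μ x2 y2) +
      (∑ y1 : Fin m → Y, npow m μ x1 y1) *
        (∑ y2 : Fin n → Y, npow n μ x2 y2 * π2.cost x2 y2) := by
    intro x1 x2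
    rw [sum_mul_sum, sum_mul_sum, ← sum_add_distrib]
    refine sum_congr rfl fun y1 _ => ?_
    rw [← sum_add_distrib]
    refine sum_congr rfl fun y2 _ => ?_
    ring
  simp_rw [e, sum_add_distrib]
  rw [← sum_mul_sum, ← sum_mul_sum, npow_total h, npow_total h]
  ring

theorem CC_subadditive [Nonempty X] [Fintype Z] [Nonempty Z] {μ : X → Y → ℝ}
    (hμ : ∀ x y, 0 ≤ μ x y) (h : ∑ x, ∑ y, μ x y = 1) (F : X → Y → Z) :
    Subadditive fun n => CC (nfold n F) (npow n μ) := by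
  intro m n
  obtain ⟨σ1, hσ1⟩ := exists_zeroError (nfold m F)
  obtain ⟨σ2, hσ2⟩ := exists_zeroError (nfold n F)
  have key : ∀ r ∈ {r : ℝ | ∃ π : Protocol (Fin m → X) (Fin m → Y) (Fin m → Z),
      π.ZeroError (nfold m F) ∧ r = π.expectedBits (npow m μ)},
      ∀ s ∈ {r : ℝ | ∃ π : Protocol (Fin n → X) (Fin n → Y) (Fin n → Z),
      π.ZeroError (nfold n F) ∧ r = π.expectedBits (npow n μ)},
      CC (nfold (m + n) F) (npow (m + n) μ) ≤ r + s := by
    rintro r ⟨π1, h1, rfl⟩ s ⟨π2, h2, rfl⟩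
    rw [← expectedBits_both h]
    exact CC_le (npow_nonneg hμ _) _ (zeroError_both h1 h2)
  have k1 : ∀ s ∈ {r : ℝ | ∃ π : Protocol (Fin n → X) (Fin n → Y) (Fin n → Z),
      π.ZeroError (nfold n F) ∧ r = π.expectedBits (npow n μ)},
      CC (nfold (m + n) F) (npow (m + n) μ) - s ≤ CC (nfold m F) (npow m μ) := by
    intro s hs
    refine le_csInf ⟨_, σ1, hσ1, rfl⟩ fun r hr => ?_
    have := key r hr s hs
    linarith
  have k2 : CC (nfold (m + n) F) (npow (m + n) μ) - CC (nfold m F) (npow m μ) ≤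
      CC (nfold n F) (npow n μ) := by
    refine le_csInf ⟨_, σ2, hσ2, rfl⟩ fun s hs => ?_
    have := k1 s hs
    linarith
  show CC (nfold (m + n) F) (npow (m + n) μ) ≤
    CC (nfold m F) (npow m μ) + CC (nfold n F) (npow n μ)
  linarith

lemma CC_div_bddBelow {μ : X → Y → ℝ} (hμ : ∀ x y, 0 ≤ μ x y) (F : X → Y → Z) :
    BddBelow (Set.range fun n : ℕ => CC (nfold n F) (npow n μ) / n) :=
  ⟨0, by
    rintro r ⟨n, rfl⟩
    exact div_nonneg (CC_nonneg (npow_nonneg hμ _)) (Nat.cast_nonneg _)⟩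

end Pool.Agent.K9h88.IC
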